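import Pool.Agent.TH677.GI.OFP

/-!
# Iteration, folds and filters relative to an oracle
-/

set_option autoImplicit false
set_option linter.unusedSectionVars false

namespace Pool.Agent.TH677.GI

open Pool.Agent.NPC Pool.Agent.H622R2 Pool.Agent.TH677.GA
open Pool.Agent.H620R2.Gauge (Oracle IsFP IsFP.tt IsFP.seq IsFP.comp IsFP.of_poly IsFP.loop
  IsFP.pair A2.out_bound)

variable {A : Oracle} {α β γ δ σ : Type} [TEnc α] [TDec α] [TEnc β] [TDec β] [TEnc γ] [TDec γ]
  [TEnc δ] [TDec δ] [TEnc σ] [TDec σ]

namespace OP

/-- a loop with typed states -/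
theorem loop {S : σ → σ} (hS : OP A S) {g : α → σ} (hg : Poly g) (T b : Polynomial ℕ)
    (hb : ∀ a, ∀ i ≤ T.eval (sz a), sz (S^[i] (g a)) ≤ b.eval (sz a)) :
    OP A (fun a => S^[T.eval (sz a)] (g a)) := by
  obtain ⟨F, h1, h2, h3⟩ := hS.strict
  have hnil : F [] = [] := by
    apply h3
    cases h : unbits σ [] with
    | none => rfl
    | some a =>
      have h4 := bits_of_unbits h
      have h5 := sz_pos a
      rw [← bits_length, h4] at h5
      simp at h5
  set g' : List Bool → List Bool := fun x => match unbits α x with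
    | none => []
    | some a => bits (g a) with hg'
  have pg' : Poly g' :=
    Poly.optCases (o := fun x : List Bool => unbits α x)
      (g := fun _ => ([] : List Bool)) (h := fun _ a => (bits (g a) : List Bool))
      poly_unbits (NPC.Poly.const _) (poly_bits.comp (hg.comp (Poly.snd Poly.id)))
  have hit : ∀ (i : ℕ) (s : σ), F^[i] (bits s) = bits (S^[i] s) := by
    intro i
    induction i with
    | zero => intro s; rfl
    | succ i ih => intro s; rw [Function.iterate_succ_apply, h2, ih, Function.iterate_succ_apply]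
  have hit0 : ∀ i : ℕ, F^[i] [] = [] := by
    intro i
    induction i with
    | zero => rfl
    | succ i ih => rw [Function.iterate_succ_apply, hnil, ih]
  refine ⟨_, IsFP.loop h1 pg' T b fun x i hi => ?_, fun a => ?_⟩
  · cases hx : unbits α x with
    | none =>
      have h4 : g' x = [] := by rw [hg']; simp only [hx]
      rw [h4, hit0]
      exact Nat.zero_le _
    | some a =>
      have h4 : g' x = bits (g a) := by rw [hg']; simp only [hx]
      have h5 := bits_of_unbits hx
      have h6 : x.length = sz a := by rw [← h5]; rfl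
      rw [h4, hit, bits_length, h6]
      rw [h6] at hi
      exact hb a i hi
  · have h4 : g' (bits a) = bits (g a) := by rw [hg']; simp only [unbits_bits]
    simp only [h4, hit, bits_length]

theorem usz : UPoly (fun a : α => sz a) :=
  (UPoly.length (poly_bits (β := α))).congr fun a => by simp only [bits_length]

/-- the step of a bounded iteration -/
def itStep (F : α → σ → σ) (q : Polynomial ℕ) (s : (α × σ) × List Unit) :
    (α × σ) × List Unit :=
  if s.2 = [] then s else
    ((s.1.1, if sz (F s.1.1 s.1.2) ≤ q.eval (sz s.1.1) then F s.1.1 s.1.2 else s.1.2), s.2.tail)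

theorem itStep_iterate {F : α → σ → σ} {q : Polynomial ℕ} {a : α} {s : σ} {n : ℕ}
    (h : ∀ k ≤ n, sz ((F a)^[k] s) ≤ q.eval (sz a)) : ∀ j ≤ n,
    (itStep F q)^[j] ((a, s), List.replicate n ()) =
      ((a, (F a)^[j] s), List.replicate (n - j) ()) := by
  intro j
  induction j with
  | zero => intro _; rfl
  | succ j ih =>
    intro hj
    rw [Function.iterate_succ_apply', ih (by omega), itStep]
    have h1 : n - j = (n - (j + 1)) + 1 := by omega
    rw [h1, List.replicate_succ, if_neg (by simp)]
    simp only [List.tail_cons]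
    rw [← Function.iterate_succ_apply' (F a), if_pos (h (j + 1) hj)]

theorem itStep_stop {F : α → σ → σ} {q : Polynomial ℕ} (s : α × σ) : ∀ j : ℕ,
    (itStep F q)^[j] (s, []) = (s, []) := by
  intro j
  induction j with
  | zero => rfl
  | succ j ih =>
    rw [Function.iterate_succ_apply', ih, itStep, if_pos rfl]

theorem itStep_bound (F : α → σ → σ) (q : Polynomial ℕ) (a : α) (s : σ) (c : List Unit) :
    ∀ j : ℕ, ((itStep F q)^[j] ((a, s), c)).1.1 = a ∧
      sz ((itStep F q)^[j] ((a, s), c)).1.2 ≤ sz s + q.eval (sz a) ∧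
      sz ((itStep F q)^[j] ((a, s), c)).2 ≤ sz c := by
  intro j
  induction j with
  | zero => exact ⟨rfl, Nat.le_add_right _ _, le_rfl⟩
  | succ j ih =>
    rw [Function.iterate_succ_apply']
    obtain ⟨h1, h2, h3⟩ := ih
    generalize (itStep F q)^[j] ((a, s), c) = t at *
    unfold itStep
    by_cases h4 : t.2 = []
    · rw [if_pos h4]
      exact ⟨h1, h2, h3⟩
    · rw [if_neg h4]
      refine ⟨h1, ?_, ?_⟩
      · simp only
        split_ifs with h5
        · rw [h1] at h5 ⊢
          omega
        · exact h2
      · simp only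
        have h5 := Poly.sz_drop_le t.2 1
        rw [List.drop_one] at h5
        exact h5.trans h3

theorem itStep_op {F : α → σ → σ} (hF : OP A (fun p : α × σ => F p.1 p.2)) (q : Polynomial ℕ) :
    OP A (itStep F q) := by
  have hs : OP A (fun s : (α × σ) × List Unit => F s.1.1 s.1.2) :=
    comp hF (of_poly (Poly.fst Poly.id))
  have hd : OP A (fun s : (α × σ) × List Unit =>
      decide (sz (F s.1.1 s.1.2) ≤ q.eval (sz s.1.1))) := by
    have h1 : Poly (fun p : ℕ × ℕ => decide (p.1 ≤ p.2)) :=
      Poly.decide_le (Poly.fst Poly.id) (Poly.snd Poly.id)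
    have h2 : Poly (fun s : (α × σ) × List Unit => q.eval (sz s.1.1)) :=
      ((UPoly.comp usz (Poly.fst (Poly.fst Poly.id))).eval q).toPoly
    exact pcomp h1 (pair (pcomp poly_sz hs) (of_poly h2))
  unfold itStep
  exact ite (of_poly (Poly.decide_eq (Poly.snd Poly.id) (NPC.Poly.const _))) id
    (pair (pair (of_poly (Poly.fst (Poly.fst Poly.id)))
      (ite hd hs (of_poly (Poly.snd (Poly.fst Poly.id)))))
      (of_poly (Poly.tail (Poly.snd Poly.id))))

/-- iteration -/
theorem iter {F : α → σ → σ} {s : α → σ} {n : α → ℕ} (hn : UPoly n) (hs : OP A s)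
    (hF : OP A (fun p : α × σ => F p.1 p.2)) (q : Polynomial ℕ)
    (hq : ∀ a, ∀ k ≤ n a, sz ((F a)^[k] (s a)) ≤ q.eval (sz a)) :
    OP A (fun a => (F a)^[n a] (s a)) := by
  obtain ⟨r, hr⟩ := UPoly.bound hn
  have hg : Poly (fun p : α × σ => (((p.1, p.2), List.replicate (n p.1) ()) :
      (α × σ) × List Unit)) :=
    Poly.pair (Poly.pair (Poly.fst Poly.id) (Poly.snd Poly.id))
      (UPoly.comp hn (Poly.fst Poly.id))
  have h1 := loop (itStep_op hF q) hg r (Polynomial.X + q + 2 * r + 2) (by
    rintro ⟨a, s⟩ i _
    obtain ⟨h1, h2, h3⟩ := itStep_bound F q a s (List.replicate (n a) ()) i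
    simp only
    generalize (itStep F q)^[i] ((a, s), List.replicate (n a) ()) = t at *
    have e1 : sz t = sz t.1.1 + sz t.1.2 + 1 + sz t.2 + 1 := by
      rw [← sz_pair t.1.1 t.1.2, ← sz_pair t.1 t.2]
    have e2 : sz (a, s) = sz a + sz s + 1 := sz_pair a s
    have e3 := hr a
    have e4 : r.eval (sz a) ≤ r.eval (sz (a, s)) := eval_mono r (by omega)
    have e5 : q.eval (sz a) ≤ q.eval (sz (a, s)) := eval_mono q (by omega)
    rw [sz_replicate_unit] at h3
    simp only [Polynomial.eval_add, Polynomial.eval_mul, Polynomial.eval_X,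
      Polynomial.eval_ofNat]
    rw [e1, h1]
    omega)
  have h2 : OP A (fun a => (a, s a)) := graph hs
  refine (pcomp (g := fun t : (α × σ) × List Unit => t.1.2) (Poly.snd (Poly.fst Poly.id))
    (comp h1 h2)).congr fun a => ?_
  have e2 : sz (a, s a) = sz a + sz (s a) + 1 := sz_pair a (s a)
  have e4 : n a ≤ r.eval (sz (a, s a)) := (hr a).trans (eval_mono r (by omega))
  obtain ⟨j, hj⟩ := Nat.exists_eq_add_of_le' e4
  simp only
  rw [hj, Function.iterate_add_apply, itStep_iterate (hq a) (n a) le_rfl, Nat.sub_self]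
  simp only [List.replicate_zero]
  rw [itStep_stop]

/-- left folds -/
theorem foldl {l : α → List β} {s : α → σ} {F : α → σ → β → σ} (hl : Poly l) (hs : OP A s)
    (hF : OP A (fun p : α × σ × β => F p.1 p.2.1 p.2.2)) (q : Polynomial ℕ)
    (hq : ∀ a, ∀ k ≤ (l a).length, sz (((l a).take k).foldl (F a) (s a)) ≤ q.eval (sz a)) :
    OP A (fun a => (l a).foldl (F a) (s a)) := by
  have hstep : OP A (Poly.foldStep F) := by
    have h1 : Poly (fun p : α × List β × σ => (p.2.1.head?).map fun b => (p.1, p.2.2, b)) :=
      Poly.optMap (o := fun p : α × List β × σ => p.2.1.head?)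
        (f := fun p b => (p.1, p.2.2, b)) (Poly.head? (Poly.fst (Poly.snd Poly.id)))
        (Poly.pair (Poly.fst (Poly.fst Poly.id)) (Poly.pair (Poly.snd (Poly.snd (Poly.fst Poly.id)))
          (Poly.snd Poly.id)))
    have h2 : Poly (fun p : (α × List β × σ) × σ =>
        ((p.1.1, p.1.2.1.tail, p.2) : α × List β × σ)) :=
      Poly.pair (Poly.fst (Poly.fst Poly.id)) (Poly.pair (Poly.tail (Poly.fst (Poly.snd
        (Poly.fst Poly.id)))) (Poly.snd Poly.id))
    refine (via (A := A) (g := fun p : α × List β × σ => p)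
      (k := fun (p : α × List β × σ) (t : σ) => ((p.1, p.2.1.tail, t) : α × List β × σ))
      hF h1 Poly.id h2).congr ?_
    rintro ⟨a, l, s⟩
    cases l <;> rfl
  obtain ⟨r, hr⟩ := hl.sz_le
  have hF' : OP A (fun p : α × (α × List β × σ) => Poly.foldStep F p.2) :=
    compp hstep (Poly.snd Poly.id)
  have h1 := iter (F := fun _ : α => Poly.foldStep F) (s := fun a => (a, l a, s a))
    (UPoly.length hl) (pair id (pair (of_poly hl) hs)) hF' (Polynomial.X + r + q + 2) (by
      intro a k hk
      rw [Poly.foldStep_iterate]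
      rw [sz_pair, sz_pair]
      have e1 := Poly.sz_drop_le (l a) k
      have e2 := hr a
      have e3 := hq a k hk
      simp only [Polynomial.eval_add, Polynomial.eval_X, Polynomial.eval_ofNat]
      omega)
  refine (pcomp (Poly.snd (Poly.snd Poly.id)) h1).congr fun a => ?_
  rw [Poly.foldStep_iterate, List.take_length]

theorem filter {l : α → List β} {p : α → β → Bool} (hl : Poly l)
    (hp : OP A (fun x : α × β => p x.1 x.2)) : OP A (fun a => (l a).filter (p a)) := by
  have key : ∀ (a : α) (l acc : List β),
      l.foldl (fun acc b => bif p a b then b :: acc else acc) acc =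
        (l.filter (p a)).reverse ++ acc := by
    intro a l
    induction l with
    | nil => intro acc; rfl
    | cons b l ih =>
      intro acc
      rw [List.foldl_cons, ih, List.filter_cons]
      cases h : p a b <;> simp
  have hsz : ∀ (f : β → Bool) (l : List β), sz (l.filter f) ≤ sz l := by
    intro f l
    induction l with
    | nil => simp
    | cons b l ih =>
      rw [List.filter_cons]
      split_ifs
      · simp; omega
      · simp; omega
  obtain ⟨r, hr⟩ := hl.sz_le
  have h1 := foldl (A := A) (s := fun _ : α => ([] : List β))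
    (F := fun a acc b => bif p a b then b :: acc else acc) hl (const []) (by
      refine cond (comp hp (of_poly (f := fun y : α × List β × β => (y.1, y.2.2))
        (Poly.pair (Poly.fst Poly.id) (Poly.snd (Poly.snd Poly.id))))) ?_ ?_
      · exact of_poly (Poly.cons (Poly.snd (Poly.snd Poly.id)) (Poly.fst (Poly.snd Poly.id)))
      · exact of_poly (Poly.fst (Poly.snd Poly.id))) r (by
      intro a k _
      rw [key, List.append_nil, sz_reverse]
      exact (hsz _ _).trans ((Poly.sz_take_le _ _).trans (hr a)))
  refine (pcomp (Poly.reverse Poly.id) h1).congr fun a => ?_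
  rw [key, List.append_nil, List.reverse_reverse]

theorem any {l : α → List β} {p : α → β → Bool} (hl : Poly l)
    (hp : OP A (fun x : α × β => p x.1 x.2)) : OP A (fun a => (l a).any (p a)) := by
  refine (pcomp (Poly.not (Poly.isEmpty Poly.id)) (filter hl hp)).congr fun a => ?_
  induction l a with
  | nil => rfl
  | cons b l ih => cases h : p a b <;> simp_all

end OP

end Pool.Agent.TH677.GI
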