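import Pool.Agent.TH677.GI.Count
import Pool.Agent.TH677.GI.OIter
import Pool.Agent.TH677.GA.Alg

/-!
# The algorithm
-/

set_option autoImplicit false
set_option linter.unusedVariables false

namespace Pool.Agent.TH677.GI

open Pool.Agent.NPC Pool.Agent.H622R2 Pool.Agent.TH677.GA
open Pool.Agent.H620R2.Gauge (Oracle IsFP)

/-- the two matrices coded by `x` -/
def decG (x : List Bool) : List (List Bool) × List (List Bool) :=
  match unbits (List (List Bool) × List (List Bool)) x with
  | some r => r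
  | none => ([], [])

/-- random bits and input -/
abbrev Ctx : Type := List Bool × List Bool

section

variable (A : Oracle) (Q W : Polynomial ℕ) (C : ℕ)

/-- the number of vertices -/
def nOf (c : Ctx) : ℕ := (decG c.2).1.length

/-- the number of elements of the structure made of the two graphs -/
def NOf (c : Ctx) : ℕ := 2 * nOf c

/-- the number of arrangements in a block -/
def bX (c : Ctx) : ℕ := c.2.length + C

/-- the number of blocks -/
def qX (c : Ctx) : ℕ := Q.eval (bX C c)

/-- the number of trials -/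
def KX (c : Ctx) : ℕ := W.eval (bX C c)

/-- the bound for the number of random bits of a trial -/
noncomputable def rPoly : Polynomial ℕ :=
  hPoly + Q * ((16 * Polynomial.X ^ 2 + 1) * Polynomial.X + 1)

/-- the number of random bits for a trial -/
noncomputable def rX (c : Ctx) : ℕ := (rPoly Q).eval (bX C c)

/-- the structure -/
def gX (c : Ctx) : ℕ → ℕ → List Bool := gOf (decG c.2, ([], []))

/-- a question -/
noncomputable def quest (c : Ctx) (L₁ L₂ : List ℕ) (h k : ℕ) : List Bool :=
  trial (entB (decG c.2, (L₁, L₂))) (2 * NOf c) (NOf c + 3) (bX C c) (qX Q C c) h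
    (chunk (rX Q C c) k c.1)

/-- the tests -/
noncomputable def acc (c : Ctx) (L₁ L₂ : List ℕ) (h : ℕ) : Bool :=
  decide (0 < h) && (List.range (KX W C c)).any fun k => A (quest Q C c L₁ L₂ h k)

/-- the orders of the stabilizers -/
noncomputable def bsX (c : Ctx) : List ℕ :=
  (stp (acc A Q W C c) (gX c) (NOf c))^[NOf c - 1] [1]

/-- the result on pairs of graphs with the same number of vertices -/
noncomputable def resX (c : Ctx) : List Bool :=
  dec (acc A Q W C c) (gX c) (nOf c) (NOf c) (bsX A Q W C c)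

/-- the algorithm -/
noncomputable def algG (c : Ctx) : List Bool :=
  if (unbits (List (List Bool) × List (List Bool)) c.2).isNone = true then [false]
  else if (okG (decG c.2).1 && okG (decG c.2).2) = false then [false]
  else if (decG c.2).1.length ≠ (decG c.2).2.length then [false]
  else if (decG c.2).1.length = 0 then [true]
  else resX A Q W C c

end

/-! ### it is computable in polynomial time -/

section

variable {α : Type} [TEnc α]

theorem pdecG {x : α → List Bool} (hx : Poly x) : Poly (fun a => decG (x a)) := by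
  refine (Poly.optCases (o := fun a => unbits (List (List Bool) × List (List Bool)) (x a))
    (g := fun _ => (([], []) : List (List Bool) × List (List Bool))) (h := fun _ r => r)
    (poly_unbits.comp hx) (NPC.Poly.const _) (Poly.snd Poly.id)).congr fun a => ?_
  unfold decG
  cases unbits (List (List Bool) × List (List Bool)) (x a) <;> rfl

theorem pnOf {c : α → Ctx} (hc : Poly c) : UPoly (fun a => nOf (c a)) :=
  UPoly.length (Poly.fst (pdecG (Poly.snd hc)))

theorem pNOf {c : α → Ctx} (hc : Poly c) : UPoly (fun a => NOf (c a)) := p2 (pnOf hc)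

variable (Q W : Polynomial ℕ) (C : ℕ)

theorem pbX {c : α → Ctx} (hc : Poly c) : UPoly (fun a => bX C (c a)) :=
  UPoly.add (UPoly.length (Poly.snd hc)) (UPoly.const C)

theorem pqX {c : α → Ctx} (hc : Poly c) : UPoly (fun a => qX Q C (c a)) :=
  UPoly.eval (pbX C hc) Q

theorem pKX {c : α → Ctx} (hc : Poly c) : UPoly (fun a => KX W C (c a)) :=
  UPoly.eval (pbX C hc) W

theorem prX {c : α → Ctx} (hc : Poly c) : UPoly (fun a => rX Q C (c a)) :=
  UPoly.eval (pbX C hc) (rPoly Q)

theorem pquest {c : α → Ctx} {L₁ L₂ : α → List ℕ} {h k : α → ℕ} (hc : Poly c) (h1 : Poly L₁)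
    (h2 : Poly L₂) (hh : Poly h) (hk : Poly k) :
    Poly (fun a => quest Q C (c a) (L₁ a) (L₂ a) (h a) (k a)) := by
  have hr := (prX Q C hc).toPoly
  unfold quest
  refine ptrial (Poly.pair (pdecG (Poly.snd hc)) (Poly.pair h1 h2)) (p2 (pNOf hc))
    (UPoly.add (pNOf hc) (UPoly.const 3)) (pbX C hc) (pqX Q C hc) hh ?_
  exact ptake (pdrop (Poly.fst hc) (Poly.mul hk hr)) hr

variable [TDec α] (A : Oracle)

/-- the tests are computable relative to the oracle -/
theorem oacc {c : α → Ctx} {L₁ L₂ : α → List ℕ} {h : α → ℕ} (hc : OP A c) (h1 : OP A L₁)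
    (h2 : OP A L₂) (hh : OP A h) :
    OP A (fun a => acc A Q W C (c a) (L₁ a) (L₂ a) (h a)) := by
  have key : OP A (fun y : Ctx × List ℕ × List ℕ × ℕ => acc A Q W C y.1 y.2.1 y.2.2.1 y.2.2.2) := by
    unfold acc
    refine OP.and (OP.of_poly (Poly.decide_lt (NPC.Poly.const 0)
      (Poly.snd (Poly.snd (Poly.snd Poly.id))))) ?_
    refine OP.any (p := fun (y : Ctx × List ℕ × List ℕ × ℕ) k =>
      A (quest Q C y.1 y.2.1 y.2.2.1 y.2.2.2 k)) (pKX W C (Poly.fst Poly.id)).range ?_
    have h0 : Poly (fun x : (Ctx × List ℕ × List ℕ × ℕ) × ℕ => x.1) := Poly.fst Poly.id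
    exact OP.compp OP.ask (pquest Q C (Poly.fst h0) (Poly.fst (Poly.snd h0))
      (Poly.fst (Poly.snd (Poly.snd h0))) (Poly.snd (Poly.snd (Poly.snd h0))) (Poly.snd Poly.id))
  have h := OP.comp key (OP.pair hc (OP.pair h1 (OP.pair h2 hh)))
  exact h

theorem otest_key : OP A (fun y : Ctx × List ℕ × ℕ => test (acc A Q W C y.1) y.2.1 y.2.2) := by
  have h0 : Poly (fun y : Ctx × List ℕ × ℕ => y.1) := Poly.fst Poly.id
  have h1 : Poly (fun y : Ctx × List ℕ × ℕ => y.2.1) := Poly.fst (Poly.snd Poly.id)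
  have h2 : Poly (fun y : Ctx × List ℕ × ℕ => y.2.2) := Poly.snd (Poly.snd Poly.id)
  have h3 : Poly (fun y : Ctx × List ℕ × ℕ => y.2.2 ^ 2) :=
    (Poly.mul h2 h2).congr fun y => (sq _).symm
  have h4 : Poly (fun y : Ctx × List ℕ × ℕ => 3 * y.2.2 ^ 2) := Poly.mul (NPC.Poly.const 3) h3
  have h5 : Poly (fun y : Ctx × List ℕ × ℕ => 2 * y.2.2 ^ 2) := Poly.mul (NPC.Poly.const 2) h3
  have h6 : Poly (fun y : Ctx × List ℕ × ℕ => List.range y.2.1.length) := (UPoly.length h1).range
  have k1 := oacc Q W C A (OP.of_poly h0) (OP.of_poly h1) (OP.of_poly h1) (OP.of_poly h4)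
  have k2 := oacc Q W C A (OP.of_poly h0) (OP.of_poly h6) (OP.of_poly h1) (OP.of_poly h5)
  exact OP.and k1 (OP.not k2)

theorem otest {c : α → Ctx} {L : α → List ℕ} {a' : α → ℕ} (hc : OP A c) (hL : OP A L)
    (ha : OP A a') : OP A (fun a => test (acc A Q W C (c a)) (L a) (a' a)) := by
  have h := OP.comp (otest_key Q W C A) (OP.pair hc (OP.pair hL ha))
  exact h

theorem onext : OP A (fun y : Ctx × List ℕ × List ℕ =>
    next (acc A Q W C y.1) (NOf y.1) y.2.1 y.2.2) := by
  have h0 : Poly (fun y : (Ctx × List ℕ × List ℕ) × ℕ => y.1.1) := Poly.fst (Poly.fst Poly.id)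
  have h1 : Poly (fun y : (Ctx × List ℕ × List ℕ) × ℕ => y.1.2.1) :=
    Poly.fst (Poly.snd (Poly.fst Poly.id))
  have h2 : Poly (fun y : (Ctx × List ℕ × List ℕ) × ℕ => y.1.2.2) :=
    Poly.snd (Poly.snd (Poly.fst Poly.id))
  have h3 : Poly (fun y : (Ctx × List ℕ × List ℕ) × ℕ => y.1.2.2 ++ [y.2]) :=
    Poly.append h2 (Poly.cons (Poly.snd Poly.id) (NPC.Poly.const []))
  have h4 : Poly (fun y : (Ctx × List ℕ × List ℕ) × ℕ =>
      y.1.2.1.getD (NOf y.1.1 - (y.1.2.2.length + 1)) 1) :=
    Poly.getD h1 (Poly.sub (pNOf h0).toPoly (Poly.succ (Poly.length h2))) (NPC.Poly.const 1)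
  have h5 : Poly (fun y : Ctx × List ℕ × List ℕ => List.range (NOf y.1)) :=
    (pNOf (Poly.fst Poly.id)).range
  have k1 := otest Q W C A (OP.of_poly h0) (OP.of_poly h3) (OP.of_poly h4)
  have k2 := OP.filter (p := fun (y : Ctx × List ℕ × List ℕ) v =>
    test (acc A Q W C y.1) (y.2.2 ++ [v]) (y.2.1.getD (NOf y.1 - (y.2.2.length + 1)) 1)) h5 k1
  have h6 : Poly (fun l : List ℕ => l.head?.getD 0) := Poly.head?_getD Poly.id 0
  have k3 := OP.pcomp h6 k2
  exact k3

theorem oext : OP A (fun y : Ctx × List ℕ × List ℕ =>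
    ext (acc A Q W C y.1) (NOf y.1) y.2.1 y.2.2) := by
  have h0 : Poly (fun y : Ctx × List ℕ × List ℕ => y.1) := Poly.fst Poly.id
  have h2 : Poly (fun y : Ctx × List ℕ × List ℕ => y.2.2) := Poly.snd (Poly.snd Poly.id)
  have h3 : Poly (fun y : Ctx × List ℕ × List ℕ => decide (y.2.2.length < NOf y.1)) :=
    Poly.decide_lt (Poly.length h2) (pNOf h0).toPoly
  have h4 : Poly (fun p : List ℕ × ℕ => p.1 ++ [p.2]) :=
    Poly.append (Poly.fst Poly.id) (Poly.cons (Poly.snd Poly.id) (NPC.Poly.const []))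
  have k1 := OP.pcomp h4 (OP.pair (OP.of_poly h2) (onext Q W C A))
  have k2 := OP.ite (OP.of_poly h3) k1 (OP.of_poly h2)
  exact k2

end

theorem next_le (f : List ℕ → List ℕ → ℕ → Bool) (N : ℕ) (bs L : List ℕ) :
    next f N bs L ≤ N := by
  unfold next
  cases h : ((List.range N).filter fun v =>
    test f (L ++ [v]) (bs.getD (N - (L.length + 1)) 1)).head? with
  | none => exact Nat.zero_le _
  | some v =>
    have h1 := List.mem_of_head? h
    rw [List.mem_filter, List.mem_range] at h1
    exact h1.1.le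

theorem sz_ext_iterate (f : List ℕ → List ℕ → ℕ → Bool) (N : ℕ) (bs L : List ℕ) : ∀ k : ℕ,
    sz ((ext f N bs)^[k] L) ≤ sz L + k * (4 * (N + 1) + 2) := by
  intro k
  induction k with
  | zero => simp
  | succ k ih =>
    rw [Function.iterate_succ_apply']
    generalize (ext f N bs)^[k] L = L' at *
    have h1 := sz_le_of_lt (Nat.lt_succ_of_le (next_le f N bs L'))
    have h2 := sz_append L' [next f N bs L']
    have h3 : sz [next f N bs L'] = sz (next f N bs L') + 1 + 1 := by
      rw [sz_list_cons, sz_list_nil]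
    have h4 : (k + 1) * (4 * (N + 1) + 2) = k * (4 * (N + 1) + 2) + (4 * (N + 1) + 2) := by ring
    unfold ext
    split_ifs
    · omega
    · omega

section

variable (Q W : Polynomial ℕ) (C : ℕ) (A : Oracle)

/-- the search is computable relative to the oracle -/
theorem osearch : OP A (fun y : Ctx × List ℕ × ℕ =>
    search (acc A Q W C y.1) (NOf y.1) y.2.1 (NOf y.1 - y.2.1.length) y.2.2) := by
  have h0 : Poly (fun y : Ctx × List ℕ × ℕ => y.1) := Poly.fst Poly.id
  have h1 : Poly (fun y : Ctx × List ℕ × ℕ => y.2.1) := Poly.fst (Poly.snd Poly.id)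
  have hN : UPoly (fun y : Ctx × List ℕ × ℕ => NOf y.1) := pNOf h0
  have hi : UPoly (fun y : Ctx × List ℕ × ℕ => NOf y.1 - y.2.1.length) :=
    UPoly.of_le (Poly.sub hN.toPoly (Poly.length h1)) hN (fun y => Nat.sub_le _ _)
  have hL : Poly (fun y : Ctx × List ℕ × ℕ =>
      List.range (NOf y.1 - y.2.1.length) ++ [y.2.2]) :=
    Poly.append hi.range (Poly.cons (Poly.snd (Poly.snd Poly.id)) (NPC.Poly.const []))
  obtain ⟨r, hr⟩ := hL.sz_le
  obtain ⟨u, hu⟩ := UPoly.bound hN
  have h3 : Poly (fun p : (Ctx × List ℕ × ℕ) × List ℕ => ((p.1.1, p.1.2.1, p.2) :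
      Ctx × List ℕ × List ℕ)) :=
    Poly.pair (Poly.fst (Poly.fst Poly.id)) (Poly.pair (Poly.fst (Poly.snd (Poly.fst Poly.id)))
      (Poly.snd Poly.id))
  have hF := OP.compp (oext Q W C A) h3
  have k1 := OP.iter (F := fun (y : Ctx × List ℕ × ℕ) L =>
    ext (acc A Q W C y.1) (NOf y.1) y.2.1 L) hN (OP.of_poly hL) hF
    (r + u * (4 * (u + 1) + 2)) (by
      intro y k hk
      refine (sz_ext_iterate _ _ _ _ k).trans ?_
      have e1 := hr y
      have e2 := hu y
      have e3 : k * (4 * (NOf y.1 + 1) + 2) ≤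
          u.eval (sz y) * (4 * (u.eval (sz y) + 1) + 2) :=
        Nat.mul_le_mul (hk.trans e2) (by omega)
      simp only [Polynomial.eval_add, Polynomial.eval_mul, Polynomial.eval_ofNat,
        Polynomial.eval_one]
      omega)
  exact k1

theorem pgX {α : Type} [TEnc α] {c : α → Ctx} {s t : α → ℕ} (hc : Poly c) (hs : Poly s)
    (ht : Poly t) : Poly (fun a => gX (c a) (s a) (t a)) := by
  have h1 := pdecG (Poly.snd hc)
  exact ptwoG (Poly.fst h1) (Poly.snd h1) (UPoly.length (Poly.fst h1)).toPoly hs ht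

theorem pokA {α : Type} [TEnc α] {c : α → Ctx} {N i v : α → ℕ} {L : α → List ℕ} (hc : Poly c)
    (hN : UPoly N) (hL : Poly L) (hi : UPoly i) (hv : Poly v) :
    Poly (fun a => okA (gX (c a)) (N a) (L a) (i a) (v a)) := by
  have z : ∀ {β : Type} [TEnc β], Poly (fun _ : β => 0) := fun {β} _ => NPC.Poly.const 0
  unfold okA
  refine Poly.and (Poly.and (Poly.and (Poly.decide_eq (Poly.length hL) hN.toPoly) ?_) ?_) ?_
  · refine Poly.all (p := fun a s => decide ((L a).getD s 0 < N a) &&
      (List.range (N a)).all fun t =>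
        decide (gX (c a) ((L a).getD s 0) ((L a).getD t 0) = gX (c a) s t) &&
          (decide (s = t) || !decide ((L a).getD s 0 = (L a).getD t 0))) hN.range ?_
    refine Poly.and (Poly.decide_lt (Poly.getD (g1 hL) psnd (NPC.Poly.const 0))
      (g1 hN.toPoly)) ?_
    refine Poly.all (p := fun (y : α × ℕ) t =>
        decide (gX (c y.1) ((L y.1).getD y.2 0) ((L y.1).getD t 0) = gX (c y.1) y.2 t) &&
          (decide (y.2 = t) || !decide ((L y.1).getD y.2 0 = (L y.1).getD t 0)))
      (g1 hN.range) ?_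
    have c2 : Poly (fun y : (α × ℕ) × ℕ => c y.1.1) := g1 (g1 hc)
    have l2 : Poly (fun y : (α × ℕ) × ℕ => L y.1.1) := g1 (g1 hL)
    have s2 : Poly (fun y : (α × ℕ) × ℕ => y.1.2) := g1 psnd
    have t2 : Poly (fun y : (α × ℕ) × ℕ => y.2) := psnd
    have ls := Poly.getD l2 s2 z
    have lt := Poly.getD l2 t2 z
    exact Poly.and (Poly.decide_eq (pgX c2 ls lt) (pgX c2 s2 t2))
      (Poly.or (Poly.decide_eq s2 t2) (Poly.not (Poly.decide_eq ls lt)))
  · exact Poly.all (p := fun a j => decide ((L a).getD j 0 = j)) hi.range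
      (Poly.decide_eq (Poly.getD (g1 hL) psnd z) psnd)
  · exact Poly.decide_eq (Poly.getD hL hi.toPoly z) hv

theorem oorbs : OP A (fun y : Ctx × List ℕ => orbs (acc A Q W C y.1) (gX y.1) (NOf y.1) y.2) := by
  have h0 : Poly (fun y : Ctx × List ℕ => y.1) := Poly.fst Poly.id
  -- the tuple with the result of the search
  have h1 : Poly (fun y : (Ctx × List ℕ) × ℕ => ((y.1.1, y.1.2, y.2) : Ctx × List ℕ × ℕ)) :=
    Poly.pair (Poly.fst (Poly.fst Poly.id)) (Poly.pair (Poly.snd (Poly.fst Poly.id))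
      (Poly.snd Poly.id))
  have k1 := OP.graph (OP.compp (osearch Q W C A) h1)
  have c2 : Poly (fun y : ((Ctx × List ℕ) × ℕ) × List ℕ => y.1.1.1) :=
    Poly.fst (Poly.fst (Poly.fst Poly.id))
  have b2 : Poly (fun y : ((Ctx × List ℕ) × ℕ) × List ℕ => y.1.1.2) :=
    Poly.snd (Poly.fst (Poly.fst Poly.id))
  have v2 : Poly (fun y : ((Ctx × List ℕ) × ℕ) × List ℕ => y.1.2) :=
    Poly.snd (Poly.fst Poly.id)
  have hN := pNOf c2
  have hi : UPoly (fun y : ((Ctx × List ℕ) × ℕ) × List ℕ => NOf y.1.1.1 - y.1.1.2.length) :=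
    UPoly.of_le (Poly.sub hN.toPoly (Poly.length b2)) hN (fun y => Nat.sub_le _ _)
  have h2 := pokA c2 hN (Poly.snd Poly.id) hi v2
  have k2 := OP.pcomp h2 k1
  have k3 := OP.filter (p := fun (y : Ctx × List ℕ) v =>
    okA (gX y.1) (NOf y.1) (search (acc A Q W C y.1) (NOf y.1) y.2 (NOf y.1 - y.2.length) v)
      (NOf y.1 - y.2.length) v) (pNOf h0).range k2
  exact k3

theorem onxt : OP A (fun y : Ctx × List ℕ => nxt (acc A Q W C y.1) (gX y.1) (NOf y.1) y.2) := by
  have h1 : Poly (fun y : (Ctx × List ℕ) × List ℕ =>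
      y.2.length * y.1.2.getD (y.1.2.length - 1) 1) :=
    Poly.mul (Poly.length (Poly.snd Poly.id)) (Poly.getD (Poly.snd (Poly.fst Poly.id))
      (Poly.sub (Poly.length (Poly.snd (Poly.fst Poly.id))) (NPC.Poly.const 1))
      (NPC.Poly.const 1))
  have k1 := OP.pcomp h1 (OP.graph (oorbs Q W C A))
  exact k1

theorem ostp : OP A (fun y : Ctx × List ℕ => stp (acc A Q W C y.1) (gX y.1) (NOf y.1) y.2) := by
  have h1 : Poly (fun y : (Ctx × List ℕ) × ℕ => y.1.2 ++ [y.2]) :=
    Poly.append (Poly.snd (Poly.fst Poly.id)) (Poly.cons (Poly.snd Poly.id)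
      (NPC.Poly.const []))
  have k1 := OP.pcomp h1 (OP.graph (onxt Q W C A))
  exact k1

end

theorem stp_le (f : List ℕ → List ℕ → ℕ → Bool) (g : ℕ → ℕ → List Bool) (N : ℕ) : ∀ k : ℕ,
    ∀ x ∈ (stp f g N)^[k] [1], x ≤ (N + 1) ^ k := by
  intro k
  induction k with
  | zero => intro x hx; exact (List.mem_singleton.1 hx).le
  | succ k ih =>
    intro x hx
    rw [Function.iterate_succ_apply', stp, List.mem_append, List.mem_singleton] at hx
    have h1 : (N + 1) ^ k ≤ (N + 1) ^ (k + 1) := Nat.pow_le_pow_right (by omega) (by omega)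
    rcases hx with hx | rfl
    · exact (ih x hx).trans h1
    · unfold nxt
      have h2 : (orbs f g N ((stp f g N)^[k] [1])).length ≤ N := by
        unfold orbs
        exact (List.length_filter_le _ _).trans (List.length_range).le
      have h3 : ((stp f g N)^[k] [1]).getD (((stp f g N)^[k] [1]).length - 1) 1 ≤
          (N + 1) ^ k := by
        have hl := stp_length (acc := f) (g := g) (N := N) k
        rw [List.getD_eq_getElem _ _ (by omega)]
        exact ih _ (List.getElem_mem _)
      rw [pow_succ, mul_comm]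
      exact Nat.mul_le_mul h3 (by omega)

theorem sz_stp_iterate (f : List ℕ → List ℕ → ℕ → Bool) (g : ℕ → ℕ → List Bool) (N k : ℕ)
    (hk : k ≤ N) : sz ((stp f g N)^[k] [1]) ≤ (N + 1) * (4 * ((N + 1) * N + 1) + 2) + 1 := by
  have h1 := sz_le_length_mul ((stp f g N)^[k] [1]) (4 * ((N + 1) * N + 1) + 1) (by
    intro x hx
    apply sz_le_of_lt_pow
    have h2 := stp_le f g N k x hx
    have h3 : (N + 1) ^ k ≤ (N + 1) ^ N := Nat.pow_le_pow_right (by omega) hk
    have h4 : (N + 1) ^ N ≤ (2 ^ (N + 1)) ^ N := Nat.pow_le_pow_left Nat.lt_two_pow_self.le N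
    rw [← pow_mul] at h4
    exact lt_of_le_of_lt (h2.trans (h3.trans h4))
      (Nat.pow_lt_pow_right (by norm_num) (Nat.lt_succ_self _)))
  rw [stp_length] at h1
  refine h1.trans (Nat.add_le_add_right (Nat.mul_le_mul (by omega) (by omega)) 1)

section

variable (Q W : Polynomial ℕ) (C : ℕ) (A : Oracle)

theorem obsX : OP A (fun c : Ctx => bsX A Q W C c) := by
  have hN : UPoly (fun c : Ctx => NOf c) := pNOf Poly.id
  have hn : UPoly (fun c : Ctx => NOf c - 1) :=
    UPoly.of_le (Poly.sub hN.toPoly (NPC.Poly.const 1)) hN (fun y => Nat.sub_le _ _)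
  obtain ⟨u, hu⟩ := UPoly.bound hN
  have k0 : OP A (fun _ : Ctx => [1]) := OP.const [1]
  have k1 := OP.iter (F := fun (c : Ctx) bs => stp (acc A Q W C c) (gX c) (NOf c) bs) hn k0
    (ostp Q W C A) ((u + 1) * (4 * ((u + 1) * u + 1) + 2) + 1) (by
      intro c k hk
      have e1 := hu c
      refine (sz_stp_iterate _ _ _ k (by omega)).trans ?_
      simp only [Polynomial.eval_add, Polynomial.eval_mul, Polynomial.eval_ofNat,
        Polynomial.eval_one]
      refine Nat.add_le_add_right (Nat.mul_le_mul (by omega) ?_) 1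
      have e2 : (NOf c + 1) * NOf c ≤ (u.eval (sz c) + 1) * u.eval (sz c) :=
        Nat.mul_le_mul (by omega) e1
      omega)
  exact k1

theorem oresX : OP A (fun c : Ctx => resX A Q W C c) := by
  have kb := OP.graph (obsX Q W C A)
  -- the orbit of the first element
  have k1 := OP.comp (oorbs Q W C A) kb
  have k2 := OP.comp (onxt Q W C A) kb
  have h1 : Poly (fun y : Ctx × List ℕ => y.2.any fun v => decide (nOf y.1 ≤ v)) :=
    Poly.any (p := fun (y : Ctx × List ℕ) v => decide (nOf y.1 ≤ v)) (Poly.snd Poly.id)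
      (Poly.decide_le (pnOf (Poly.fst (Poly.fst Poly.id))).toPoly (Poly.snd Poly.id))
  have k3 := OP.pcomp h1 (OP.graph k1)
  have h2 : Poly (fun y : ℕ => 3 * y ^ 2) := by
    have h3 : Poly (fun y : ℕ => y ^ 2) := (Poly.mul Poly.id Poly.id).congr fun y => (sq _).symm
    exact Poly.mul (NPC.Poly.const 3) h3
  have k4 := OP.pcomp h2 k2
  have k5 := oacc Q W C A OP.id (OP.const []) (OP.const []) k4
  have h4 : Poly (fun y : Bool × Bool => if y.1 = true then [true] else
      if y.2 = true then [false] else ([] : List Bool)) :=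
    Poly.ite (Poly.decide_bool (Poly.fst Poly.id)) (NPC.Poly.const _)
      (Poly.ite (Poly.decide_bool (Poly.snd Poly.id)) (NPC.Poly.const _) (NPC.Poly.const _))
  have k6 := OP.pcomp h4 (OP.pair k3 k5)
  exact k6

theorem oalgG : OP A (fun c : Ctx => algG A Q W C c) := by
  have hd : Poly (fun c : Ctx => decG c.2) := pdecG (Poly.snd Poly.id)
  have h1 : Poly (fun c : Ctx =>
      decide ((unbits (List (List Bool) × List (List Bool)) c.2).isNone = true)) := by
    refine Poly.decide_bool ((Poly.optCases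
      (o := fun c : Ctx => unbits (List (List Bool) × List (List Bool)) c.2)
      (g := fun _ => true) (h := fun _ _ => false) (poly_unbits.comp (Poly.snd Poly.id))
      (NPC.Poly.const _) (NPC.Poly.const _)).congr fun c => ?_)
    cases unbits (List (List Bool) × List (List Bool)) c.2 <;> rfl
  have h2 : Poly (fun c : Ctx => decide ((okG (decG c.2).1 && okG (decG c.2).2) = false)) :=
    Poly.decide_eq (Poly.and (pokG (Poly.fst hd)) (pokG (Poly.snd hd))) (NPC.Poly.const _)
  have h3 : Poly (fun c : Ctx => decide ((decG c.2).1.length ≠ (decG c.2).2.length)) :=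
    Poly.decide_not (Poly.decide_eq (Poly.length (Poly.fst hd)) (Poly.length (Poly.snd hd)))
  have h4 : Poly (fun c : Ctx => decide ((decG c.2).1.length = 0)) :=
    Poly.decide_eq (Poly.length (Poly.fst hd)) (NPC.Poly.const 0)
  have k1 := OP.ite (OP.of_poly h1) (OP.const [false]) (OP.ite (OP.of_poly h2)
    (OP.const [false]) (OP.ite (OP.of_poly h3) (OP.const [false]) (OP.ite (OP.of_poly h4)
      (OP.const [true]) (oresX Q W C A))))
  exact k1

end

/-- from typed to raw functions -/
theorem OP.toFP {A : Oracle} {f : List Bool → List Bool} (hf : OP A f) : IsFP A f := by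
  obtain ⟨F, h1, h2⟩ := hf
  have p1 : Poly (fun y : List Bool => match unbits (List Bool) y with
      | none => ([] : List Bool) | some z => z) :=
    (Poly.optCases (o := fun y : List Bool => unbits (List Bool) y)
      (g := fun _ => ([] : List Bool)) (h := fun _ z => z)
      poly_unbits (NPC.Poly.const _) (Poly.snd Poly.id)).congr fun y => by
        cases unbits (List Bool) y <;> rfl
  have h3 := H620R2.Gauge.IsFP.comp (H620R2.Gauge.IsFP.of_poly (A := A) p1)
    (H620R2.Gauge.IsFP.comp h1 (H620R2.Gauge.IsFP.of_poly (A := A)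
      (F := fun z : List Bool => bits z) poly_bits))
  have h4 : (fun x => match unbits (List Bool) (F (bits x)) with
      | none => ([] : List Bool) | some z => z) = f := by
    funext x
    rw [h2, unbits_bits]
  rw [← h4]
  exact h3

/-- the algorithm is computable in polynomial time relative to the oracle -/
theorem isFP_algG (Q W : Polynomial ℕ) (C : ℕ) (A : Oracle) :
    IsFP A (fun z => algG A Q W C (unpair z)) := by
  have h := OP.compp (oalgG Q W C A) poly_unpair
  exact OP.toFP h

end Pool.Agent.TH677.GI
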