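import Pool.Agent.TH677.GI.Lib

/-!
# The strings made from structures with many automorphisms have small KT complexity
-/

set_option autoImplicit false
set_option linter.unusedVariables false

namespace Pool.Agent.TH677.GI

open Pool.Agent.NPC Pool.Agent.H622R2 Pool.Agent.TH677.GA

/-- the parameters in the header: the structure, its orbits, the number of arrangements in a
block (in unary), the hash function, the number of blocks, the lower bound for the number of
automorphisms -/
abbrev Params : Type := SArg × List (List Bool) × List Bool × List Bool × ℕ × ℕ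

/-- decoding of the header -/
def getP (h : List Bool) : Params :=
  match unbits Params h with
  | some θ => θ
  | none => ((([], []), ([], [])), [], [], [], 0, 0)

theorem getP_bits (θ : Params) : getP (bits θ) = θ := by
  unfold getP
  rw [unbits_bits]

theorem pgetP {α : Type} [TEnc α] {h : α → List Bool} (hh : Poly h) :
    Poly (fun a => getP (h a)) := by
  refine (Poly.optCases (o := fun a => unbits Params (h a))
    (g := fun _ => (((([], []), ([], [])), [], [], [], 0, 0) : Params)) (h := fun _ θ => θ)
    (poly_unbits.comp hh) (NPC.Poly.const _) (Poly.snd Poly.id)).congr fun a => ?_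
  unfold getP
  cases unbits Params (h a) <;> rfl

/-- the number of elements of the structure -/
def mOf (θ : Params) : ℕ := 2 * (2 * θ.1.1.1.length)

/-- the width of the entries -/
def kOf (θ : Params) : ℕ := 2 * θ.1.1.1.length + 3

/-- the number of bits per block -/
def bOf (θ : Params) : ℕ := beta (mOf θ) θ.2.2.1.length θ.2.2.2.2.2

/-- where the data of the block are -/
def offF (y : List Bool × List Bool) : ℕ :=
  (inPos y.2 - (getP y.1).2.2.2.1.length) / (bOf (getP y.1) + 1) * bOf (getP y.1)

/-- their length -/
def lenF (y : List Bool × List Bool) : ℕ := bOf (getP y.1)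

/-- the symbol at position `i` of the string with parameters `θ`, when `c` are the data of its
block -/
def symF (θ : Params) (i : ℕ) (c : List Bool) : Option Bool :=
  if i < θ.2.2.2.1.length then θ.2.2.2.1[i]?
  else if (i - θ.2.2.2.1.length) / (bOf θ + 1) < θ.2.2.2.2.1 then
    (hash (blen (mOf θ) (kOf θ) θ.2.2.1.length) (bOf θ + 1) θ.2.2.2.1
      (blkCode (entB θ.1) (entry θ.2.1) (mOf θ) θ.2.2.1.length (valB c)))[
        (i - θ.2.2.2.1.length) % (bOf θ + 1)]?
  else none

/-- the verdict -/
def verF (y : List Bool × List Bool × List Bool) : Bool :=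
  decide (symF (getP y.1) (inPos y.2.1) y.2.2 = inSym y.2.1)

section

variable {α : Type} [TEnc α] {θ : α → Params}

theorem pmOf (h : Poly θ) : UPoly (fun a => mOf (θ a)) :=
  p2 (p2 (UPoly.length (Poly.fst (Poly.fst (Poly.fst h)))))

theorem pkOf (h : Poly θ) : UPoly (fun a => kOf (θ a)) :=
  UPoly.add (p2 (UPoly.length (Poly.fst (Poly.fst (Poly.fst h))))) (UPoly.const 3)

theorem pbOf (h : Poly θ) : UPoly (fun a => bOf (θ a)) :=
  pbeta (pmOf h) (UPoly.length (Poly.fst (Poly.snd (Poly.snd h))))
    (Poly.snd (Poly.snd (Poly.snd (Poly.snd (Poly.snd h)))))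

theorem psymF {i : α → ℕ} {c : α → List Bool} (h : Poly θ) (hi : Poly i) (hc : Poly c) :
    Poly (fun a => symF (θ a) (i a) (c a)) := by
  have hs : Poly (fun a => (θ a).2.2.2.1) := Poly.fst (Poly.snd (Poly.snd (Poly.snd h)))
  have hb : UPoly (fun a => (θ a).2.2.1.length) :=
    UPoly.length (Poly.fst (Poly.snd (Poly.snd h)))
  have hB : UPoly (fun a => bOf (θ a) + 1) := UPoly.add (pbOf h) (UPoly.const 1)
  have ht : Poly (fun a => i a - (θ a).2.2.2.1.length) := Poly.sub hi (Poly.length hs)
  unfold symF
  refine Poly.ite (Poly.decide_lt hi (Poly.length hs)) (Poly.getElem? hs hi)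
    (Poly.ite (Poly.decide_lt (Poly.div ht hB.toPoly)
      (Poly.fst (Poly.snd (Poly.snd (Poly.snd (Poly.snd h)))))) ?_ (NPC.Poly.const none))
  refine Poly.getElem? ?_ (Poly.mod ht hB.toPoly)
  exact phash (pblen (pmOf h) (pkOf h) hb).toPoly hB hs
    (pblkCode (Poly.fst h) (Poly.fst (Poly.snd h)) (pmOf h) hb (Poly.valBits hc))

end

theorem poly_offF : Poly offF := by
  have h1 : Poly (fun y : List Bool × List Bool => getP y.1) := pgetP (Poly.fst Poly.id)
  have h2 : Poly (fun y : List Bool × List Bool => inPos y.2) := pinPos (Poly.snd Poly.id)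
  have h3 := (pbOf h1).toPoly
  exact Poly.mul (Poly.div (Poly.sub h2 (Poly.length (Poly.fst (Poly.snd (Poly.snd
    (Poly.snd h1)))))) (Poly.succ h3)) h3

theorem upoly_lenF : UPoly lenF := pbOf (pgetP (Poly.fst Poly.id))

theorem poly_verF : Poly verF := by
  have h1 : Poly (fun y : List Bool × List Bool × List Bool => getP y.1) :=
    pgetP (Poly.fst Poly.id)
  have hx : Poly (fun y : List Bool × List Bool × List Bool => y.2.1) :=
    Poly.fst (Poly.snd Poly.id)
  exact Poly.decide_eq (psymF h1 (pinPos hx) (Poly.snd (Poly.snd Poly.id))) (pinSym hx)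

/-! ### the data -/

/-- the orbits as a matrix given by its rows -/
noncomputable def omOf (e : ℕ → ℕ → List Bool) (m : ℕ) : List (List Bool) :=
  (List.range m).map fun i => (List.range m).map fun u => orbB e m i u

theorem getD_map_range {β : Type} (f : ℕ → β) (d : β) (m i : ℕ) :
    ((List.range m).map f).getD i d = if i < m then f i else d := by
  by_cases h : i < m
  · rw [if_pos h, List.getD_eq_getElem _ _ (by simpa using h), List.getElem_map,
      List.getElem_range]
  · rw [if_neg h, List.getD_eq_default _ _ (by simpa using h)]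

theorem entry_omOf (e : ℕ → ℕ → List Bool) (m : ℕ) : entry (omOf e m) = orbB e m := by
  funext i u
  unfold entry omOf
  rw [getD_map_range]
  by_cases hi : i < m
  · rw [if_pos hi, getD_map_range]
    by_cases hu : u < m
    · rw [if_pos hu]
    · rw [if_neg hu]
      symm
      rw [← Bool.not_eq_true, orbB_iff]
      exact fun h => hu h.lt
  · rw [if_neg hi]
    symm
    simp only [List.getD_nil]
    rw [← Bool.not_eq_true, orbB_iff]
    rintro ⟨h, _⟩
    exact hi h

theorem omOf_length (e : ℕ → ℕ → List Bool) (m : ℕ) : (omOf e m).length = m := by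
  simp [omOf]

theorem cnt_pow_le {e : ℕ → ℕ → List Bool} {m hi : ℕ} (h0 : 0 < hi) (h : hi ≤ autC e m)
    (b : ℕ) : cnt (orbB e m) m (List.range m) ^ b ≤ m.factorial ^ b / hi ^ b := by
  rw [Nat.le_div_iff_mul_le (pow_pos h0 b), ← mul_pow, ← autC_mul_cnt e m]
  refine Nat.pow_le_pow_left ?_ b
  rw [mul_comm]
  exact Nat.mul_le_mul_right _ h

/-- the parameters for the machine -/
noncomputable def prm (p : SArg) (b q hi : ℕ) (w : List Bool) : Params :=
  (p, omOf (entB p) (2 * (2 * p.1.1.length)), List.replicate b true,
    w.take (hlen (2 * (2 * p.1.1.length)) (2 * p.1.1.length + 3) b hi), q, hi)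

/-- the string of a trial for a structure with many automorphisms, as computed by the machine -/
theorem trial_sym {p : SArg} {hi : ℕ} (h0 : 0 < hi)
    (h : hi ≤ autC (entB p) (2 * (2 * p.1.1.length))) (b q : ℕ) (w : List Bool)
    (hw : tlen (2 * (2 * p.1.1.length)) (2 * p.1.1.length + 3) b q hi ≤ w.length) :
    ∃ e : List Bool, e.length = q * beta (2 * (2 * p.1.1.length)) b hi ∧
      ∀ i ≤ xlen (2 * (2 * p.1.1.length)) (2 * p.1.1.length + 3) b q hi, ∀ c,
        verF (bits (prm p b q hi w), inCode (i + 1) c,
          part e (offF (bits (prm p b q hi w), inCode (i + 1) c))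
            (lenF (bits (prm p b q hi w), inCode (i + 1) c))) =
        decide ((trial (entB p) (2 * (2 * p.1.1.length)) (2 * p.1.1.length + 3) b q hi w)[i]? =
          c) := by
  set θ := prm p b q hi w with hθ
  set m := 2 * (2 * p.1.1.length) with hm
  set k := 2 * p.1.1.length + 3 with hk
  set hs := w.take (hlen m k b hi) with hhs
  have hsl : hs.length = hlen m k b hi := by
    rw [hhs, List.length_take]
    unfold tlen at hw
    omega
  have hex : ∀ N, ∃ Y < m.factorial ^ b / hi ^ b,
      blkCode (entB p) (orbB (entB p) m) m b Y = blkAll (entB p) m b N := by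
    intro N
    obtain ⟨Y, h1, h2⟩ := exists_blkCode (entB p) m b N
    exact ⟨Y, h1.trans_le (cnt_pow_le h0 h b), h2⟩
  choose f hf1 hf2 using hex
  -- the chunks
  set ch : ℕ → List Bool := fun j => ((w.drop (hlen m k b hi)).drop (j * rnd m b)).take (rnd m b)
    with hch
  set N : ℕ → ℕ := fun j => f (valB (ch j) % m.factorial ^ b) with hN
  have hNl : ∀ j, (N j).bits.length ≤ beta m b hi := fun j => bits_length_mono (hf1 _).le
  have hdl : ∀ j, (encN (beta m b hi) (N j)).length = beta m b hi := fun j => encN_length (hNl j)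
  set g : ℕ → List Bool := fun j => hash (blen m k b) (beta m b hi + 1) hs
    (blkCode (entB p) (orbB (entB p) m) m b (N j)) with hg
  have hgl : ∀ j, (g j).length = beta m b hi + 1 := fun j => hash_length _ _ _ _
  have htr : trial (entB p) m k b q hi w = hs ++ (List.range q).flatMap g := by
    unfold trial
    rw [← hhs, blocks_eq_flatMap]
    congr 1
    apply List.flatMap_congr
    intro j _
    rw [hg]
    simp only
    rw [hN]
    simp only
    rw [hf2]
  have hmO : mOf θ = m := rfl
  have hkO : kOf θ = k := rfl
  have hbl : θ.2.2.1.length = b := by rw [hθ]; simp [prm]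
  have hhi : θ.2.2.2.2.2 = hi := rfl
  have hbO : bOf θ = beta m b hi := by unfold bOf; rw [hmO, hbl, hhi]
  refine ⟨(List.range q).flatMap fun j => encN (beta m b hi) (N j), ?_, fun i hi' c => ?_⟩
  · rw [flatMap_length _ _ hdl, List.length_range]
  · unfold verF offF lenF
    simp only [getP_bits, inPos_inCode, inSym_inCode]
    have hh : θ.2.2.2.1 = hs := rfl
    have hq : θ.2.2.2.2.1 = q := rfl
    have hO : entry θ.2.1 = orbB (entB p) m := entry_omOf (entB p) m
    have hp : θ.1 = p := rfl
    unfold symF
    rw [hh, hq, hmO, hkO, hbl, hbO, htr, hO, hp]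
    by_cases h1 : i < hs.length
    · rw [if_pos h1, List.getElem?_append_left h1]
    · rw [if_neg h1, List.getElem?_append_right (by omega)]
      set t := i - hs.length with ht
      have hdm : t / (beta m b hi + 1) * (beta m b hi + 1) + t % (beta m b hi + 1) = t :=
        Nat.div_add_mod' t (beta m b hi + 1)
      have hml : t % (beta m b hi + 1) < beta m b hi + 1 := Nat.mod_lt _ (Nat.succ_pos _)
      by_cases h2 : t / (beta m b hi + 1) < q
      · rw [if_pos h2, part_flatMap _ hdl h2, valB_encN]
        have h3 := flatMap_getElem? g hgl h2 hml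
        rw [hdm] at h3
        rw [h3]
      · rw [if_neg h2]
        have h3 : ((List.range q).flatMap g)[t]? = none := by
          rw [List.getElem?_eq_none]
          rw [flatMap_length _ _ hgl, List.length_range]
          have h4 : q * (beta m b hi + 1) ≤ t / (beta m b hi + 1) * (beta m b hi + 1) :=
            Nat.mul_le_mul_right _ (not_lt.1 h2)
          omega
        rw [h3]

/-- the upper bound for the KT complexity of the strings made from structures with many
automorphisms -/
theorem KT_trial {U : Machine} (hU : U.Universal) : ∃ P : Polynomial ℕ,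
    ∀ (p : SArg) (hi : ℕ), 0 < hi → hi ≤ autC (entB p) (2 * (2 * p.1.1.length)) →
      ∀ (b q : ℕ) (w : List Bool),
      tlen (2 * (2 * p.1.1.length)) (2 * p.1.1.length + 3) b q hi ≤ w.length →
      U.KT (trial (entB p) (2 * (2 * p.1.1.length)) (2 * p.1.1.length + 3) b q hi w) ≤
        ((q * beta (2 * (2 * p.1.1.length)) b hi +
          P.eval (sz (prm p b q hi w) +
            (xlen (2 * (2 * p.1.1.length)) (2 * p.1.1.length + 3) b q hi + 1).bits.length) :
              ℕ) : ℕ∞) := by
  obtain ⟨P, hP⟩ := KT_le hU poly_offF upoly_lenF poly_verF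
  refine ⟨2 * Polynomial.X + P, fun p hi h0 h b q w hw => ?_⟩
  obtain ⟨e, he, hsym⟩ := trial_sym h0 h b q w hw
  have hxl := trial_length (entB p) _ _ b q hi w hw
  have h1 := hP (bits (prm p b q hi w)) e
    (trial (entB p) (2 * (2 * p.1.1.length)) (2 * p.1.1.length + 3) b q hi w) (by
      rw [hxl]
      exact hsym)
  refine h1.trans ?_
  rw [Nat.cast_le, hxl, he, bits_length]
  simp only [Polynomial.eval_add, Polynomial.eval_mul, Polynomial.eval_ofNat,
    Polynomial.eval_X]
  omega

end Pool.Agent.TH677.GI
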