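import Pool.Agent.TH677.GI.Norm
import Pool.Agent.TH677.GA.Blk

/-!
# Blocks of codes of a structure
-/

set_option autoImplicit false
set_option linter.unusedVariables false

namespace Pool.Agent.TH677.GI

open Finset Pool.Agent.TH677.GA Pool.Agent.NPC

/-- arrangements given by a number with the radix `C` -/
def blkU (O : ℕ → ℕ → Bool) (m C : ℕ) : ℕ → ℕ → List (List ℕ)
  | 0, _ => []
  | b + 1, Y => unr O m m (List.range m) (Y % C) :: blkU O m C b (Y / C)

/-- the codes of `b` arrangements given by the number `Y` -/
def blkCode (e : ℕ → ℕ → List Bool) (O : ℕ → ℕ → Bool) (m b Y : ℕ) : List Bool :=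
  (blkU O m (cnt O m (List.range m)) b Y).flatMap (mat e)

theorem cnt_pos (e : ℕ → ℕ → List Bool) (m : ℕ) : 0 < cnt (orbB e m) m (List.range m) := by
  rcases Nat.eq_zero_or_pos (cnt (orbB e m) m (List.range m)) with h | h
  · have h1 := autC_mul_cnt e m
    rw [h, Nat.mul_zero] at h1
    exact absurd h1.symm (Nat.factorial_ne_zero m)
  · exact h

theorem autC_pos (e : ℕ → ℕ → List Bool) (m : ℕ) : 0 < autC e m := autF_card_pos e m 0

theorem autC_le (e : ℕ → ℕ → List Bool) (m : ℕ) : autC e m ≤ m.factorial := by
  rw [← autC_mul_cnt e m]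
  exact Nat.le_mul_of_pos_right _ (cnt_pos e m)

/-- every block has a code -/
theorem exists_blkCode (e : ℕ → ℕ → List Bool) (m b N : ℕ) :
    ∃ Y < cnt (orbB e m) m (List.range m) ^ b,
      blkCode e (orbB e m) m b Y = blkAll e m b N := by
  set C := cnt (orbB e m) m (List.range m) with hC
  have hC0 : 0 < C := cnt_pos e m
  have key : ∀ Ls : List (List ℕ), (∀ L ∈ Ls, Arrg m L) →
      ∃ Y < C ^ Ls.length, (blkU (orbB e m) m C Ls.length Y).flatMap (mat e) =
        Ls.flatMap (mat e) := by
    intro Ls
    induction Ls with
    | nil => intro _; exact ⟨0, by simp, rfl⟩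
    | cons L Ls ih =>
      intro h
      obtain ⟨Y, h1, h2⟩ := ih (fun L' h' => h L' (List.mem_cons_of_mem _ h'))
      obtain ⟨y, h3, h4⟩ := exists_unr (e := e) (h L (by simp))
      refine ⟨y + C * Y, ?_, ?_⟩
      · rw [List.length_cons, pow_succ]
        calc y + C * Y < C + C * Y := Nat.add_lt_add_right h3 _
          _ = (Y + 1) * C := by ring
          _ ≤ C ^ Ls.length * C := Nat.mul_le_mul_right _ h1
      · rw [List.length_cons, blkU, List.flatMap_cons, List.flatMap_cons,
          Nat.add_mul_mod_self_left, Nat.mod_eq_of_lt h3, h4, Nat.add_mul_div_left _ _ hC0,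
          Nat.div_eq_of_lt h3, Nat.zero_add, h2]
  have hn : (List.range m ++ []).Nodup := by simpa using List.nodup_range
  obtain ⟨Y, h1, h2⟩ := key (blk (List.range m) [] b N)
    (fun L hL => valid_range_iff.1 (mem_blk hn b N L hL))
  rw [blk_length] at h1 h2
  exact ⟨Y, h1, h2⟩

/-- arrangements with the same code differ by an automorphism -/
theorem exists_aut_of_mat {m k : ℕ} {L L' : List ℕ} {e : ℕ → ℕ → List Bool}
    (he : ∀ s t, (e s t).length = k) (h : Arrg m L) (h' : Arrg m L')
    (hm : mat e L = mat e L') :
    ∃ σ : Equiv.Perm (Fin m), AutE e m σ ∧ L.map (act σ) = L' := by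
  have hl := h.length
  have hl' := h'.length
  have h1 : L.map (fun s => L.flatMap fun t => e s t) =
      L'.map (fun s => L'.flatMap fun t => e s t) :=
    flatMap_inj (k := m * k) L L' _ _ (hl.trans hl'.symm)
      (fun s => by rw [flatMap_length _ _ (fun t => he s t), hl])
      (fun s => by rw [flatMap_length _ _ (fun t => he s t), hl']) hm
  have h2 : ∀ (i j : ℕ) (hi : i < m) (hj : j < m),
      e (L[i]'(by omega)) (L[j]'(by omega)) = e (L'[i]'(by omega)) (L'[j]'(by omega)) := by
    intro i j hi hj
    have h3 := congrArg (fun l => l[i]?) h1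
    simp only [List.getElem?_map] at h3
    rw [List.getElem?_eq_getElem (by omega), List.getElem?_eq_getElem (by omega)] at h3
    simp only [Option.map_some, Option.some.injEq] at h3
    have h4 := flatMap_inj (k := k) L L' _ _ (hl.trans hl'.symm) (fun t => he _ t)
      (fun t => he _ t) h3
    have h5 := congrArg (fun l => l[j]?) h4
    simp only [List.getElem?_map] at h5
    rw [List.getElem?_eq_getElem (by omega), List.getElem?_eq_getElem (by omega)] at h5
    simpa using h5
  have hidx : ∀ s < m, L.idxOf s < m := fun s hs => by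
    have := List.idxOf_lt_length_of_mem ((h.2 s).2 hs)
    omega
  set p : ℕ → ℕ := fun s => L'.getD (L.idxOf s) 0 with hp
  have hpv : ∀ s (hs : s < m), p s = L'[L.idxOf s]'(by rw [hl']; exact hidx s hs) := by
    intro s hs
    rw [hp]
    simp only
    rw [List.getD_eq_getElem]
  have haut : IsAut e m p := by
    refine ⟨fun s hs => ?_, fun s hs t ht hst => ?_, fun s hs t ht => ?_⟩
    · rw [hpv s hs]
      exact (h'.2 _).1 (List.getElem_mem _)
    · rw [hpv s hs, hpv t ht] at hst
      have h6 := (h'.1.getElem_inj_iff).1 hst
      exact (List.idxOf_inj ((h.2 s).2 hs)).1 h6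
    · rw [hpv s hs, hpv t ht, ← h2 _ _ (hidx s hs) (hidx t ht)]
      rw [List.getElem_idxOf, List.getElem_idxOf]
  obtain ⟨σ, h6, h7⟩ := exists_autE haut
  refine ⟨σ, h6, ?_⟩
  apply List.ext_getElem (by rw [List.length_map, hl, hl'])
  intro i hi hi'
  rw [List.length_map] at hi
  have h8 : L[i] < m := (h.2 _).1 (List.getElem_mem _)
  rw [List.getElem_map, act_lt σ h8, h7 ⟨L[i], h8⟩, hpv _ h8]
  simp only [h.1.idxOf_getElem]

/-! ### counting the numbers with the same block -/

theorem arr_mod (xs : List ℕ) : ∀ (base : List ℕ) (N : ℕ),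
    (arr xs base (N % radix xs.length base.length)).2 = (arr xs base N).2 := by
  induction xs with
  | nil => intro base N; rfl
  | cons x xs ih =>
    intro base N
    rw [arr_cons, arr_cons]
    have h1 : radix (x :: xs).length base.length =
        (base.length + 1) * radix xs.length (base.length + 1) := rfl
    rw [h1, Nat.mod_mul_right_mod, Nat.mod_mul_right_div_self]
    have h2 := ih (ins (N % (base.length + 1)) x base) (N / (base.length + 1))
    rw [ins_length] at h2
    exact h2

theorem radix_range (m : ℕ) : radix (List.range m).length ([] : List ℕ).length = m.factorial := by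
  simp [radix_zero]

theorem arrg_arr (m N : ℕ) : Arrg m (arr (List.range m) [] N).2 :=
  valid_range_iff.1 (arr_valid _ _ _ (by simpa using List.nodup_range))

/-- few arrangements have a given code -/
theorem card_arr_le {e : ℕ → ℕ → List Bool} {k : ℕ} (he : ∀ s t, (e s t).length = k)
    (m : ℕ) (X : List Bool) :
    ((range m.factorial).filter fun z => mat e (arr (List.range m) [] z).2 = X).card ≤
      autC e m := by
  classical
  rcases ((range m.factorial).filter
    fun z => mat e (arr (List.range m) [] z).2 = X).eq_empty_or_nonempty with h | ⟨z₀, hz₀⟩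
  · rw [h]; simp
  rw [mem_filter, mem_range] at hz₀
  have hex : ∀ z ∈ (range m.factorial).filter
      (fun z => mat e (arr (List.range m) [] z).2 = X), ∃ σ : Equiv.Perm (Fin m),
      AutE e m σ ∧ (arr (List.range m) [] z₀).2.map (act σ) = (arr (List.range m) [] z).2 := by
    intro z hz
    rw [mem_filter] at hz
    exact exists_aut_of_mat he (arrg_arr m z₀) (arrg_arr m z) (hz₀.2.trans hz.2.symm)
  choose! f hf1 hf2 using hex
  unfold autC
  apply card_le_card_of_injOn f
  · intro z hz
    rw [mem_coe] at hz ⊢
    exact mem_autF.2 ⟨hf1 z hz, fun c hc => absurd hc (Nat.not_lt_zero _)⟩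
  · intro z hz z' hz' hzz
    rw [mem_coe] at hz hz'
    have h1 := hf2 z hz
    rw [hzz, hf2 z' hz'] at h1
    rw [mem_filter, mem_range] at hz hz'
    refine (arr_inj (List.range m) [] z z' (by simpa using List.nodup_range)
      (Prod.ext ?_ h1.symm))
    rw [arr_fst, arr_fst, radix_range, Nat.div_eq_of_lt hz.1, Nat.div_eq_of_lt hz'.1]

theorem blkAll_succ (e : ℕ → ℕ → List Bool) (m b N : ℕ) :
    blkAll e m (b + 1) N = mat e (arr (List.range m) [] (N % m.factorial)).2 ++
      blkAll e m b (N / m.factorial) := by
  unfold blkAll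
  rw [blk, List.flatMap_cons, arr_fst, radix_range]
  congr 2
  have h := arr_mod (List.range m) [] N
  rw [radix_range] at h
  exact h.symm

/-- few numbers give a given block -/
theorem card_blkAll_le {e : ℕ → ℕ → List Bool} {k : ℕ} (he : ∀ s t, (e s t).length = k)
    (m : ℕ) : ∀ (b : ℕ) (X : List Bool),
    ((range (m.factorial ^ b)).filter fun N => blkAll e m b N = X).card ≤ autC e m ^ b := by
  intro b
  induction b with
  | zero =>
    intro X
    refine (card_filter_le _ _).trans ?_
    simp
  | succ b ih =>
    intro X
    set l := m * (m * k) with hl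
    have hM : 0 < m.factorial := Nat.factorial_pos m
    calc ((range (m.factorial ^ (b + 1))).filter fun N => blkAll e m (b + 1) N = X).card
        ≤ (((range m.factorial).filter fun z =>
            mat e (arr (List.range m) [] z).2 = X.take l) ×ˢ
          ((range (m.factorial ^ b)).filter fun N => blkAll e m b N = X.drop l)).card := by
          apply card_le_card_of_injOn (fun N => (N % m.factorial, N / m.factorial))
          · intro N hN
            rw [mem_coe, mem_filter, mem_range] at hN
            rw [mem_coe, mem_product, mem_filter, mem_filter, mem_range, mem_range]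
            simp only
            have h1 := hN.2
            rw [blkAll_succ] at h1
            have h2 : (mat e (arr (List.range m) [] (N % m.factorial)).2).length = l := by
              rw [mat_length he, (arrg_arr m _).length]
            refine ⟨⟨Nat.mod_lt _ hM, ?_⟩, ?_, ?_⟩
            · rw [← h1, List.take_left' h2]
            · rw [Nat.div_lt_iff_lt_mul hM, ← pow_succ]
              exact hN.1
            · rw [← h1, List.drop_left' h2]
          · intro N _ N' _ h
            simp only [Prod.mk.injEq] at h
            rw [← Nat.div_add_mod N m.factorial, ← Nat.div_add_mod N' m.factorial, h.1, h.2]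
      _ ≤ autC e m * autC e m ^ b := by
          rw [card_product]
          exact Nat.mul_le_mul (card_arr_le he m _) (ih _)
      _ = autC e m ^ (b + 1) := by ring

/-- the collision bound -/
theorem collision_le' {e : ℕ → ℕ → List Bool} {k m b s : ℕ} (he : ∀ s t, (e s t).length = k)
    (hs : m.factorial ^ b ≤ 2 ^ s) :
    (∑ v ∈ Bits s, ∑ v' ∈ Bits s, (if blkAll e m b (valB v % m.factorial ^ b) =
      blkAll e m b (valB v' % m.factorial ^ b) then (1 : ℝ) else 0)) / (2 ^ s * 2 ^ s) ≤
      2 * (autC e m : ℝ) ^ b / (m.factorial ^ b : ℕ) := by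
  set M := m.factorial ^ b with hM
  have hM0 : 0 < M := pow_pos (Nat.factorial_pos m) b
  have hM1 : (0 : ℝ) < M := by exact_mod_cast hM0
  have h1 : ∀ v ∈ Bits s, ∑ v' ∈ Bits s, (if blkAll e m b (valB v % M) =
      blkAll e m b (valB v' % M) then (1 : ℝ) else 0) ≤ 2 * 2 ^ s / M * (autC e m : ℝ) ^ b := by
    intro v _
    set X := blkAll e m b (valB v % M) with hX
    rw [sum_Bits_val s (fun k => if X = blkAll e m b (k % M) then (1 : ℝ) else 0)]
    rw [Finset.sum_boole]
    have h3 : ((Finset.range (2 ^ s)).filter (fun k => X = blkAll e m b (k % M))).card ≤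
        (2 ^ s / M + 1) * autC e m ^ b := by
      calc ((Finset.range (2 ^ s)).filter (fun k => X = blkAll e m b (k % M))).card
          ≤ ((Finset.range (2 ^ s / M + 1)) ×ˢ
            ((Finset.range M).filter fun N => blkAll e m b N = X)).card := by
            apply Finset.card_le_card_of_injOn (fun k => (k / M, k % M))
            · intro k hk
              rw [mem_coe, mem_filter, mem_range] at hk
              rw [mem_coe, mem_product, mem_filter, mem_range, mem_range]
              exact ⟨Nat.lt_succ_of_le (Nat.div_le_div_right hk.1.le), Nat.mod_lt _ hM0,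
                hk.2.symm⟩
            · intro k _ k' _ h
              simp only [Prod.mk.injEq] at h
              rw [← Nat.div_add_mod k M, ← Nat.div_add_mod k' M, h.1, h.2]
        _ ≤ (2 ^ s / M + 1) * autC e m ^ b := by
            rw [card_product, card_range]
            exact Nat.mul_le_mul_left _ (card_blkAll_le he m b X)
    have h5 : (((Finset.range (2 ^ s)).filter (fun k => X = blkAll e m b (k % M))).card : ℝ) ≤
        ((2 ^ s / M + 1) * autC e m ^ b : ℕ) := by exact_mod_cast h3
    refine h5.trans ?_
    push_cast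
    have h6 : ((2 ^ s / M : ℕ) : ℝ) ≤ (2 : ℝ) ^ s / M := by
      have := @Nat.cast_div_le ℝ _ _ _ (2 ^ s) M
      simpa using this
    have h7 : (1 : ℝ) ≤ 2 ^ s / M := by
      rw [le_div_iff₀ hM1, one_mul]
      exact_mod_cast hs
    have h8 : (2 : ℝ) * 2 ^ s / M = 2 ^ s / M + 2 ^ s / M := by ring
    exact mul_le_mul_of_nonneg_right (by linarith) (by positivity)
  refine (div_le_div_of_nonneg_right (Finset.sum_le_sum h1) (by positivity)).trans
    (le_of_eq ?_)
  rw [sum_Bits_const]
  field_simp

end Pool.Agent.TH677.GI
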