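import Pool.Agent.TH677.GI.Final

/-!
# Graph non-isomorphism has nondeterministic many-one reductions to dense sets without
compressible strings
-/

set_option autoImplicit false
set_option linter.unusedVariables false

namespace Pool.Agent.TH677.GI

open Pool.Agent.NPC Pool.Agent.H622R2 Pool.Agent.TH677.GA
open Pool.Agent.H620R2.Gauge (Oracle IsFP IsZPP)

/-- The language `L` is reducible to `A` by a nondeterministic polynomial-time many-one reduction:
`x` belongs to `L` if and only if for some guess `w` of polynomial length the polynomial-time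
algorithm `R` produces (after the letter `true`, which means that it does not reject) a string that
belongs to `A`. -/
def NPReduces (L : Set (List Bool)) (A : Oracle) : Prop :=
  ∃ (R : List Bool → List Bool) (p : Polynomial ℕ), PolyTime R ∧ ∀ x, x ∈ L ↔
    ∃ w y : List Bool, w.length ≤ p.eval x.length ∧ R (pairBits x w) = true :: y ∧ A y = true

/-- the sets in `NP` are closed under these reductions -/
theorem NPReduces.inNP {L : Set (List Bool)} {A : Oracle} (h : NPReduces L A)
    (hA : InNP {x | A x = true}) : InNP L := by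
  obtain ⟨R, p, hR, hRL⟩ := h
  obtain ⟨V, q, hV, hVA⟩ := hA
  have pR := poly_of_polyTime hR
  have pV := poly_of_polyTime hV
  obtain ⟨r, hr⟩ := pR.sz_le
  -- the certificate is a pair of a guess and of a certificate for the string asked about
  have hx : Poly (fun y : List Bool => (unpair y).1) := Poly.fst poly_unpair
  have hw : Poly (fun y : List Bool => (unpair (unpair y).2).1) :=
    Poly.fst (poly_unpair.comp (Poly.snd poly_unpair))
  have hz : Poly (fun y : List Bool => (unpair (unpair y).2).2) :=
    Poly.snd (poly_unpair.comp (Poly.snd poly_unpair))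
  have hRy : Poly (fun y : List Bool => R (pairBits (unpair y).1 (unpair (unpair y).2).1)) :=
    pR.comp (poly_pairBits hx hw)
  have hc1 : Poly (fun y : List Bool => decide ((unpair (unpair y).2).1.length ≤
      p.eval (unpair y).1.length)) :=
    Poly.decide_le (Poly.length hw) (UPoly.toPoly (UPoly.eval (UPoly.length hx) p))
  have hc2 : Poly (fun y : List Bool => decide ((unpair (unpair y).2).2.length ≤
      q.eval (R (pairBits (unpair y).1 (unpair (unpair y).2).1)).tail.length)) :=
    Poly.decide_le (Poly.length hz)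
      (UPoly.toPoly (UPoly.eval (UPoly.length (Poly.tail hRy)) q))
  have hc3 : Poly (fun y : List Bool =>
      decide ((R (pairBits (unpair y).1 (unpair (unpair y).2).1)).head? = some true)) :=
    Poly.decide_eq (Poly.head? hRy) (NPC.Poly.const _)
  have hV1 : Poly (fun y : List Bool =>
      V (pairBits (R (pairBits (unpair y).1 (unpair (unpair y).2).1)).tail
        (unpair (unpair y).2).2)) := pV.comp (poly_pairBits (Poly.tail hRy) hz)
  refine ⟨fun y => if (unpair (unpair y).2).1.length ≤ p.eval (unpair y).1.length ∧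
      ((unpair (unpair y).2).2.length ≤
        q.eval (R (pairBits (unpair y).1 (unpair (unpair y).2).1)).tail.length ∧
      (R (pairBits (unpair y).1 (unpair (unpair y).2).1)).head? = some true) then
      V (pairBits (R (pairBits (unpair y).1 (unpair (unpair y).2).1)).tail
        (unpair (unpair y).2).2) else [false],
    2 * p + q.comp (r.comp (4 * (2 * Polynomial.X + p + 1) + 1)) + 1,
    polyTime_of_poly_list (Poly.ite (Poly.decide_and hc1 (Poly.decide_and hc2 hc3)) hV1
      (NPC.Poly.const _)), fun x => ?_⟩
  rw [hRL]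
  constructor
  · rintro ⟨w, y, h1, h2, h3⟩
    obtain ⟨z, h4, h5⟩ := (hVA y).1 h3
    refine ⟨pairBits w z, ?_, ?_⟩
    · rw [H620R2.Gauge.A2.length_pairBits]
      have e1 := hr (pairBits x w)
      rw [h2] at e1
      have e2 := length_lt_sz (true :: y)
      have e3 := sz_listBool_le (pairBits x w)
      rw [H620R2.Gauge.A2.length_pairBits] at e3
      have e4 : y.length ≤ r.eval (4 * (2 * x.length + p.eval x.length + 1) + 1) := by
        have e5 : (true :: y).length ≤ r.eval (sz (pairBits x w)) := e2.le.trans e1
        rw [List.length_cons] at e5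
        refine (Nat.le_of_succ_le e5).trans (eval_mono r ?_)
        omega
      have e5 := eval_mono q e4
      simp only [Polynomial.eval_add, Polynomial.eval_mul, Polynomial.eval_comp,
        Polynomial.eval_ofNat, Polynomial.eval_X, Polynomial.eval_one]
      omega
    · simp only [unpair_pairBits]
      rw [h2]
      rw [if_pos ⟨h1, by simpa using h4, rfl⟩]
      exact h5
  · rintro ⟨v, -, h2⟩
    simp only [unpair_pairBits] at h2
    split_ifs at h2 with h3
    · obtain ⟨h4, h5, h6⟩ := h3
      cases hR' : R (pairBits x (unpair v).1) with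
      | nil => rw [hR'] at h6; simp at h6
      | cons c y =>
        rw [hR'] at h6 h2 h5
        simp only [List.head?_cons, Option.some.injEq] at h6
        subst h6
        refine ⟨(unpair v).1, y, h4, hR', ?_⟩
        exact (hVA y).2 ⟨(unpair v).2, h5, h2⟩
    · simp at h2

/-! ### the certificates -/

/-- the part of the orbit of `i` proved by the certificate -/
def certO (c : Ctx) (cs : List (List (List ℕ))) (i : ℕ) : List ℕ :=
  (List.range (NOf c)).filter fun v => (cs.getD i []).any fun L =>
    okA (gX c) (NOf c) L (min i (NOf c)) v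

/-- the number of automorphisms proved by the certificate -/
def certN (c : Ctx) (cs : List (List (List ℕ))) : ℕ :=
  ((List.range (NOf c)).map fun i => (certO c cs i).length).prod

/-- guesses: automorphisms, random bits, a string -/
abbrev Guess : Type := List (List (List ℕ)) × List Bool × List Bool

/-- the string asked about -/
noncomputable def certR (Q : Polynomial ℕ) (C : ℕ) (c : Ctx) (t : Guess) : List Bool :=
  if (unbits (List (List Bool) × List (List Bool)) c.2).isNone = true then true :: t.2.2
  else if (okG (decG c.2).1 && okG (decG c.2).2) = false then true :: t.2.2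
  else if (decG c.2).1.length ≠ (decG c.2).2.length then true :: t.2.2
  else if (decG c.2).1.length = 0 then []
  else if (certO c t.1 0).any (fun v => decide (nOf c ≤ v)) = true then []
  else if certN c t.1 = 0 then []
  else if t.2.1.length < rX Q C c then []
  else true :: trial (entB (decG c.2, ([], []))) (2 * NOf c) (NOf c + 3) (bX C c) (qX Q C c)
    (3 * certN c t.1 ^ 2) t.2.1

section

variable {α : Type} [TEnc α]

theorem pcertO {c : α → Ctx} {cs : α → List (List (List ℕ))} {i : α → ℕ} (hc : Poly c)
    (hcs : Poly cs) (hi : Poly i) : Poly (fun a => certO (c a) (cs a) (i a)) := by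
  have hN := pNOf hc
  have hm : UPoly (fun a => min (i a) (NOf (c a))) :=
    UPoly.of_le (Poly.min hi hN.toPoly) hN (fun a => min_le_right _ _)
  unfold certO
  refine Poly.filter (p := fun a v => ((cs a).getD (i a) []).any fun L =>
    okA (gX (c a)) (NOf (c a)) L (min (i a) (NOf (c a))) v) hN.range ?_
  refine Poly.any (p := fun (y : α × ℕ) L =>
    okA (gX (c y.1)) (NOf (c y.1)) L (min (i y.1) (NOf (c y.1))) y.2)
    (Poly.getD (g1 hcs) (g1 hi) (NPC.Poly.const [])) ?_
  exact pokA (g1 (g1 hc)) (gu1 (gu1 hN)) psnd (gu1 (gu1 hm)) (g1 psnd)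

theorem pcertN {c : α → Ctx} {cs : α → List (List (List ℕ))} (hc : Poly c) (hcs : Poly cs) :
    Poly (fun a => certN (c a) (cs a)) := by
  unfold certN
  exact pprod (NPC.Poly.map (F := fun a i => (certO (c a) (cs a) i).length) (pNOf hc).range
    (Poly.length (pcertO (g1 hc) (g1 hcs) psnd)))

variable (Q : Polynomial ℕ) (C : ℕ)

theorem pcertR {c : α → Ctx} {t : α → Guess} (hc : Poly c) (ht : Poly t) :
    Poly (fun a => certR Q C (c a) (t a)) := by
  have hd : Poly (fun a => decG (c a).2) := pdecG (Poly.snd hc)
  have h1 : Poly (fun a =>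
      decide ((unbits (List (List Bool) × List (List Bool)) (c a).2).isNone = true)) := by
    refine Poly.decide_bool ((Poly.optCases
      (o := fun a => unbits (List (List Bool) × List (List Bool)) (c a).2)
      (g := fun _ => true) (h := fun _ _ => false) (poly_unbits.comp (Poly.snd hc))
      (NPC.Poly.const _) (NPC.Poly.const _)).congr fun a => ?_)
    cases unbits (List (List Bool) × List (List Bool)) (c a).2 <;> rfl
  have h2 : Poly (fun a => decide ((okG (decG (c a).2).1 && okG (decG (c a).2).2) = false)) :=
    Poly.decide_eq (Poly.and (pokG (Poly.fst hd)) (pokG (Poly.snd hd))) (NPC.Poly.const _)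
  have h3 : Poly (fun a => decide ((decG (c a).2).1.length ≠ (decG (c a).2).2.length)) :=
    Poly.decide_not (Poly.decide_eq (Poly.length (Poly.fst hd)) (Poly.length (Poly.snd hd)))
  have h4 : Poly (fun a => decide ((decG (c a).2).1.length = 0)) :=
    Poly.decide_eq (Poly.length (Poly.fst hd)) (NPC.Poly.const 0)
  have hz : Poly (fun a => true :: (t a).2.2) :=
    Poly.cons (NPC.Poly.const true) (Poly.snd (Poly.snd ht))
  have hu : Poly (fun a => (t a).2.1) := Poly.fst (Poly.snd ht)
  have h5 : Poly (fun a => decide ((certO (c a) (t a).1 0).any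
      (fun v => decide (nOf (c a) ≤ v)) = true)) :=
    Poly.decide_bool (Poly.any (p := fun a v => decide (nOf (c a) ≤ v))
      (pcertO hc (Poly.fst ht) (NPC.Poly.const 0))
      (Poly.decide_le (g1 (pnOf hc).toPoly) psnd))
  have hn : Poly (fun a => certN (c a) (t a).1) := pcertN hc (Poly.fst ht)
  have h6 : Poly (fun a => decide (certN (c a) (t a).1 = 0)) :=
    Poly.decide_eq hn (NPC.Poly.const 0)
  have h7 : Poly (fun a => decide ((t a).2.1.length < rX Q C (c a))) :=
    Poly.decide_lt (Poly.length hu) (prX Q C hc).toPoly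
  have hq : Poly (fun a => 3 * certN (c a) (t a).1 ^ 2) := by
    have h8 : Poly (fun a => certN (c a) (t a).1 ^ 2) :=
      (Poly.mul hn hn).congr fun a => (sq _).symm
    exact Poly.mul (NPC.Poly.const 3) h8
  have hp : Poly (fun a => ((decG (c a).2, (([] : List ℕ), ([] : List ℕ))) : SArg)) :=
    Poly.pair hd (NPC.Poly.const _)
  have h8 := ptrial hp (p2 (pNOf hc)) (UPoly.add (pNOf hc) (UPoly.const 3)) (pbX C hc)
    (pqX Q C hc) hq hu
  exact Poly.ite h1 hz (Poly.ite h2 hz (Poly.ite h3 hz (Poly.ite h4 (NPC.Poly.const [])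
    (Poly.ite h5 (NPC.Poly.const []) (Poly.ite h6 (NPC.Poly.const [])
      (Poly.ite h7 (NPC.Poly.const []) (Poly.cons (NPC.Poly.const true) h8)))))))

end

/-- decoding of the guess -/
def decT (w : List Bool) : Guess :=
  match unbits Guess w with
  | some t => t
  | none => ([], [], [])

theorem decT_bits (t : Guess) : decT (bits t) = t := by
  unfold decT
  rw [unbits_bits]

theorem pdecT {α : Type} [TEnc α] {w : α → List Bool} (hw : Poly w) :
    Poly (fun a => decT (w a)) := by
  refine (Poly.optCases (o := fun a => unbits Guess (w a))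
    (g := fun _ => (([], [], []) : Guess)) (h := fun _ t => t)
    (poly_unbits.comp hw) (NPC.Poly.const _) (Poly.snd Poly.id)).congr fun a => ?_
  unfold decT
  cases unbits Guess (w a) <;> rfl


/-! ### correctness -/

theorem prod_map_range (f : ℕ → ℕ) (k : ℕ) :
    ((List.range k).map f).prod = ∏ j ∈ Finset.range k, f j := by
  induction k with
  | zero => rfl
  | succ k ih =>
    rw [List.range_succ, List.map_append, List.prod_append, ih, Finset.prod_range_succ]
    simp

theorem certO_nodup (c : Ctx) (cs : List (List (List ℕ))) (i : ℕ) : (certO c cs i).Nodup :=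
  List.nodup_range.filter _

theorem orb_of_certO {c : Ctx} {cs : List (List (List ℕ))} {i v : ℕ} (hi : i < NOf c)
    (h : v ∈ certO c cs i) : Orb (gX c) (NOf c) i v := by
  unfold certO at h
  rw [List.mem_filter, List.any_eq_true] at h
  obtain ⟨_, L, _, h2⟩ := h
  rw [min_eq_left hi.le] at h2
  exact orb_of_okA hi h2

/-- the certificate with all automorphisms needed -/
theorem exists_cert (c : Ctx) {b : ℕ} (hb : nOf c ≤ b) : ∃ cs : List (List (List ℕ)),
    (∀ i < NOf c, ∀ v, v ∈ certO c cs i ↔ Orb (gX c) (NOf c) i v) ∧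
    sz cs ≤ 2 * b * (2 * b * (16 * b ^ 2 + 4 * b + 2) + 2) + 1 := by
  classical
  have hNb : NOf c ≤ 2 * b := by unfold NOf; omega
  have hex : ∀ i v, ∃ L : List ℕ, (L.length ≤ NOf c ∧ ∀ x ∈ L, x < NOf c) ∧
      (Orb (gX c) (NOf c) i v → okA (gX c) (NOf c) L i v = true) := by
    intro i v
    by_cases h : Orb (gX c) (NOf c) i v
    · obtain ⟨hi, σ, h1, h2, h3⟩ := h
      refine ⟨(List.range (NOf c)).map (act σ), ⟨by simp, ?_⟩, fun _ => ?_⟩
      · intro x hx
        rw [List.mem_map] at hx
        obtain ⟨y, hy, rfl⟩ := hx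
        exact act_le (List.mem_range.1 hy)
      · have h4 := okA_of h1 hi h2
        rwa [act_lt σ hi, h3] at h4
    · exact ⟨[], ⟨Nat.zero_le _, by simp⟩, fun h' => absurd h' h⟩
  choose f hf1 hf2 using hex
  refine ⟨(List.range (NOf c)).map fun i => (List.range (NOf c)).map fun v => f i v, ?_, ?_⟩
  · intro i hi v
    refine ⟨orb_of_certO hi, fun h => ?_⟩
    unfold certO
    rw [List.mem_filter, List.mem_range, List.any_eq_true]
    refine ⟨h.lt, f i v, ?_, ?_⟩
    · rw [getD_map_range, if_pos hi, List.mem_map]
      exact ⟨v, List.mem_range.2 h.lt, rfl⟩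
    · rw [min_eq_left hi.le]
      exact hf2 i v h
  · have h1 := sz_le_length_mul ((List.range (NOf c)).map fun i =>
      (List.range (NOf c)).map fun v => f i v) (2 * b * (16 * b ^ 2 + 4 * b + 2) + 1) (by
        intro l hl
        rw [List.mem_map] at hl
        obtain ⟨i, _, rfl⟩ := hl
        have h2 := sz_le_length_mul ((List.range (NOf c)).map fun v => f i v)
          (16 * b ^ 2 + 4 * b + 1) (by
            intro L hL
            rw [List.mem_map] at hL
            obtain ⟨v, _, rfl⟩ := hL
            exact sz_list_le (by have := (hf1 i v).1; omega) (fun x hx => by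
              have := (hf1 i v).2 x hx
              omega))
        rw [List.length_map, List.length_range] at h2
        refine h2.trans (Nat.add_le_add_right (Nat.mul_le_mul hNb (by omega)) 1))
    rw [List.length_map, List.length_range] at h1
    exact h1.trans (Nat.add_le_add_right (Nat.mul_le_mul hNb (by omega)) 1)

/-- graph non-isomorphism is reducible to every dense set without compressible strings, by a
nondeterministic polynomial-time many-one reduction -/
theorem nonIso_reduces {U : Machine} (hU : U.Universal) {A : Oracle} {ε : ℝ} (hε : 0 < ε)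
    {D : Polynomial ℕ} {N₀ : ℕ} (h1 : NoCompressible U A ε N₀) (h2 : Dense A D N₀) :
    NPReduces GraphIsoᶜ A := by
  classical
  obtain ⟨k, hk, h3⟩ := avoids_of hε h1
  set D₁ : Polynomial ℕ := D + 1 with hD₁
  obtain ⟨Q, C, hQC⟩ := exists_params hU hk h3 D₁
  -- a string in the oracle
  obtain ⟨y₀, hy₀, hAy₀⟩ : ∃ y₀ : List Bool, y₀.length = N₀ ∧ A y₀ = true := by
    have h4 := h2 N₀ le_rfl
    have h5 : 0 < Nat.card {w : Fin N₀ → Bool // A (List.ofFn w) = true} := by
      rcases Nat.eq_zero_or_pos (Nat.card {w : Fin N₀ → Bool // A (List.ofFn w) = true}) with h | h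
      · rw [h, Nat.mul_zero] at h4
        have h6 : 0 < 2 ^ N₀ := Nat.two_pow_pos N₀
        omega
      · exact h
    rw [Nat.card_pos_iff] at h5
    obtain ⟨⟨w, hw⟩⟩ := h5.1
    exact ⟨List.ofFn w, by simp, hw⟩
  refine ⟨fun y => certR Q C ([], (unpair y).1) (decT (unpair y).2),
    (2 * Polynomial.X * (2 * Polynomial.X * (16 * Polynomial.X ^ 2 + 4 * Polynomial.X + 2) + 2) +
      4 * rPoly Q + ((4 * N₀ + 20 : ℕ) : Polynomial ℕ)).comp (Polynomial.X + (C : Polynomial ℕ)),
    polyTime_of_poly_list (pcertR Q C (Poly.pair (NPC.Poly.const []) (Poly.fst poly_unpair))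
      (pdecT (Poly.snd poly_unpair))), fun x => ?_⟩
  simp only [unpair_pairBits]
  have hp : ((2 * Polynomial.X * (2 * Polynomial.X * (16 * Polynomial.X ^ 2 + 4 * Polynomial.X +
      2) + 2) + 4 * rPoly Q + ((4 * N₀ + 20 : ℕ) : Polynomial ℕ)).comp
        (Polynomial.X + (C : Polynomial ℕ))).eval x.length =
      2 * (x.length + C) * (2 * (x.length + C) * (16 * (x.length + C) ^ 2 +
        4 * (x.length + C) + 2) + 2) + 4 * (rPoly Q).eval (x.length + C) + (4 * N₀ + 20) := by
    simp only [Polynomial.eval_mul, Polynomial.eval_add, Polynomial.eval_comp,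
      Polynomial.eval_X, Polynomial.eval_ofNat, Polynomial.eval_natCast, Polynomial.eval_pow,
      Nat.cast_id]
  rw [hp]
  -- the trivial cases
  have htriv : (∀ t, certR Q C ([], x) t = true :: t.2.2) → ∃ w y : List Bool,
      w.length ≤ 2 * (x.length + C) * (2 * (x.length + C) * (16 * (x.length + C) ^ 2 +
        4 * (x.length + C) + 2) + 2) + 4 * (rPoly Q).eval (x.length + C) + (4 * N₀ + 20) ∧
      certR Q C ([], x) (decT w) = true :: y ∧ A y = true := by
    intro h
    refine ⟨bits (([], [], y₀) : Guess), y₀, ?_, ?_, hAy₀⟩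
    · rw [bits_length, sz_pair, sz_pair, sz_list_nil, sz_list_nil]
      have := sz_listBool_le y₀
      omega
    · rw [decT_bits, h]
  rw [Set.mem_compl_iff]
  by_cases hu : unbits (List (List Bool) × List (List Bool)) x = none
  · refine ⟨fun _ => htriv fun t => ?_, fun _ h => (mem_graphIso_iff.1 h).1 hu⟩
    unfold certR
    rw [if_pos (by rw [hu]; rfl)]
  have hu' : ¬ (unbits (List (List Bool) × List (List Bool)) x).isNone = true := by
    rw [Option.isNone_iff_eq_none]; exact hu
  by_cases hok : (okG (decG x).1 && okG (decG x).2) = true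
  swap
  · refine ⟨fun _ => htriv fun t => ?_, fun _ h => hok (by
      rw [(mem_graphIso_iff.1 h).2.1, (mem_graphIso_iff.1 h).2.2.1]; rfl)⟩
    unfold certR
    rw [if_neg hu', if_pos (by simpa using hok)]
  have hok' : ¬ (okG (decG x).1 && okG (decG x).2) = false := by rw [hok]; simp
  by_cases hlen : (decG x).1.length = (decG x).2.length
  swap
  · refine ⟨fun _ => htriv fun t => ?_, fun _ h => hlen (mem_graphIso_iff.1 h).2.2.2.1⟩
    unfold certR
    rw [if_neg hu', if_neg hok', if_pos hlen]
  rw [Bool.and_eq_true] at hok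
  have hmem : x ∈ GraphIso ↔
      Iso (entry (decG x).1) (entry (decG x).2) (decG x).1.length := by
    rw [mem_graphIso_iff]
    exact ⟨fun h => h.2.2.2.2, fun h => ⟨hu, hok.1, hok.2, hlen, h⟩⟩
  by_cases h0 : (decG x).1.length = 0
  · have hx : x ∈ GraphIso := by
      rw [hmem, h0]
      exact ⟨1, fun s => s.elim0⟩
    refine ⟨fun h => absurd hx h, ?_⟩
    rintro ⟨w, y, _, h4, _⟩
    unfold certR at h4
    rw [if_neg hu', if_neg hok', if_neg (not_not.2 hlen), if_pos h0] at h4
    simp at h4
  rw [hmem]
  set r₀ := (decG x).1 with hr₀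
  set r₁ := (decG x).2 with hr₁
  set n := r₀.length with hn
  have hn0 : 0 < n := Nat.pos_of_ne_zero h0
  set g := twoG (entry r₀) (entry r₁) n with hg
  set b := x.length + C with hb
  set q := Q.eval b with hq
  set r := (rPoly Q).eval b with hr
  set D' := (D₁.comp (Q * yPoly)).eval b with hDdef
  have hDpos : 0 < D' := by
    rw [hDdef, hD₁]
    simp
  obtain ⟨hbN, hbq, hq0, hq2, hrand⟩ := hQC b (Nat.le_add_left _ _)
  rw [← hq] at hbq hq0 hq2 hrand
  rw [← hDdef] at hq2
  have hszx : sz (decG x) ≤ b := (sz_decG hu).le.trans (Nat.le_add_right _ _)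
  have hnb : n ≤ b := by
    have e1 := length_lt_sz r₀
    have e2 : sz (decG x) = sz r₀ + sz r₁ + 1 := sz_pair r₀ r₁
    omega
  have htl : ∀ h : ℕ, tlen (2 * (2 * n)) (2 * n + 3) b q h ≤ r :=
    fun h => tlen_le q h Q hnb rfl
  have hpd := autC_pairE (g := g) (w := 2) (N := 2 * n) (fun s t => rfl) (L₁ := []) (L₂ := [])
    rfl (Nat.zero_le _) (by omega) (by simp) (by simp)
  rw [Hs_nil] at hpd
  have hR : ∀ t : Guess, certR Q C ([], x) t =
      if (certO ([], x) t.1 0).any (fun v => decide (n ≤ v)) = true then []
      else if certN ([], x) t.1 = 0 then []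
      else if t.2.1.length < r then []
      else true :: trial (pairE g 2 (2 * n) [] []) (2 * (2 * n)) (2 * n + 3) b q
        (3 * certN ([], x) t.1 ^ 2) t.2.1 := by
    intro t
    unfold certR
    rw [if_neg hu', if_neg hok', if_neg (not_not.2 hlen), if_neg h0]
    rfl
  constructor
  · -- completeness
    intro hiso
    obtain ⟨cs, hcs, hszcs⟩ := exists_cert ([], x) (b := b) hnb
    have hcs' : ∀ i < 2 * n, ∀ v, v ∈ certO ([], x) cs i ↔ Orb g (2 * n) i v := hcs
    have hN : certN ([], x) cs = autC g (2 * n) := by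
      unfold certN
      rw [prod_map_range, autC_eq_prod]
      refine Finset.prod_congr rfl fun i hi => ?_
      rw [Finset.mem_range] at hi
      rw [← List.toFinset_card_of_nodup (certO_nodup _ _ _)]
      congr 1
      ext v
      rw [List.mem_toFinset, hcs' i hi, mem_orb]
    have hpos : 0 < autC g (2 * n) := autC_pos g (2 * n)
    have hfew : 5 * autC (pairE g 2 (2 * n) [] []) (2 * (2 * n)) ≤
        4 * (3 * autC g (2 * n) ^ 2) := by
      rw [hpd]
      nlinarith
    have hhi : 3 * autC g (2 * n) ^ 2 ≤ (2 * (2 * n)).factorial := by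
      have h4 : autC g (2 * n) ≤ (2 * n).factorial := autF_anti
      exact (Nat.mul_le_mul_left 3 (Nat.pow_le_pow_left h4 2)).trans (three_le (by omega))
    have hxl : N₀ ≤ xlen (2 * (2 * n)) (2 * n + 3) b q (3 * autC g (2 * n) ^ 2) := by
      unfold xlen
      have e1 : q * 1 ≤ q * (beta (2 * (2 * n)) b (3 * autC g (2 * n) ^ 2) + 1) :=
        Nat.mul_le_mul_left _ (by omega)
      have e2 : max N₀ 1 ≤ b := hbN
      have e3 : N₀ ≤ max N₀ 1 := le_max_left _ _
      omega
    have hdens : (2 : ℝ) ^ xlen (2 * (2 * n)) (2 * n + 3) b q (3 * autC g (2 * n) ^ 2) / D' ≤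
        ∑ y ∈ Bits (xlen (2 * (2 * n)) (2 * n + 3) b q (3 * autC g (2 * n) ^ 2)),
          if A y = true then (1 : ℝ) else 0 := by
      rw [div_le_iff₀ (by exact_mod_cast hDpos), mul_comm _ (D' : ℝ)]
      have h4 := h2 _ hxl
      rw [natCard_eq_filter _ (fun w => A w = true)] at h4
      rw [← card_filter_eq_sum]
      have e1 : D.eval (xlen (2 * (2 * n)) (2 * n + 3) b q (3 * autC g (2 * n) ^ 2)) ≤ D' := by
        rw [hDdef, hD₁, Polynomial.eval_comp, Polynomial.eval_add, Polynomial.eval_mul]
        exact (eval_mono D (xlen_le _ hnb hq0)).trans (Nat.le_add_right _ _)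
      exact_mod_cast h4.trans (Nat.mul_le_mul_right _ e1)
    have h5 := trial_few_long (e := pairE g 2 (2 * n) [] []) (m := 2 * (2 * n))
      (k := 2 * n + 3) (b := b) (q := q) (r := r) (fun s t' => entB_length
        (decG x, ([], [])) s t') hfew hhi hq0 hDpos hq2 (htl _)
      (R := fun x => A x = true) hdens
    obtain ⟨u, hu1, hu2⟩ : ∃ u ∈ Bits r, A (trial (pairE g 2 (2 * n) [] []) (2 * (2 * n))
        (2 * n + 3) b q (3 * autC g (2 * n) ^ 2) u) = true := by
      by_contra hne
      push Not at hne
      have h6 : ∑ u ∈ Bits r, (if ¬ A (trial (pairE g 2 (2 * n) [] []) (2 * (2 * n))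
          (2 * n + 3) b q (3 * autC g (2 * n) ^ 2) u) = true then (1 : ℝ) else 0) = 2 ^ r := by
        rw [← mul_one ((2 : ℝ) ^ r), ← sum_Bits_const]
        refine Finset.sum_congr rfl fun u hu => ?_
        rw [if_pos (by simpa using hne u hu)]
      rw [h6] at h5
      have h7 : (0 : ℝ) < 1 / (2 * D') := by positivity
      have h8 : (0 : ℝ) < 2 ^ r := by positivity
      nlinarith
    rw [mem_Bits] at hu1
    refine ⟨bits ((cs, u, []) : Guess), _, ?_, ?_, hu2⟩
    · rw [bits_length, sz_pair, sz_pair, sz_list_nil]
      have := sz_listBool_le u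
      rw [hu1] at this
      omega
    · rw [decT_bits, hR, if_neg, if_neg, if_neg (by simp only; omega), hN]
      · rw [hN]; omega
      · intro hany
        rw [List.any_eq_true] at hany
        obtain ⟨v, hv1, hv2⟩ := hany
        exact hiso (iso_of_orb hn0 ((hcs' 0 (by omega) v).1 hv1) (of_decide_eq_true hv2))
  · -- soundness
    rintro ⟨w, y, _, hy, hAy⟩ hiso
    rw [hR] at hy
    set t := decT w with ht
    split_ifs at hy with h4 h5 h6
    rw [List.cons.injEq] at hy
    obtain ⟨-, rfl⟩ := hy
    rw [not_lt] at h6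
    set a := certN ([], x) t.1 with ha
    have ha0 : 0 < 3 * a ^ 2 := by positivity
    -- the lower bound
    have h7 : a ≤ autC (sideE g n) (2 * n) := by
      rw [ha]
      unfold certN
      rw [prod_map_range]
      have h8 := prod_le_autC (e := sideE g n) (m := 2 * n)
        (O := fun i => (certO ([], x) t.1 i).toFinset) (by
          intro i hi v hv
          rw [List.mem_toFinset] at hv
          have h9 : Orb g (2 * n) i v := orb_of_certO hi hv
          refine orb_sideE hn0 h9 fun hi0 => ?_
          subst hi0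
          by_contra h10
          apply h4
          rw [List.any_eq_true]
          exact ⟨v, hv, decide_eq_true (not_lt.1 h10)⟩)
      refine le_trans (le_of_eq ?_) h8
      exact Finset.prod_congr rfl fun i _ => (List.toFinset_card_of_nodup (certO_nodup _ _ _)).symm
    have h8 := two_mul_le hn0 hiso
    rw [← hg] at h8
    have h9 : ¬ 3 * a ^ 2 ≤ autC (pairE g 2 (2 * n) [] []) (2 * (2 * n)) := by
      intro h10
      have h11 := hrand (decG x, ([], [])) (3 * a ^ 2) ha0 h10 hszx (Nat.zero_le _)
        (Nat.zero_le _) (by simp) (by simp) t.2.1 ((htl _).trans h6)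
      have h12 : entB (decG x, (([] : List ℕ), ([] : List ℕ))) = pairE g 2 (2 * n) [] [] := rfl
      rw [h12] at h11
      simp only at h11
      rw [← hr₀, ← hn, hAy] at h11
      exact absurd h11 (by simp)
    apply h9
    rw [hpd]
    have h10 : 2 * a ≤ autC g (2 * n) := (Nat.mul_le_mul_left 2 h7).trans h8
    have h11 := Nat.pow_le_pow_left h10 2
    rw [mul_pow] at h11
    have h12 : 3 * a ^ 2 ≤ 2 ^ 2 * a ^ 2 := Nat.mul_le_mul_right _ (by norm_num)
    exact h12.trans (h11.trans (by rw [sq]; exact Nat.le_add_right _ _))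

end Pool.Agent.TH677.GI
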