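import Pool.Agent.TH677.GI.Pair

/-!
# Computing the orders of the stabilizers from one-sided tests
-/

set_option autoImplicit false
set_option linter.unusedVariables false

namespace Pool.Agent.TH677.GI

open Finset Pool.Agent.TH677.GA

section

variable {g : ℕ → ℕ → List Bool} {N : ℕ}

theorem act_mul (σ τ : Equiv.Perm (Fin N)) (s : ℕ) : act (σ * τ) s = act σ (act τ s) := by
  by_cases h : s < N
  · rw [act_lt _ h, act_lt _ h, act_fin, Equiv.Perm.mul_apply]
  · simp [act, h]

theorem act_one (s : ℕ) : act (1 : Equiv.Perm (Fin N)) s = s := by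
  by_cases h : s < N
  · rw [act_lt _ h]; rfl
  · simp [act, h]

theorem act_le {σ : Equiv.Perm (Fin N)} {s : ℕ} (h : s < N) : act σ s < N := by
  rw [act_lt _ h]; exact Fin.is_lt _

theorem map_act_mul (σ τ : Equiv.Perm (Fin N)) (L : List ℕ) :
    L.map (act (σ * τ)) = (L.map (act τ)).map (act σ) := by
  rw [List.map_map]
  exact List.map_congr_left fun s _ => act_mul σ τ s

theorem map_act_inv {σ : Equiv.Perm (Fin N)} {L L' : List ℕ} (h : L.map (act σ) = L') :
    L'.map (act σ⁻¹) = L := by
  rw [← h, ← map_act_mul]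
  simp only [inv_mul_cancel]
  conv_rhs => rw [← List.map_id L]
  exact List.map_congr_left fun s _ => act_one s

theorem Hs_card_eq {L₁ L₂ : List ℕ} {τ : Equiv.Perm (Fin N)} (h : τ ∈ Hs g N L₁ L₂) :
    (Hs g N L₁ L₂).card = (Hs g N L₁ L₁).card ∧ (Hs g N L₂ L₁).card = (Hs g N L₁ L₁).card ∧
      (Hs g N L₂ L₂).card = (Hs g N L₁ L₁).card := by
  rw [mem_Hs] at h
  have hi := map_act_inv h.2
  refine ⟨?_, ?_, ?_⟩
  · apply card_bij' (fun σ _ => τ⁻¹ * σ) (fun σ _ => τ * σ)
    · intro σ hσ
      rw [mem_Hs] at hσ ⊢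
      exact ⟨h.1.inv.mul hσ.1, by rw [map_act_mul, hσ.2, hi]⟩
    · intro σ hσ
      rw [mem_Hs] at hσ ⊢
      exact ⟨h.1.mul hσ.1, by rw [map_act_mul, hσ.2, h.2]⟩
    · intro σ _; simp
    · intro σ _; simp
  · apply card_bij' (fun σ _ => σ * τ) (fun σ _ => σ * τ⁻¹)
    · intro σ hσ
      rw [mem_Hs] at hσ ⊢
      exact ⟨hσ.1.mul h.1, by rw [map_act_mul, h.2, hσ.2]⟩
    · intro σ hσ
      rw [mem_Hs] at hσ ⊢
      exact ⟨hσ.1.mul h.1.inv, by rw [map_act_mul, hi, hσ.2]⟩
    · intro σ _; simp
    · intro σ _; simp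
  · apply card_bij' (fun σ _ => τ⁻¹ * (σ * τ)) (fun σ _ => τ * (σ * τ⁻¹))
    · intro σ hσ
      rw [mem_Hs] at hσ ⊢
      exact ⟨h.1.inv.mul (hσ.1.mul h.1), by rw [map_act_mul, map_act_mul, h.2, hσ.2, hi]⟩
    · intro σ hσ
      rw [mem_Hs] at hσ ⊢
      exact ⟨h.1.mul (hσ.1.mul h.1.inv), by rw [map_act_mul, map_act_mul, hi, hσ.2, h.2]⟩
    · intro σ _; simp [mul_assoc]
    · intro σ _; simp [mul_assoc]

theorem map_range_iff {σ : Equiv.Perm (Fin N)} {i : ℕ} (hi : i ≤ N) :
    (List.range i).map (act σ) = List.range i ↔ Fix N i σ := by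
  constructor
  · intro h c hc
    have h1 := congrArg (fun l => l[(c : ℕ)]?) h
    simp only [List.getElem?_map, List.getElem?_range hc, Option.map_some,
      Option.some.injEq] at h1
    rw [act_fin] at h1
    exact Fin.ext h1
  · intro h
    conv_rhs => rw [← List.map_id (List.range i)]
    apply List.map_congr_left
    intro c hc
    rw [List.mem_range] at hc
    rw [act_lt σ (by omega), h ⟨c, by omega⟩ hc]
    rfl

theorem Hs_range {i : ℕ} (hi : i ≤ N) : Hs g N (List.range i) (List.range i) = autF g N i := by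
  ext σ
  rw [mem_Hs, mem_autF, map_range_iff hi]

theorem autF_anti {i : ℕ} : (autF g N i).card ≤ N.factorial := by
  refine (card_le_univ _).trans (le_of_eq ?_)
  rw [Fintype.card_perm, Fintype.card_fin]

/-- the list extends to an automorphism -/
def Ext (g : ℕ → ℕ → List Bool) (N : ℕ) (L : List ℕ) : Prop :=
  ∃ σ : Equiv.Perm (Fin N), AutE g N σ ∧ (List.range L.length).map (act σ) = L

theorem three_le (hN : 2 ≤ N) : 3 * N.factorial ^ 2 ≤ (2 * N).factorial := by
  induction N, hN using Nat.le_induction with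
  | base => decide
  | succ n hn ih =>
    have h1 : (2 * (n + 1)).factorial = (2 * n + 2) * ((2 * n + 1) * (2 * n).factorial) := by
      rw [show 2 * (n + 1) = 2 * n + 1 + 1 by ring, Nat.factorial_succ, Nat.factorial_succ]
    rw [h1, Nat.factorial_succ]
    calc 3 * ((n + 1) * n.factorial) ^ 2 = (n + 1) * ((n + 1) * (3 * n.factorial ^ 2)) := by ring
      _ ≤ (2 * n + 2) * ((2 * n + 1) * (2 * n).factorial) :=
        Nat.mul_le_mul (by omega) (Nat.mul_le_mul (by omega) ih)

end

/-- one-sided tests: `acc L₁ L₂ h` certifies that the two copies of `g` with the distinguished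
elements have fewer than `h` automorphisms -/
def Never (g : ℕ → ℕ → List Bool) (w N : ℕ) (acc : List ℕ → List ℕ → ℕ → Bool) : Prop :=
  ∀ L₁ L₂ : List ℕ, L₁.length = L₂.length → L₁.length ≤ N → (∀ x ∈ L₁, x < N) →
    (∀ x ∈ L₂, x < N) → ∀ h, acc L₁ L₂ h = true → autC (pairE g w N L₁ L₂) (2 * N) < h

/-- the tests find what they should find -/
def Found (g : ℕ → ℕ → List Bool) (w N : ℕ) (acc : List ℕ → List ℕ → ℕ → Bool) : Prop :=
  ∀ L₁ L₂ : List ℕ, L₁.length = L₂.length → L₁.length ≤ N → (∀ x ∈ L₁, x < N) →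
    (∀ x ∈ L₂, x < N) → ∀ h ≤ (2 * N).factorial,
      5 * autC (pairE g w N L₁ L₂) (2 * N) ≤ 4 * h → acc L₁ L₂ h = true

/-- the test for isomorphism with distinguished elements -/
def test (acc : List ℕ → List ℕ → ℕ → Bool) (L : List ℕ) (a : ℕ) : Bool :=
  acc L L (3 * a ^ 2) && !acc (List.range L.length) L (2 * a ^ 2)

theorem test_iff {g : ℕ → ℕ → List Bool} {w N : ℕ} {acc : List ℕ → List ℕ → ℕ → Bool}
    (hg : ∀ s t, (g s t).length = w) (hN : 2 ≤ N) (hn : Never g w N acc)
    (hf : Found g w N acc) {L : List ℕ} (hL : L.length ≤ N) (hLN : ∀ x ∈ L, x < N) :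
    test acc L (autF g N L.length).card = true ↔ Ext g N L := by
  set A := (autF g N L.length).card with hA
  have hA0 : 0 < A := autF_card_pos g N L.length
  have hAN : 3 * A ^ 2 ≤ (2 * N).factorial :=
    (Nat.mul_le_mul_left 3 (Nat.pow_le_pow_left autF_anti 2)).trans (three_le hN)
  have hrl : (List.range L.length).length = L.length := List.length_range
  have hrN : ∀ x ∈ List.range L.length, x < N := fun x hx => by
    rw [List.mem_range] at hx; omega
  have hd := autC_pairE hg (L₁ := L) (L₂ := L) rfl hL (by omega) hLN hLN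
  have ho := autC_pairE hg (L₁ := List.range L.length) (L₂ := L) hrl (by omega) (by omega)
    hrN hLN
  rw [Hs_range hL, ← hA] at ho
  unfold test
  rw [Bool.and_eq_true, Bool.not_eq_true']
  constructor
  · rintro ⟨h1, h2⟩
    by_contra hne
    have h3 := hn L L rfl hL hLN hLN _ h1
    rw [hd] at h3
    have hemp : Hs g N (List.range L.length) L = ∅ := by
      rw [eq_empty_iff_forall_notMem]
      intro σ hσ
      rw [mem_Hs] at hσ
      exact hne ⟨σ, hσ⟩
    rw [hemp, card_empty, Nat.zero_mul, Nat.add_zero] at ho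
    set h := (Hs g N L L).card with hh
    have h4 : acc (List.range L.length) L (2 * A ^ 2) = true := by
      refine hf _ _ hrl (by omega) hrN hLN _ (le_trans (by nlinarith) hAN) ?_
      rw [ho]
      -- `5 A h ≤ 8 A ^ 2` follows from `2 h ^ 2 < 3 A ^ 2`
      have h5 : 5 * h ≤ 8 * A := by
        by_contra h6
        rw [not_le] at h6
        nlinarith
      nlinarith
    rw [h4] at h2
    exact absurd h2 (by simp)
  · rintro ⟨τ, h1, h2⟩
    have hτ : τ ∈ Hs g N (List.range L.length) L := mem_Hs.2 ⟨h1, h2⟩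
    obtain ⟨h3, h4, h5⟩ := Hs_card_eq hτ
    rw [Hs_range hL, ← hA] at h3 h4 h5
    rw [h5] at hd
    rw [h3, h4, h5] at ho
    constructor
    · refine hf L L rfl hL hLN hLN _ hAN ?_
      rw [hd]
      nlinarith
    · by_contra h6
      rw [Bool.not_eq_false] at h6
      have h7 := hn _ _ hrl (by omega) hrN hLN _ h6
      rw [ho] at h7
      nlinarith

section

variable (acc : List ℕ → List ℕ → ℕ → Bool) (g : ℕ → ℕ → List Bool) (N : ℕ)

/-- the first element that can be appended; `bs` are the orders of the stabilizers, the last one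
first -/
def next (bs L : List ℕ) : ℕ :=
  ((List.range N).filter fun v =>
    test acc (L ++ [v]) (bs.getD (N - (L.length + 1)) 1)).head?.getD 0

/-- append an element -/
def ext (bs L : List ℕ) : List ℕ := if L.length < N then L ++ [next acc N bs L] else L

/-- search for an automorphism that fixes the numbers below `i` and maps `i` to `v` -/
def search (bs : List ℕ) (i v : ℕ) : List ℕ := (ext acc N bs)^[N] (List.range i ++ [v])

/-- the list is an automorphism that fixes the numbers below `i` and maps `i` to `v` -/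
def okA (L : List ℕ) (i v : ℕ) : Bool :=
  decide (L.length = N) && ((List.range N).all fun s => decide (L.getD s 0 < N) &&
    (List.range N).all fun t =>
      decide (g (L.getD s 0) (L.getD t 0) = g s t) &&
        (decide (s = t) || !decide (L.getD s 0 = L.getD t 0))) &&
    ((List.range i).all fun c => decide (L.getD c 0 = c)) && decide (L.getD i 0 = v)

/-- the part of the orbit of `i` found, where `i` is determined by the length of `bs` -/
def orbs (bs : List ℕ) : List ℕ :=
  (List.range N).filter fun v =>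
    okA g N (search acc N bs (N - bs.length) v) (N - bs.length) v

/-- the order of the next stabilizer -/
def nxt (bs : List ℕ) : ℕ := (orbs acc g N bs).length * bs.getD (bs.length - 1) 1

/-- append the order of the next stabilizer -/
def stp (bs : List ℕ) : List ℕ := bs ++ [nxt acc g N bs]

end

section

variable {acc : List ℕ → List ℕ → ℕ → Bool} {g : ℕ → ℕ → List Bool} {w N : ℕ}

theorem orb_of_okA {L : List ℕ} {i v : ℕ} (hi : i < N) (h : okA g N L i v = true) :
    Orb g N i v := by
  unfold okA at h
  simp only [Bool.and_eq_true, List.all_eq_true, List.mem_range, decide_eq_true_eq,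
    Bool.or_eq_true, Bool.not_eq_true', decide_eq_false_iff_not] at h
  obtain ⟨⟨⟨_, h1⟩, h2⟩, h3⟩ := h
  have h4 : IsAut g N (fun s => L.getD s 0) :=
    ⟨fun s hs => (h1 s hs).1, fun s hs t ht hst => by
      rcases ((h1 s hs).2 t ht).2 with h5 | h5
      · exact h5
      · exact absurd hst h5, fun s hs t ht => ((h1 s hs).2 t ht).1⟩
  obtain ⟨σ, h5, h6⟩ := exists_autE h4
  refine ⟨hi, σ, h5, fun c hc => Fin.ext ?_, ?_⟩
  · rw [h6]
    exact h2 c hc
  · rw [h6]
    exact h3

theorem okA_of {σ : Equiv.Perm (Fin N)} (h : AutE g N σ) {i : ℕ} (hi : i < N)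
    (hfix : Fix N i σ) : okA g N ((List.range N).map (act σ)) i (act σ i) = true := by
  have hget : ∀ s < N, ((List.range N).map (act σ)).getD s 0 = act σ s := by
    intro s hs
    rw [List.getD_eq_getElem _ _ (by simpa using hs), List.getElem_map, List.getElem_range]
  have haut := act_isAut h
  unfold okA
  simp only [Bool.and_eq_true, List.all_eq_true, List.mem_range, decide_eq_true_eq,
    Bool.or_eq_true, Bool.not_eq_true', decide_eq_false_iff_not]
  refine ⟨⟨⟨by simp, fun s hs => ⟨?_, fun t ht => ⟨?_, ?_⟩⟩⟩, fun c hc => ?_⟩, hget i hi⟩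
  · rw [hget s hs]; exact haut.1 s hs
  · rw [hget s hs, hget t ht]; exact haut.2.2 s hs t ht
  · rw [hget s hs, hget t ht]
    by_cases hst : s = t
    · exact Or.inl hst
    · exact Or.inr fun h5 => hst (haut.2.1 s hs t ht h5)
  · rw [hget c (by omega), act_lt σ (by omega), hfix ⟨c, by omega⟩ hc]

theorem orb_of_orbs {bs : List ℕ} {v : ℕ} (hN : 0 < N) (hb : 0 < bs.length)
    (h : v ∈ orbs acc g N bs) : Orb g N (N - bs.length) v := by
  unfold orbs at h
  rw [List.mem_filter] at h
  exact orb_of_okA (by omega) h.2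

theorem orbs_nodup (bs : List ℕ) : (orbs acc g N bs).Nodup := List.nodup_range.filter _

theorem Ext.lt {L : List ℕ} (hL : L.length ≤ N) (h : Ext g N L) : ∀ x ∈ L, x < N := by
  obtain ⟨σ, _, h2⟩ := h
  intro x hx
  rw [← h2, List.mem_map] at hx
  obtain ⟨y, hy, rfl⟩ := hx
  rw [List.mem_range] at hy
  exact act_le (by omega)

theorem Ext.prefix_eq {L : List ℕ} {σ : Equiv.Perm (Fin N)}
    (h : (List.range L.length).map (act σ) = L) {s : ℕ} (hs : s < L.length) :
    act σ s = L[s] := by
  have h1 := congrArg (fun l => l[s]?) h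
  simp only [List.getElem?_map, List.getElem?_range hs, Option.map_some,
    List.getElem?_eq_getElem hs, Option.some.injEq] at h1
  exact h1

/-- one step of the search -/
theorem ext_spec (hg : ∀ s t, (g s t).length = w) (hN : 2 ≤ N) (hn : Never g w N acc)
    (hf : Found g w N acc) {bs L : List ℕ} (hL : L.length < N) (hE : Ext g N L)
    (hb : bs.getD (N - (L.length + 1)) 1 = (autF g N (L.length + 1)).card) :
    ∃ v, ext acc N bs L = L ++ [v] ∧ Ext g N (L ++ [v]) := by
  have hlt := Ext.lt hL.le hE
  have key : ∀ v < N, test acc (L ++ [v]) (bs.getD (N - (L.length + 1)) 1) = true ↔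
      Ext g N (L ++ [v]) := by
    intro v hv
    have h1 := test_iff (L := L ++ [v]) hg hN hn hf (by simp; omega) (by
      intro x hx
      rw [List.mem_append, List.mem_singleton] at hx
      rcases hx with hx | rfl
      · exact hlt x hx
      · exact hv)
    rw [hb]
    rw [List.length_append, List.length_singleton] at h1
    exact h1
  obtain ⟨σ, h1, h2⟩ := hE
  have h3 : Ext g N (L ++ [act σ L.length]) := by
    refine ⟨σ, h1, ?_⟩
    rw [List.length_append, List.length_singleton, List.range_succ, List.map_append, h2]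
    rfl
  unfold ext
  rw [if_pos hL]
  refine ⟨_, rfl, ?_⟩
  unfold next
  have hmem : act σ L.length ∈ (List.range N).filter fun v =>
      test acc (L ++ [v]) (bs.getD (N - (L.length + 1)) 1) := by
    rw [List.mem_filter, List.mem_range]
    exact ⟨act_le hL, (key _ (act_le hL)).2 h3⟩
  obtain ⟨a, l, hal⟩ := List.exists_cons_of_ne_nil (List.ne_nil_of_mem hmem)
  rw [hal, List.head?_cons, Option.getD_some]
  have ha : a ∈ (List.range N).filter fun v =>
      test acc (L ++ [v]) (bs.getD (N - (L.length + 1)) 1) := by rw [hal]; simp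
  rw [List.mem_filter, List.mem_range] at ha
  exact (key a ha.1).1 ha.2

theorem ext_full {bs L : List ℕ} (hL : L.length = N) : ext acc N bs L = L := by
  unfold ext
  rw [if_neg (by omega)]

/-- the search succeeds -/
theorem search_spec (hg : ∀ s t, (g s t).length = w) (hN : 2 ≤ N) (hn : Never g w N acc)
    (hf : Found g w N acc) {bs : List ℕ} {i v : ℕ} (hi : i < N) (ho : Orb g N i v)
    (hb : ∀ l, i + 1 < l → l ≤ N → bs.getD (N - l) 1 = (autF g N l).card) :
    okA g N (search acc N bs i v) i v = true := by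
  obtain ⟨_, σ, h1, h2, h3⟩ := ho
  have hv : v < N := by rw [← h3]; exact Fin.is_lt _
  set L₀ := List.range i ++ [v] with hL₀
  have hL₀l : L₀.length = i + 1 := by rw [hL₀]; simp
  have hE : Ext g N L₀ := by
    refine ⟨σ, h1, ?_⟩
    rw [hL₀l, List.range_succ, List.map_append, (map_range_iff hi.le).2 h2, hL₀]
    congr 1
    rw [List.map_singleton, act_lt σ hi, h3]
  have key : ∀ k, ∃ L', (ext acc N bs)^[k] L₀ = L₀ ++ L' ∧ Ext g N (L₀ ++ L') ∧
      (L₀ ++ L').length = min (i + 1 + k) N := by
    intro k
    induction k with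
    | zero =>
      refine ⟨[], by simp, by simpa using hE, ?_⟩
      rw [List.append_nil, hL₀l]
      omega
    | succ k ih =>
      obtain ⟨L', h4, h5, h6⟩ := ih
      rw [Function.iterate_succ_apply', h4]
      by_cases hlt : (L₀ ++ L').length < N
      · obtain ⟨u, h7, h8⟩ := ext_spec hg hN hn hf (bs := bs) hlt h5
          (hb _ (by rw [List.length_append] at hlt ⊢; omega) (by omega))
        refine ⟨L' ++ [u], ?_, ?_, ?_⟩
        · rw [h7, List.append_assoc]
        · rw [← List.append_assoc]; exact h8
        · rw [← List.append_assoc, List.length_append, h6, List.length_singleton]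
          rw [h6] at hlt
          omega
      · refine ⟨L', ?_, h5, ?_⟩
        · exact ext_full (by rw [h6] at hlt ⊢; omega)
        · rw [h6] at hlt ⊢; omega
  obtain ⟨L', h4, ⟨τ, h5, h5'⟩, h6⟩ := key N
  have hlen : (L₀ ++ L').length = N := by rw [h6]; omega
  unfold search
  rw [← hL₀, h4]
  have h8 : ∀ s (hs : s < (L₀ ++ L').length), act τ s = (L₀ ++ L')[s] :=
    fun s hs => Ext.prefix_eq h5' hs
  rw [hlen] at h5'
  have h7 : Fix N i τ := by
    intro c hc
    apply Fin.ext
    rw [← act_fin, h8 c (by omega), List.getElem_append_left (by omega)]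
    simp only [hL₀]
    rw [List.getElem_append_left (by simpa using hc), List.getElem_range]
  have h9 : act τ i = v := by
    rw [h8 i (by omega), List.getElem_append_left (by omega)]
    simp [hL₀]
  have h10 := okA_of h5 hi h7
  rw [h5', h9] at h10
  exact h10

theorem mem_orbs_iff (hg : ∀ s t, (g s t).length = w) (hN : 2 ≤ N) (hn : Never g w N acc)
    (hf : Found g w N acc) {bs : List ℕ} (hb0 : 0 < bs.length) (hbN : bs.length ≤ N)
    (hb : ∀ j < bs.length, bs.getD j 1 = (autF g N (N - j)).card) {v : ℕ} :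
    v ∈ orbs acc g N bs ↔ Orb g N (N - bs.length) v := by
  refine ⟨orb_of_orbs (by omega) hb0, fun h => ?_⟩
  unfold orbs
  rw [List.mem_filter, List.mem_range]
  refine ⟨h.lt, search_spec hg hN hn hf (by omega) h fun l h1 h2 => ?_⟩
  rw [hb (N - l) (by omega)]
  congr 2
  omega

theorem nxt_eq (hg : ∀ s t, (g s t).length = w) (hN : 2 ≤ N) (hn : Never g w N acc)
    (hf : Found g w N acc) {bs : List ℕ} (hb0 : 0 < bs.length) (hbN : bs.length ≤ N)
    (hb : ∀ j < bs.length, bs.getD j 1 = (autF g N (N - j)).card) :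
    nxt acc g N bs = (autF g N (N - bs.length)).card := by
  have h1 : (orbs acc g N bs).length = (orb g N (N - bs.length)).card := by
    rw [← List.toFinset_card_of_nodup (orbs_nodup bs)]
    congr 1
    ext v
    rw [List.mem_toFinset, mem_orbs_iff hg hN hn hf hb0 hbN hb, mem_orb]
  unfold nxt
  rw [h1, hb _ (by omega), card_autF g (by omega : N - bs.length < N)]
  congr 3
  omega

theorem stp_length (k : ℕ) : ((stp acc g N)^[k] [1]).length = k + 1 := by
  induction k with
  | zero => rfl
  | succ k ih => rw [Function.iterate_succ_apply', stp, List.length_append, ih]; rfl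

/-- the numbers computed are the orders of the stabilizers -/
theorem stp_spec (hg : ∀ s t, (g s t).length = w) (hN : 2 ≤ N) (hn : Never g w N acc)
    (hf : Found g w N acc) : ∀ k, k + 1 ≤ N → ∀ j < k + 1,
    ((stp acc g N)^[k] [1]).getD j 1 = (autF g N (N - j)).card := by
  intro k
  induction k with
  | zero =>
    intro _ j hj
    have : j = 0 := by omega
    subst this
    simp [autF_top]
  | succ k ih =>
    intro hk j hj
    have ih' := ih (by omega)
    have hl := stp_length (acc := acc) (g := g) (N := N) k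
    rw [Function.iterate_succ_apply', stp]
    rcases Nat.lt_or_ge j (k + 1) with h1 | h1
    · rw [List.getD_append _ _ _ _ (by omega)]
      exact ih' j h1
    · have h2 : j = k + 1 := by omega
      subst h2
      rw [List.getD_append_right _ _ _ _ (by omega), hl, Nat.sub_self, List.getD_cons_zero,
        nxt_eq hg hN hn hf (by omega) (by omega) (by rw [hl]; exact ih'), hl]

/-- the number computed is a product -/
theorem stp_prod (k : ℕ) : ((stp acc g N)^[k] [1]).getD k 1 =
    ∏ j ∈ range k, (orbs acc g N ((stp acc g N)^[j] [1])).length := by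
  induction k with
  | zero => rfl
  | succ k ih =>
    have hl := stp_length (acc := acc) (g := g) (N := N) k
    rw [Function.iterate_succ_apply', stp, List.getD_append_right _ _ _ _ (by omega), hl,
      Nat.sub_self, List.getD_cons_zero, nxt, hl, Nat.add_sub_cancel, ih, prod_range_succ,
      mul_comm]

end

end Pool.Agent.TH677.GI
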