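import Pool.Agent.TH677.GI.App
import Pool.Agent.TH677.GA.Count

/-!
# The choice of the parameters
-/

set_option autoImplicit false
set_option linter.unusedVariables false

namespace Pool.Agent.TH677.GI

open Pool.Agent.NPC Pool.Agent.H622R2 Pool.Agent.TH677.GA

theorem exists_le_pow (P : Polynomial ℕ) : ∃ n₀ : ℕ, ∀ n ≥ n₀, P.eval n * 4 ^ n ≤ 5 ^ n := by
  have h := tendsto_pow_const_div_const_pow_of_one_lt P.natDegree (r := (5 / 4 : ℝ))
    (by norm_num)
  have h2 : ∀ᶠ n : ℕ in Filter.atTop,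
      (n : ℝ) ^ P.natDegree / (5 / 4) ^ n < 1 / ((P.eval 1 : ℕ) + 1 : ℝ) :=
    h.eventually_lt_const (by positivity)
  obtain ⟨n₁, hn₁⟩ := Filter.eventually_atTop.1 h2
  refine ⟨max n₁ 1, fun n hn => ?_⟩
  have h3 := hn₁ n ((le_max_left _ _).trans hn)
  have h4 := eval_le_mul_pow P n ((le_max_right _ _).trans hn)
  rw [div_lt_div_iff₀ (by positivity) (by positivity), one_mul] at h3
  have h5 : ((P.eval n * 4 ^ n : ℕ) : ℝ) ≤ ((5 ^ n : ℕ) : ℝ) := by
    have h4' : ((P.eval n : ℕ) : ℝ) ≤ (P.eval 1 : ℕ) * (n : ℝ) ^ P.natDegree := by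
      exact_mod_cast h4
    push_cast
    have h6 : (0 : ℝ) ≤ (n : ℝ) ^ P.natDegree := by positivity
    have h7 : ((P.eval n : ℕ) : ℝ) ≤ (5 / 4) ^ n := by nlinarith
    have h8 : (5 : ℝ) ^ n = (5 / 4) ^ n * 4 ^ n := by rw [← mul_pow]; norm_num
    rw [h8]
    exact mul_le_mul_of_nonneg_right h7 (by positivity)
  exact_mod_cast h5

theorem factorial_pow_le {n b : ℕ} (h : n ≤ b) :
    (2 * (2 * n)).factorial ^ b ≤ 2 ^ ((16 * b ^ 2 + 1) * b) := by
  have h1 : (2 * (2 * n)).factorial ≤ 2 ^ (16 * b ^ 2 + 1) := by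
    have h2 := psquare_bound (2 * (2 * n)) (4 * b) (by omega)
    have h3 : 4 * b * (4 * b) + 1 = 16 * b ^ 2 + 1 := by ring
    rw [h3] at h2
    exact h2.le
  calc ((2 * (2 * n)).factorial) ^ b ≤ (2 ^ (16 * b ^ 2 + 1)) ^ b := Nat.pow_le_pow_left h1 b
    _ = 2 ^ ((16 * b ^ 2 + 1) * b) := by rw [← pow_mul]

theorem beta_le {n b : ℕ} (hi : ℕ) (h : n ≤ b) :
    beta (2 * (2 * n)) b hi ≤ (16 * b ^ 2 + 1) * b + 1 := by
  unfold beta
  apply bits_length_le_of_lt
  calc (2 * (2 * n)).factorial ^ b / hi ^ b ≤ (2 * (2 * n)).factorial ^ b := Nat.div_le_self _ _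
    _ ≤ 2 ^ ((16 * b ^ 2 + 1) * b) := factorial_pow_le h
    _ < 2 ^ ((16 * b ^ 2 + 1) * b + 1) := Nat.pow_lt_pow_right (by norm_num) (Nat.lt_succ_self _)

theorem rnd_le {n b : ℕ} (h : n ≤ b) : rnd (2 * (2 * n)) b ≤ (16 * b ^ 2 + 1) * b + 1 := by
  unfold rnd
  apply bits_length_le_of_lt
  calc (2 * (2 * n)).factorial ^ b ≤ 2 ^ ((16 * b ^ 2 + 1) * b) := factorial_pow_le h
    _ < 2 ^ ((16 * b ^ 2 + 1) * b + 1) := Nat.pow_lt_pow_right (by norm_num) (Nat.lt_succ_self _)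

/-- the bound for the length of the hash functions -/
noncomputable def hPoly : Polynomial ℕ :=
  (((16 * Polynomial.X ^ 2 + 1) * Polynomial.X + 1) + 1) * (Polynomial.X * (4 * Polynomial.X *
    (4 * Polynomial.X * (2 * Polynomial.X + 3))))

theorem hlen_le {n b : ℕ} (hi : ℕ) (h : n ≤ b) :
    hlen (2 * (2 * n)) (2 * n + 3) b hi ≤ hPoly.eval b := by
  unfold hPoly
  simp only [Polynomial.eval_mul, Polynomial.eval_add, Polynomial.eval_X, Polynomial.eval_pow,
    Polynomial.eval_ofNat, Polynomial.eval_one]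
  unfold hlen blen
  have h1 := beta_le hi h
  exact Nat.mul_le_mul (by omega) (Nat.mul_le_mul_left _ (Nat.mul_le_mul (by omega)
      (Nat.mul_le_mul (by omega) (by omega))))

theorem sz_list_le {L : List ℕ} {b : ℕ} (hl : L.length ≤ 2 * b) (h : ∀ x ∈ L, x < 2 * b) :
    sz L ≤ 16 * b ^ 2 + 4 * b + 1 := by
  have h1 := sz_le_length_mul L (4 * (2 * b) + 1) (fun x hx => sz_le_of_lt (h x hx))
  have h2 : L.length * (4 * (2 * b) + 1 + 1) ≤ 2 * b * (4 * (2 * b) + 1 + 1) :=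
    Nat.mul_le_mul_right _ hl
  have h3 : 2 * b * (4 * (2 * b) + 1 + 1) = 16 * b ^ 2 + 4 * b := by ring
  omega

theorem sz_omOf_le {e : ℕ → ℕ → List Bool} {m b : ℕ} (hm : m ≤ 4 * b) :
    sz (omOf e m) ≤ 64 * b ^ 2 + 8 * b + 1 := by
  have h1 := sz_le_length_mul (omOf e m) (4 * (4 * b) + 1) (by
    intro r hr
    unfold omOf at hr
    rw [List.mem_map] at hr
    obtain ⟨i, _, rfl⟩ := hr
    have h2 := sz_listBool_le ((List.range m).map fun u => orbB e m i u)
    rw [List.length_map, List.length_range] at h2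
    omega)
  rw [omOf_length] at h1
  have h2 : m * (4 * (4 * b) + 1 + 1) ≤ 4 * b * (4 * (4 * b) + 1 + 1) := Nat.mul_le_mul_right _ hm
  have h3 : 4 * b * (4 * (4 * b) + 1 + 1) = 64 * b ^ 2 + 8 * b := by ring
  omega

/-- the bound for the number of bits per block -/
noncomputable def bPoly : Polynomial ℕ := (16 * Polynomial.X ^ 2 + 1) * Polynomial.X + 1

/-- the bound for the quotient of the length of the strings and of the number of blocks -/
noncomputable def yPoly : Polynomial ℕ := hPoly + bPoly + 1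

theorem xlen_le {n b q : ℕ} (hi : ℕ) (h : n ≤ b) (hq : 0 < q) :
    xlen (2 * (2 * n)) (2 * n + 3) b q hi ≤ q * yPoly.eval b := by
  unfold xlen yPoly
  have h1 := hlen_le hi h
  have h2 : beta (2 * (2 * n)) b hi ≤ bPoly.eval b := by
    unfold bPoly
    simpa using beta_le hi h
  simp only [Polynomial.eval_add, Polynomial.eval_one]
  have h3 : hPoly.eval b ≤ q * hPoly.eval b := Nat.le_mul_of_pos_left _ hq
  have h4 : q * (beta (2 * (2 * n)) b hi + 1) ≤ q * (bPoly.eval b + 1) :=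
    Nat.mul_le_mul_left _ (by omega)
  have h5 : q * (hPoly.eval b + bPoly.eval b + 1) =
      q * hPoly.eval b + q * (bPoly.eval b + 1) := by ring
  omega

/-- `A` contains no string `x` with `KT(x) ≤ |x| - |x| ^ ((k - 1) / k)` -/
def Avoids (U : Machine) (A : List Bool → Bool) (k N₀ : ℕ) : Prop :=
  ∀ x : List Bool, N₀ ≤ x.length → A x = true → ∀ n s : ℕ, U.KT x ≤ (n : ℕ∞) →
    n + s ≤ x.length → s ^ k < x.length ^ (k - 1)

/-- the parameters can be chosen such that the strings made from structures with many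
automorphisms do not belong to `A` -/
theorem exists_params {U : Machine} (hU : U.Universal) {A : List Bool → Bool} {k N₀ : ℕ}
    (hk : 0 < k) (hA : Avoids U A k N₀) (D : Polynomial ℕ) : ∃ (Q : Polynomial ℕ) (C : ℕ),
    ∀ b ≥ C, N₀ ≤ b ∧ b ≤ Q.eval b ∧ 0 < Q.eval b ∧
      256 * (Q.eval b * (D.comp (Q * yPoly)).eval b) ^ 2 * 4 ^ b ≤ 5 ^ b ∧
      ∀ (p : SArg) (hi : ℕ), 0 < hi → hi ≤ autC (entB p) (2 * (2 * p.1.1.length)) →
        sz p.1 ≤ b → p.2.1.length ≤ 2 * p.1.1.length → p.2.2.length ≤ 2 * p.1.1.length →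
        (∀ x ∈ p.2.1, x < 2 * p.1.1.length) → (∀ x ∈ p.2.2, x < 2 * p.1.1.length) →
        ∀ w : List Bool,
        tlen (2 * (2 * p.1.1.length)) (2 * p.1.1.length + 3) b (Q.eval b) hi ≤ w.length →
        A (trial (entB p) (2 * (2 * p.1.1.length)) (2 * p.1.1.length + 3) b (Q.eval b)
          hi w) = false := by
  obtain ⟨P, hP⟩ := KT_trial hU
  set βp : Polynomial ℕ := bPoly with hβp
  set S : Polynomial ℕ := 160 * Polynomial.X ^ 2 + 30 * Polynomial.X + 30 + 5 * hPoly + βp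
    with hS
  set Q : Polynomial ℕ := 2 * (P.comp S + 1) + 2 ^ k * yPoly ^ (k - 1) + Polynomial.X with hQ
  obtain ⟨C₁, hC₁⟩ := exists_le_pow (256 * (Q * D.comp (Q * yPoly)) ^ 2)
  obtain ⟨C₂, hC₂⟩ := exists_le_pow (Q ^ 2)
  refine ⟨Q, max (max C₁ C₂) N₀, fun b hb => ?_⟩
  have hb1 : C₁ ≤ b := (le_max_left _ _).trans ((le_max_left _ _).trans hb)
  have hb2 : C₂ ≤ b := (le_max_right _ _).trans ((le_max_left _ _).trans hb)
  have hN : N₀ ≤ b := (le_max_right _ _).trans hb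
  have hQe : Q.eval b = 2 * (P.eval (S.eval b) + 1) + 2 ^ k * yPoly.eval b ^ (k - 1) + b := by
    rw [hQ]
    simp only [Polynomial.eval_add, Polynomial.eval_mul, Polynomial.eval_comp,
      Polynomial.eval_one, Polynomial.eval_ofNat, Polynomial.eval_pow, Polynomial.eval_X]
  have hbq : b ≤ Q.eval b := by rw [hQe]; omega
  have hq0 : 0 < Q.eval b := by rw [hQe]; omega
  have hq2 : 256 * (Q.eval b * (D.comp (Q * yPoly)).eval b) ^ 2 * 4 ^ b ≤ 5 ^ b := by
    have := hC₁ b hb1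
    simpa using this
  have hq3 : Q.eval b ^ 2 * 4 ^ b ≤ 5 ^ b := by
    have := hC₂ b hb2
    simpa using this
  refine ⟨hN, hbq, hq0, hq2, ?_⟩
  intro p hi h0 h hsz hl1 hl2 hL1 hL2 w hw
  set q := Q.eval b with hq
  have h1 := hP p hi h0 h b q w hw
  have htl := trial_length (entB p) _ _ b q hi w hw
  set n := p.1.1.length with hn
  have hnb : n ≤ b := by
    have e1 := length_lt_sz p.1.1
    have e2 : sz p.1 = sz p.1.1 + sz p.1.2 + 1 := sz_pair p.1.1 p.1.2
    omega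
  have hqb : q < 2 ^ (b + 1) := by
    have e1 : q ≤ q ^ 2 := Nat.le_self_pow (by norm_num) q
    have e2 : (5 : ℕ) ^ b ≤ 8 ^ b := Nat.pow_le_pow_left (by norm_num) b
    have e3 : (8 : ℕ) ^ b = 2 ^ b * 4 ^ b := by rw [← mul_pow]; norm_num
    have e4 : q ^ 2 * 4 ^ b ≤ 2 ^ b * 4 ^ b := by
      rw [← e3]
      exact hq3.trans e2
    have e5 : q ^ 2 ≤ 2 ^ b := Nat.le_of_mul_le_mul_right e4 (by positivity)
    have e6 : 0 < 2 ^ b := by positivity
    have e7 : 2 ^ (b + 1) = 2 * 2 ^ b := by rw [pow_succ]; ring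
    omega
  have hβ : beta (2 * (2 * n)) b hi ≤ βp.eval b := by
    rw [hβp]
    unfold bPoly
    simpa using beta_le hi hnb
  have hhl := hlen_le hi hnb
  have hxl : (xlen (2 * (2 * n)) (2 * n + 3) b q hi + 1).bits.length ≤
      b + hPoly.eval b + βp.eval b + 3 := by
    apply bits_length_le_of_lt
    have h3 : xlen (2 * (2 * n)) (2 * n + 3) b q hi + 1 ≤
        2 ^ (b + 1) * (hPoly.eval b + βp.eval b + 2) := by
      unfold xlen
      have h4 : q * (beta (2 * (2 * n)) b hi + 1) ≤ 2 ^ (b + 1) * (βp.eval b + 1) :=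
        Nat.mul_le_mul hqb.le (by omega)
      have h5 : hlen (2 * (2 * n)) (2 * n + 3) b hi + 1 ≤ 2 ^ (b + 1) * (hPoly.eval b + 1) := by
        have : 1 * (hPoly.eval b + 1) ≤ 2 ^ (b + 1) * (hPoly.eval b + 1) :=
          Nat.mul_le_mul_right _ Nat.one_le_two_pow
        omega
      have h6 : 2 ^ (b + 1) * (hPoly.eval b + βp.eval b + 2) =
          2 ^ (b + 1) * (hPoly.eval b + 1) + 2 ^ (b + 1) * (βp.eval b + 1) := by ring
      omega
    refine lt_of_le_of_lt h3 ?_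
    rw [show b + hPoly.eval b + βp.eval b + 3 = (b + 1) + (hPoly.eval b + βp.eval b + 2) by ring,
      pow_add 2 (b + 1)]
    exact Nat.mul_lt_mul_of_pos_left Nat.lt_two_pow_self (by positivity)
  have hθ : sz (prm p b q hi w) ≤ 160 * b ^ 2 + 28 * b + 27 + 4 * hPoly.eval b := by
    unfold prm
    rw [← hn]
    have e0 : sz p = sz p.1 + (sz p.2.1 + sz p.2.2 + 1) + 1 := by
      rw [← sz_pair p.2.1 p.2.2, ← sz_pair p.1]
    simp only [sz_pair]
    rw [e0]
    have e1 := sz_list_le (b := b) (L := p.2.1) (by omega) (fun x hx => by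
      have := hL1 x hx
      omega)
    have e2 := sz_list_le (b := b) (L := p.2.2) (by omega) (fun x hx => by
      have := hL2 x hx
      omega)
    have e3 := sz_omOf_le (e := entB p) (m := 2 * (2 * n)) (b := b) (by omega)
    have e7 := sz_listBool_le (List.replicate b true)
    rw [List.length_replicate] at e7
    have e8 := sz_listBool_le (w.take (hlen (2 * (2 * n)) (2 * n + 3) b hi))
    rw [List.length_take] at e8
    have e9 : min (hlen (2 * (2 * n)) (2 * n + 3) b hi) w.length ≤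
      hlen (2 * (2 * n)) (2 * n + 3) b hi := min_le_left _ _
    have e10 : sz q ≤ 4 * (b + 1) + 1 := sz_le_of_lt_pow hqb
    have e11 : sz hi ≤ 4 * (16 * b ^ 2 + 1) + 1 := by
      apply sz_le_of_lt_pow
      have f1 := psquare_bound (2 * (2 * n)) (4 * b) (by omega)
      have f2 : 4 * b * (4 * b) + 1 = 16 * b ^ 2 + 1 := by ring
      rw [f2] at f1
      exact lt_of_le_of_lt (h.trans (autC_le _ _)) f1
    omega
  set G := P.eval (sz (prm p b q hi w) +
            (xlen (2 * (2 * n)) (2 * n + 3) b q hi + 1).bits.length) with hG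
  have h3 : G ≤ P.eval (S.eval b) := by
    have hSe : S.eval b = 160 * b ^ 2 + 30 * b + 30 + 5 * hPoly.eval b + βp.eval b := by
      rw [hS]
      simp only [Polynomial.eval_add, Polynomial.eval_mul, Polynomial.eval_X,
        Polynomial.eval_ofNat, Polynomial.eval_pow]
    refine eval_mono P ?_
    rw [hSe]
    omega
  by_contra hne
  rw [Bool.not_eq_false] at hne
  have hL : xlen (2 * (2 * n)) (2 * n + 3) b q hi =
      hlen (2 * (2 * n)) (2 * n + 3) b hi + (q * beta (2 * (2 * n)) b hi + q) := by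
    unfold xlen
    ring
  have h5 := hA _ (by rw [htl, hL]; omega) hne _ (q - G) h1 (by
    rw [htl, hL]
    omega)
  rw [htl] at h5
  have h6 : q ≤ 2 * (q - G) := by omega
  have h7 : xlen (2 * (2 * n)) (2 * n + 3) b q hi ≤ q * yPoly.eval b := xlen_le hi hnb hq0
  have h8 : 2 ^ k * xlen (2 * (2 * n)) (2 * n + 3) b q hi ^ (k - 1) ≤ 2 ^ k * (q - G) ^ k := by
    calc 2 ^ k * xlen (2 * (2 * n)) (2 * n + 3) b q hi ^ (k - 1)
        ≤ 2 ^ k * (q * yPoly.eval b) ^ (k - 1) :=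
          Nat.mul_le_mul_left _ (Nat.pow_le_pow_left h7 _)
      _ = q ^ (k - 1) * (2 ^ k * yPoly.eval b ^ (k - 1)) := by rw [mul_pow]; ring
      _ ≤ q ^ (k - 1) * q := Nat.mul_le_mul_left _ (by omega)
      _ = q ^ k := by rw [← pow_succ]; congr 1; omega
      _ ≤ (2 * (q - G)) ^ k := Nat.pow_le_pow_left h6 _
      _ = 2 ^ k * (q - G) ^ k := mul_pow _ _ _
  have h9 := Nat.le_of_mul_le_mul_left h8 (by positivity)
  omega

end Pool.Agent.TH677.GI
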