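import Pool.Agent.TH677.GI.Alg
import Pool.Agent.TH677.GA.Final

/-!
# Graph Isomorphism is in `ZPP` relative to the KT-random strings
-/

set_option autoImplicit false
set_option linter.unusedVariables false

namespace Pool.Agent.TH677.GI

open Pool.Agent.NPC Pool.Agent.H622R2 Pool.Agent.TH677.GA
open Pool.Agent.H620R2.Gauge (Oracle IsFP IsZPP)

/-- The problem Graph Isomorphism (GI): the codes of the pairs of adjacency matrices of isomorphic
finite simple graphs. -/
def GraphIso : Set (List Bool) :=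
  {x | ∃ (n m : ℕ) (G : SimpleGraph (Fin n)) (H : SimpleGraph (Fin m)),
    x = bits (adjRows G, adjRows H) ∧ Nonempty (G ≃g H)}

theorem decG_bits (r : List (List Bool) × List (List Bool)) : decG (bits r) = r := by
  unfold decG
  rw [unbits_bits]

theorem exists_graph {r : List (List Bool)} (h : okG r = true) {n : ℕ} (hn : r.length = n) :
    ∃ H : SimpleGraph (Fin n), adjRows H = r := by
  subst hn
  exact ⟨graphOf r h, adjRows_graphOf r h⟩

/-- membership in the language, in terms of the matrices -/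
theorem mem_graphIso_iff {x : List Bool} : x ∈ GraphIso ↔
    unbits (List (List Bool) × List (List Bool)) x ≠ none ∧ okG (decG x).1 = true ∧
      okG (decG x).2 = true ∧ (decG x).1.length = (decG x).2.length ∧
      Iso (entry (decG x).1) (entry (decG x).2) (decG x).1.length := by
  constructor
  · rintro ⟨n, m, G, H, rfl, ⟨φ⟩⟩
    rw [unbits_bits, decG_bits]
    refine ⟨by simp, okG_adjRows G, okG_adjRows H, ?_, ?_⟩
    · have h := Fintype.card_congr φ.toEquiv
      rw [Fintype.card_fin, Fintype.card_fin] at h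
      simp only [adjRows_length]
      exact h
    · have hnm : n = m := by
        have h := Fintype.card_congr φ.toEquiv
        rwa [Fintype.card_fin, Fintype.card_fin] at h
      subst hnm
      have key : ∀ (k : ℕ) (hk : k = n), Iso (entry (adjRows G)) (entry (adjRows H)) k := by
        rintro k rfl
        refine ⟨φ.toEquiv, fun s t => ?_⟩
        rw [Bool.eq_iff_iff, entry_adjRows, entry_adjRows]
        exact φ.map_adj_iff
      exact key _ (adjRows_length G)
  · rintro ⟨h1, h2, h3, h4, τ, hτ⟩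
    obtain ⟨G, hG⟩ := exists_graph h2 rfl
    obtain ⟨H, hH⟩ := exists_graph h3 h4.symm
    refine ⟨_, _, G, H, ?_, ⟨⟨τ, ?_⟩⟩⟩
    · rw [hG, hH]
      unfold decG
      cases hu : unbits (List (List Bool) × List (List Bool)) x with
      | none => exact absurd hu h1
      | some r => exact (bits_of_unbits hu).symm
    · intro s t
      rw [← entry_adjRows, ← entry_adjRows, hG, hH]
      have h5 := hτ s t
      rw [Bool.eq_iff_iff] at h5
      exact h5

theorem sz_decG {x : List Bool}
    (h : unbits (List (List Bool) × List (List Bool)) x ≠ none) : sz (decG x) = x.length := by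
  unfold decG
  cases hu : unbits (List (List Bool) × List (List Bool)) x with
  | none => exact absurd hu h
  | some r =>
    have h1 := bits_of_unbits hu
    simp only
    rw [← bits_length, h1]

/-- the number of the random bits -/
noncomputable def rbits (Q W : Polynomial ℕ) (C : ℕ) : Polynomial ℕ :=
  (W * rPoly Q).comp (Polynomial.X + (C : Polynomial ℕ))

theorem rbits_eval (Q W : Polynomial ℕ) (C : ℕ) (w x : List Bool) :
    (rbits Q W C).eval x.length = KX W C (w, x) * rX Q C (w, x) := by
  unfold rbits KX rX bX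
  simp only [Polynomial.eval_mul, Polynomial.eval_add, Polynomial.eval_comp, Polynomial.eval_X,
    Polynomial.eval_natCast, Nat.cast_id]

theorem tlen_le {n b : ℕ} (q hi : ℕ) (Q : Polynomial ℕ) (h : n ≤ b) (hq : q = Q.eval b) :
    tlen (2 * (2 * n)) (2 * n + 3) b q hi ≤ (rPoly Q).eval b := by
  unfold tlen rPoly
  rw [Polynomial.eval_add, Polynomial.eval_mul]
  refine Nat.add_le_add (hlen_le hi h) ?_
  rw [hq]
  refine Nat.mul_le_mul_left _ ?_
  simp only [Polynomial.eval_mul, Polynomial.eval_add, Polynomial.eval_X, Polynomial.eval_pow,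
    Polynomial.eval_ofNat, Polynomial.eval_one]
  exact rnd_le h

/-- the codes of length at most `B`, decoded -/
def triples (B : ℕ) : Finset (List ℕ × List ℕ × ℕ) :=
  ((Finset.range (B + 1)).biUnion Bits).image
    (fun y => (unbits (List ℕ × List ℕ × ℕ) y).getD ([], [], 0))

theorem mem_triples {B : ℕ} {t : List ℕ × List ℕ × ℕ} (h : sz t ≤ B) : t ∈ triples B := by
  unfold triples
  rw [Finset.mem_image]
  refine ⟨bits t, ?_, by rw [unbits_bits]; rfl⟩
  rw [Finset.mem_biUnion]
  exact ⟨sz t, Finset.mem_range.2 (by omega), mem_Bits.2 rfl⟩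

theorem card_triples (B : ℕ) : (triples B).card ≤ 2 ^ (B + 1) := by
  unfold triples
  refine Finset.card_image_le.trans (Finset.card_biUnion_le.trans ?_)
  simp only [card_Bits]
  rw [Nat.geomSum_eq le_rfl]
  simp

theorem small_error {D : ℕ} (hD : 0 < D) (B : ℕ) :
    (2 : ℝ) ^ (B + 1) * (1 - 1 / (2 * D)) ^ (2 * D * (B + 2)) ≤ 1 / 2 := by
  have hDr : (1 : ℝ) ≤ D := by exact_mod_cast hD
  have h0 : (0 : ℝ) ≤ 1 - 1 / (2 * D) := by
    rw [sub_nonneg, div_le_one (by positivity)]
    linarith
  have h1 : (1 - 1 / (2 * (D : ℝ))) ^ (2 * D) ≤ 1 / 2 := by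
    have h2 : (1 - 1 / (2 * (D : ℝ))) ≤ Real.exp (-(1 / (2 * D))) := by
      have := Real.add_one_le_exp (-(1 / (2 * (D : ℝ))))
      linarith
    refine (pow_le_pow_left₀ h0 h2 _).trans ?_
    rw [← Real.exp_nat_mul]
    have h3 : ((2 * D : ℕ) : ℝ) * (-(1 / (2 * D))) = -1 := by
      push_cast
      field_simp
    rw [h3, Real.exp_neg, ← one_div]
    apply one_div_le_one_div_of_le (by norm_num)
    have := Real.exp_one_gt_d9
    linarith
  have h2 : (1 - 1 / (2 * (D : ℝ))) ^ (2 * D * (B + 2)) ≤ (1 / 2) ^ (B + 2) := by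
    rw [pow_mul]
    exact pow_le_pow_left₀ (by positivity) h1 _
  calc (2 : ℝ) ^ (B + 1) * (1 - 1 / (2 * D)) ^ (2 * D * (B + 2)) ≤
        2 ^ (B + 1) * (1 / 2) ^ (B + 2) := mul_le_mul_of_nonneg_left h2 (by positivity)
    _ = 1 / 2 := by
      rw [pow_succ (1 / 2 : ℝ) (B + 1), ← mul_assoc, ← mul_pow]
      norm_num

theorem prob_const {V : List Bool → List Bool} {T : ℕ} {x : List Bool} {z : List Bool}
    (hz : z = [true] ∨ z = [false]) (h : ∀ w, V (pairBits w x) = z) :
    (1 : ℝ) / 2 ≤ (Nat.card {w : Fin T → Bool //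
      V (pairBits (List.ofFn w) x) = [true] ∨ V (pairBits (List.ofFn w) x) = [false]} : ℝ) /
      2 ^ T := by
  classical
  rw [natCard_eq_filter T (fun w => V (pairBits w x) = [true] ∨ V (pairBits w x) = [false]),
    Finset.filter_true_of_mem (fun w _ => by rw [h]; exact hz), card_Bits]
  push_cast
  rw [div_self (by positivity)]
  norm_num

/-- the algorithm on raw strings -/
noncomputable def algV (A : Oracle) (Q W : Polynomial ℕ) (C : ℕ) (z : List Bool) : List Bool :=
  algG A Q W C (unpair z)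

theorem algV_pair (A : Oracle) (Q W : Polynomial ℕ) (C : ℕ) (w x : List Bool) :
    algV A Q W C (pairBits w x) = algG A Q W C (w, x) := by
  unfold algV
  rw [unpair_pairBits]

/-- Graph Isomorphism is in `ZPP` relative to every dense set without compressible strings. -/
theorem graphIso_isZPP_of {U : Machine} (hU : U.Universal) {A : Oracle} {k N₀ : ℕ} (hk : 0 < k)
    (hA : Avoids U A k N₀) (D₀ : Polynomial ℕ) (hD : ∀ N ≥ N₀, (2 : ℝ) ^ N ≤
      D₀.eval N * ∑ x ∈ Bits N, if A x = true then (1 : ℝ) else 0) : IsZPP A GraphIso := by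
  classical
  set D₁ : Polynomial ℕ := D₀ + 1 with hD₁
  obtain ⟨Q, C, hQC⟩ := exists_params hU hk hA D₁
  set W : Polynomial ℕ := 2 * D₁.comp (Q * yPoly) *
    (96 * Polynomial.X ^ 2 + 8 * Polynomial.X + 11) with hW
  refine ⟨algV A Q W C, rbits Q W C, isFP_algG Q W C A, fun x => ?_⟩
  set T := (rbits Q W C).eval x.length with hT
  have hV : ∀ w, algV A Q W C (pairBits w x) = algG A Q W C (w, x) :=
    fun w => algV_pair A Q W C w x
  by_cases hu : unbits (List (List Bool) × List (List Bool)) x = none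
  · have h1 : ∀ w, algV A Q W C (pairBits w x) = [false] := by
      intro w
      rw [hV]
      unfold algG
      rw [if_pos (by rw [hu]; rfl)]
    have hx : x ∉ GraphIso := fun h => (mem_graphIso_iff.1 h).1 hu
    refine ⟨fun w _ => ⟨fun h => ?_, fun _ => hx⟩, prob_const (V := algV A Q W C) (z := [false]) (Or.inr rfl) h1⟩
    rw [h1] at h; exact absurd h (by simp)
  have hu' : ¬ (unbits (List (List Bool) × List (List Bool)) x).isNone = true := by
    rw [Option.isNone_iff_eq_none]; exact hu
  by_cases hok : (okG (decG x).1 && okG (decG x).2) = true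
  swap
  · have h1 : ∀ w, algV A Q W C (pairBits w x) = [false] := by
      intro w
      rw [hV]
      unfold algG
      rw [if_neg hu', if_pos (by simpa using hok)]
    have hx : x ∉ GraphIso := fun h => hok (by
      rw [(mem_graphIso_iff.1 h).2.1, (mem_graphIso_iff.1 h).2.2.1]; rfl)
    refine ⟨fun w _ => ⟨fun h => ?_, fun _ => hx⟩, prob_const (V := algV A Q W C) (z := [false]) (Or.inr rfl) h1⟩
    rw [h1] at h; exact absurd h (by simp)
  have hok' : ¬ (okG (decG x).1 && okG (decG x).2) = false := by rw [hok]; simp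
  by_cases hlen : (decG x).1.length = (decG x).2.length
  swap
  · have h1 : ∀ w, algV A Q W C (pairBits w x) = [false] := by
      intro w
      rw [hV]
      unfold algG
      rw [if_neg hu', if_neg hok', if_pos hlen]
    have hx : x ∉ GraphIso := fun h => hlen (mem_graphIso_iff.1 h).2.2.2.1
    refine ⟨fun w _ => ⟨fun h => ?_, fun _ => hx⟩, prob_const (V := algV A Q W C) (z := [false]) (Or.inr rfl) h1⟩
    rw [h1] at h; exact absurd h (by simp)
  rw [Bool.and_eq_true] at hok
  have hmem : x ∈ GraphIso ↔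
      Iso (entry (decG x).1) (entry (decG x).2) (decG x).1.length := by
    rw [mem_graphIso_iff]
    exact ⟨fun h => h.2.2.2.2, fun h => ⟨hu, hok.1, hok.2, hlen, h⟩⟩
  by_cases h0 : (decG x).1.length = 0
  · have h1 : ∀ w, algV A Q W C (pairBits w x) = [true] := by
      intro w
      rw [hV]
      unfold algG
      rw [if_neg hu', if_neg hok', if_neg (not_not.2 hlen), if_pos h0]
    have hx : x ∈ GraphIso := by
      rw [hmem, h0]
      exact ⟨1, fun s => s.elim0⟩
    refine ⟨fun w _ => ⟨fun _ => hx, fun h => ?_⟩, prob_const (V := algV A Q W C) (z := [true]) (Or.inl rfl) h1⟩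
    rw [h1] at h; exact absurd h (by simp)
  have hV' : ∀ w, algV A Q W C (pairBits w x) =
      resX A Q W C (w, x) := by
    intro w
    rw [hV]
    unfold algG
    rw [if_neg hu', if_neg hok', if_neg (not_not.2 hlen), if_neg h0]
  set r₀ := (decG x).1 with hr₀
  set r₁ := (decG x).2 with hr₁
  set n := r₀.length with hn
  have hn0 : 0 < n := Nat.pos_of_ne_zero h0
  set g := twoG (entry r₀) (entry r₁) n with hg
  set b := x.length + C with hb
  set q := Q.eval b with hq
  set B := 96 * b ^ 2 + 8 * b + 9 with hB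
  set D := (D₁.comp (Q * yPoly)).eval b with hDdef
  have hDpos : 0 < D := by
    rw [hDdef, hD₁]
    simp
  set K := W.eval b with hK
  have hKB : K = 2 * D * (B + 2) := by
    rw [hK, hB, hW]
    simp only [Polynomial.eval_add, Polynomial.eval_mul, Polynomial.eval_X,
      Polynomial.eval_ofNat, Polynomial.eval_pow]
    rfl
  set r := (rPoly Q).eval b with hr
  have hTK : T = K * r := by rw [hT, rbits_eval Q W C [] x]; rfl
  obtain ⟨hbN, hbq, hq0, hq2, hrand⟩ := hQC b (Nat.le_add_left _ _)
  rw [← hq] at hbq hq0 hq2 hrand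
  rw [← hDdef] at hq2
  have hszx : sz (decG x) ≤ b := (sz_decG hu).le.trans (Nat.le_add_right _ _)
  have hnb : n ≤ b := by
    have e1 := length_lt_sz r₀
    have e2 : sz (decG x) = sz r₀ + sz r₁ + 1 := sz_pair r₀ r₁
    omega
  have htl : ∀ h : ℕ, tlen (2 * (2 * n)) (2 * n + 3) b q h ≤ r :=
    fun h => tlen_le q h Q hnb rfl
  -- the tests
  have hacc : ∀ (w : List Bool) (L₁ L₂ : List ℕ) (h : ℕ),
      acc A Q W C (w, x) L₁ L₂ h = true ↔ 0 < h ∧ ∃ k < K,
        A (trial (pairE g 2 (2 * n) L₁ L₂) (2 * (2 * n)) (2 * n + 3) b q h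
          (chunk r k w)) = true := by
    intro w L₁ L₂ h
    unfold acc
    rw [Bool.and_eq_true, decide_eq_true_eq, List.any_eq_true]
    refine and_congr_right fun _ => exists_congr fun k => ?_
    rw [List.mem_range]
    exact Iff.rfl
  have hnever : ∀ w : List Bool, w.length = T →
      Never g 2 (2 * n) (acc A Q W C (w, x)) := by
    intro w hw L₁ L₂ hl hlN hL₁ hL₂ h hac
    rw [hacc] at hac
    obtain ⟨hh, k, hk, hac⟩ := hac
    by_contra hle
    rw [not_lt] at hle
    have h1 := hrand (decG x, (L₁, L₂)) h hh hle hszx hlN (hl ▸ hlN : L₂.length ≤ 2 * n) hL₁ hL₂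
      (chunk r k w) (by
        have e1 : (chunk r k w).length = r :=
          chunk_length (j := 0) hk (by rw [hw, hTK, Nat.add_zero])
        rw [e1]
        exact htl h)
    have h2 : entB (decG x, (L₁, L₂)) = pairE g 2 (2 * n) L₁ L₂ := rfl
    rw [h2] at h1
    simp only at h1
    rw [← hr₀, ← hn, hac] at h1
    exact absurd h1 (by simp)
  have hres : ∀ w : List Bool, resX A Q W C (w, x) =
      dec (acc A Q W C (w, x)) g n (2 * n)
        ((stp (acc A Q W C (w, x)) g (2 * n))^[2 * n - 1] [1]) := fun w => rfl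
  refine ⟨fun w hw => ?_, ?_⟩
  · rw [hV', hmem, hres]
    have h1 := dec_correct hn0 (hnever w hw)
    exact ⟨h1.1, h1.2.1⟩
  -- the probability of failure
  set F : Finset (List ℕ × List ℕ × ℕ) := (triples B).filter (fun t =>
    5 * autC (pairE g 2 (2 * n) t.1 t.2.1) (2 * (2 * n)) ≤ 4 * t.2.2 ∧
      t.2.2 ≤ (2 * (2 * n)).factorial) with hF
  have hFcard : (F.card : ℝ) ≤ 2 ^ (B + 1) := by
    have h1 : F.card ≤ 2 ^ (B + 1) := (Finset.card_filter_le _ _).trans (card_triples B)
    exact_mod_cast h1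
  have hbad : ∑ w ∈ Bits T, (if ∃ t ∈ F, ∀ k < K,
      ¬ A (trial (pairE g 2 (2 * n) t.1 t.2.1) (2 * (2 * n)) (2 * n + 3) b q t.2.2
        (chunk r k w)) = true then (1 : ℝ) else 0) ≤ 2 ^ T / 2 := by
    refine (sum_exists_le F T (fun t w => ∀ k < K,
      ¬ A (trial (pairE g 2 (2 * n) t.1 t.2.1) (2 * (2 * n)) (2 * n + 3) b q t.2.2
        (chunk r k w)) = true)).trans ?_
    have h1 : ∀ t ∈ F, ∑ w ∈ Bits T, (if ∀ k < K,
      ¬ A (trial (pairE g 2 (2 * n) t.1 t.2.1) (2 * (2 * n)) (2 * n + 3) b q t.2.2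
        (chunk r k w)) = true then (1 : ℝ) else 0) ≤ (1 - 1 / (2 * (D : ℝ))) ^ K * 2 ^ T := by
      intro t ht
      rw [hF, Finset.mem_filter] at ht
      obtain ⟨_, ht1, ht2⟩ := ht
      have hTK' : T = K * r + 0 := by rw [hTK, Nat.add_zero]
      rw [hTK', sum_chunks (fun u => ¬ A (trial (pairE g 2 (2 * n) t.1 t.2.1)
        (2 * (2 * n)) (2 * n + 3) b q t.2.2 u) = true) r 0 K]
      have hxl : N₀ ≤ xlen (2 * (2 * n)) (2 * n + 3) b q t.2.2 := by
        unfold xlen
        have : q * 1 ≤ q * (beta (2 * (2 * n)) b t.2.2 + 1) :=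
          Nat.mul_le_mul_left _ (by omega)
        omega
      have hdens : (2 : ℝ) ^ xlen (2 * (2 * n)) (2 * n + 3) b q t.2.2 / D ≤
          ∑ y ∈ Bits (xlen (2 * (2 * n)) (2 * n + 3) b q t.2.2),
            if A y = true then (1 : ℝ) else 0 := by
        rw [div_le_iff₀ (by exact_mod_cast hDpos), mul_comm _ (D : ℝ)]
        refine (hD _ hxl).trans (mul_le_mul_of_nonneg_right ?_
          (Finset.sum_nonneg fun _ _ => by split_ifs <;> norm_num))
        have e1 : D₀.eval (xlen (2 * (2 * n)) (2 * n + 3) b q t.2.2) ≤ D := by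
          rw [hDdef, hD₁, Polynomial.eval_comp, Polynomial.eval_add, Polynomial.eval_mul]
          exact (eval_mono D₀ (xlen_le _ hnb hq0)).trans (Nat.le_add_right _ _)
        exact_mod_cast e1
      have h2 := trial_few_long (e := pairE g 2 (2 * n) t.1 t.2.1) (m := 2 * (2 * n))
        (k := 2 * n + 3) (b := b) (q := q) (r := r) (fun s t' => entB_length
          (decG x, (t.1, t.2.1)) s t') ht1 ht2 hq0 hDpos hq2 (htl _)
        (R := fun x => A x = true) hdens
      have h4 : (∑ u ∈ Bits r, if ¬ A (trial (pairE g 2 (2 * n) t.1 t.2.1)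
        (2 * (2 * n)) (2 * n + 3) b q t.2.2 u) = true then (1 : ℝ) else 0) ^ K ≤
          ((1 - 1 / (2 * (D : ℝ))) * 2 ^ r) ^ K := by
        apply pow_le_pow_left₀ _ h2
        exact Finset.sum_nonneg fun _ _ => by split_ifs <;> norm_num
      refine (mul_le_mul_of_nonneg_right h4 (by positivity)).trans (le_of_eq ?_)
      rw [mul_pow, ← pow_mul, pow_add, mul_comm r K]
      ring
    refine (Finset.sum_le_sum h1).trans ?_
    rw [Finset.sum_const, nsmul_eq_mul]
    have h00 : (0 : ℝ) ≤ 1 - 1 / (2 * D) := by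
      have hDr : (1 : ℝ) ≤ D := by exact_mod_cast hDpos
      rw [sub_nonneg, div_le_one (by positivity)]
      linarith
    have h2 : (F.card : ℝ) * ((1 - 1 / (2 * (D : ℝ))) ^ K * 2 ^ T) ≤
        2 ^ (B + 1) * ((1 - 1 / (2 * (D : ℝ))) ^ K * 2 ^ T) :=
      mul_le_mul_of_nonneg_right hFcard (by positivity)
    refine h2.trans ?_
    have h3 := small_error hDpos B
    rw [← hKB] at h3
    have h5 : (0 : ℝ) < 2 ^ T := by positivity
    calc (2 : ℝ) ^ (B + 1) * ((1 - 1 / (2 * (D : ℝ))) ^ K * 2 ^ T) =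
        2 ^ (B + 1) * (1 - 1 / (2 * (D : ℝ))) ^ K * 2 ^ T := by ring
      _ ≤ 1 / 2 * 2 ^ T := mul_le_mul_of_nonneg_right h3 h5.le
      _ = 2 ^ T / 2 := by ring
  rw [natCard_eq_filter T (fun w => algV A Q W C (pairBits w x) = [true] ∨
        algV A Q W C (pairBits w x) = [false]), card_filter_eq_sum]
  rw [div_le_div_iff₀ (by norm_num) (by positivity)]
  have hgood : ∀ w ∈ Bits T, (1 : ℝ) ≤
      (if algV A Q W C (pairBits w x) = [true] ∨
        algV A Q W C (pairBits w x) = [false] then (1 : ℝ) else 0) +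
      (if ∃ t ∈ F, ∀ k < K,
      ¬ A (trial (pairE g 2 (2 * n) t.1 t.2.1) (2 * (2 * n)) (2 * n + 3) b q t.2.2
        (chunk r k w)) = true then (1 : ℝ) else 0) := by
    intro w hw
    rw [mem_Bits] at hw
    by_cases hbw : ∃ t ∈ F, ∀ k < K,
      ¬ A (trial (pairE g 2 (2 * n) t.1 t.2.1) (2 * (2 * n)) (2 * n + 3) b q t.2.2
        (chunk r k w)) = true
    · rw [if_pos hbw]
      have : (0 : ℝ) ≤ if algV A Q W C (pairBits w x) = [true] ∨
        algV A Q W C (pairBits w x) = [false] then (1 : ℝ) else 0 := by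
        split_ifs <;> norm_num
      linarith
    · have hfound : Found g 2 (2 * n) (acc A Q W C (w, x)) := by
        intro L₁ L₂ hl hlN hL₁ hL₂ h hh1 hh2
        rw [hacc]
        refine ⟨by have := autC_pos (pairE g 2 (2 * n) L₁ L₂) (2 * (2 * n)); omega, ?_⟩
        push Not at hbw
        have hmemF : (L₁, L₂, h) ∈ F := by
          rw [hF, Finset.mem_filter]
          refine ⟨mem_triples ?_, hh2, hh1⟩
          rw [sz_pair, sz_pair]
          have e1 := sz_list_le (b := b) (L := L₁) (by omega) (fun y hy => by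
            have := hL₁ y hy
            omega)
          have e2 := sz_list_le (b := b) (L := L₂) (by omega) (fun y hy => by
            have := hL₂ y hy
            omega)
          have e3 : sz h ≤ 4 * (16 * b ^ 2 + 1) + 1 := by
            apply sz_le_of_lt_pow
            have f1 := psquare_bound (2 * (2 * n)) (4 * b) (by omega)
            have f2 : 4 * b * (4 * b) + 1 = 16 * b ^ 2 + 1 := by ring
            rw [f2] at f1
            exact lt_of_le_of_lt hh1 f1
          omega
        obtain ⟨k, hk, h2⟩ := hbw (L₁, L₂, h) hmemF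
        exact ⟨k, hk, h2⟩
      have h1 := (dec_correct hn0 (hnever w hw)).2.2 hfound
      rw [← hres, ← hV'] at h1
      rw [if_pos h1, if_neg hbw]
      norm_num
  have h1 := Finset.sum_le_sum hgood
  rw [sum_Bits_const, Finset.sum_add_distrib] at h1
  linarith

/-! ### the assumptions in terms of real exponents -/

/-- The oracle `A` contains no string `x` of length at least `N₀` with
`KT(x) ≤ |x| - |x| ^ (1 - ε)`. -/
def NoCompressible (U : Machine) (A : Oracle) (ε : ℝ) (N₀ : ℕ) : Prop :=
  ∀ x : List Bool, N₀ ≤ x.length → A x = true → ∀ n : ℕ, U.KT x ≤ (n : ℕ∞) →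
    (x.length : ℝ) - (x.length : ℝ) ^ (1 - ε) < n

/-- At least the fraction `1 / D(N)` of the strings of every length `N ≥ N₀` belongs to the oracle
`A`. -/
def Dense (A : Oracle) (D : Polynomial ℕ) (N₀ : ℕ) : Prop :=
  ∀ N ≥ N₀, 2 ^ N ≤ D.eval N * Nat.card {w : Fin N → Bool // A (List.ofFn w) = true}

theorem avoids_of {U : Machine} {A : Oracle} {ε : ℝ} {N₀ : ℕ} (hε : 0 < ε)
    (h : NoCompressible U A ε N₀) : ∃ k > 0, Avoids U A k (max N₀ 1) := by
  set k := ⌈1 / ε⌉₊ with hk
  have hk0 : 0 < k := Nat.ceil_pos.2 (by positivity)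
  have hkr : (0 : ℝ) < k := by exact_mod_cast hk0
  have hk1 : 1 / (k : ℝ) ≤ ε := by
    have h1 : 1 / ε ≤ k := Nat.le_ceil _
    rw [div_le_iff₀ hε] at h1
    rw [div_le_iff₀ hkr]
    linarith
  refine ⟨k, hk0, fun x hx hAx n s hn hns => ?_⟩
  by_contra hle
  rw [not_lt] at hle
  have hx1 : 1 ≤ x.length := (le_max_right _ _).trans hx
  have hx1' : (1 : ℝ) ≤ x.length := by exact_mod_cast hx1
  have h1 := h x ((le_max_left _ _).trans hx) hAx n hn
  have h2 : (x.length : ℝ) ^ (1 - ε) ≤ s := by
    calc (x.length : ℝ) ^ (1 - ε) ≤ (x.length : ℝ) ^ (1 - 1 / (k : ℝ)) :=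
          Real.rpow_le_rpow_of_exponent_le hx1' (by linarith)
      _ = (((x.length ^ (k - 1) : ℕ) : ℝ)) ^ (1 / (k : ℝ)) := by
          have e1 : (((k - 1 : ℕ) : ℝ)) = (k : ℝ) - 1 := by
            rw [Nat.cast_sub hk0, Nat.cast_one]
          rw [Nat.cast_pow, ← Real.rpow_natCast, ← Real.rpow_mul (by positivity), e1]
          congr 1
          field_simp
      _ ≤ (((s ^ k : ℕ) : ℝ)) ^ (1 / (k : ℝ)) :=
          Real.rpow_le_rpow (by positivity) (by exact_mod_cast hle) (by positivity)
      _ = s := by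
          rw [Nat.cast_pow, ← Real.rpow_natCast, ← Real.rpow_mul (by positivity),
            mul_one_div_cancel hkr.ne', Real.rpow_one]
  have h3 : (n : ℝ) + s ≤ x.length := by exact_mod_cast hns
  linarith

/-- Graph Isomorphism is in `ZPP` relative to every dense set without compressible strings. -/
theorem graphIso_isZPP_dense {U : Machine} (hU : U.Universal) {A : Oracle} {ε : ℝ} (hε : 0 < ε)
    {D : Polynomial ℕ} {N₀ : ℕ} (h1 : NoCompressible U A ε N₀) (h2 : Dense A D N₀) :
    IsZPP A GraphIso := by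
  obtain ⟨k, hk, h3⟩ := avoids_of hε h1
  refine graphIso_isZPP_of hU hk h3 D fun N hN => ?_
  have h4 := h2 N ((le_max_left _ _).trans hN)
  rw [natCard_eq_filter N (fun w => A w = true)] at h4
  rw [← card_filter_eq_sum]
  exact_mod_cast h4

/-- the set of the KT-random strings is dense and contains no compressible strings -/
theorem RKT_dense (U : Machine) (ε : ℝ) : NoCompressible U U.RKT ε 1 ∧ Dense U.RKT 2 1 := by
  constructor
  · intro x hx hAx n hn
    unfold Machine.RKT at hAx
    rw [decide_eq_true_eq] at hAx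
    have h1 : x.length ≤ n := by exact_mod_cast hAx.trans hn
    have h2 : (x.length : ℝ) ≤ n := by exact_mod_cast h1
    have h3 : (0 : ℝ) < x.length := by exact_mod_cast hx
    have h4 : (0 : ℝ) < (x.length : ℝ) ^ (1 - ε) := Real.rpow_pos_of_pos h3 _
    linarith
  · intro N hN
    rw [natCard_eq_filter N (fun w => U.RKT w = true)]
    have h1 := sum_RKT U hN
    rw [← card_filter_eq_sum] at h1
    have h2 : (2 : ℝ) ^ N ≤ 2 * (((Bits N).filter fun w => U.RKT w = true).card : ℝ) := by
      linarith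
    have h3 : 2 ^ N ≤ 2 * ((Bits N).filter fun w => U.RKT w = true).card := by
      exact_mod_cast h2
    simpa using h3

/-- Graph Isomorphism is in `ZPP` relative to the set of the KT-random strings of an arbitrary
universal machine. -/
theorem graphIso_isZPP (U : Machine) (hU : U.Universal) : IsZPP U.RKT GraphIso :=
  graphIso_isZPP_dense hU one_pos (RKT_dense U 1).1 (RKT_dense U 1).2

end Pool.Agent.TH677.GI
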