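import Mathlib

/-!
# Coding the arrangements in which every element comes first in its orbit
-/

set_option autoImplicit false

namespace Pool.Agent.TH677.GI

open Finset

/-- the size of the orbit of `i` -/
def hk (O : ℕ → ℕ → Bool) (m i : ℕ) : ℕ := ((List.range m).filter (O i)).length

/-- removing `i` -/
def del (i : ℕ) (S : List ℕ) : List ℕ := S.filter fun j => decide (j ≠ i)

/-- the elements of `S` that can come first -/
def avail (O : ℕ → ℕ → Bool) (S : List ℕ) : List ℕ :=
  S.filter fun i => S.all fun j => decide (j = i) || !(O j i)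

/-- the number of the arrangements of `S` -/
def cnt (O : ℕ → ℕ → Bool) (m : ℕ) (S : List ℕ) : ℕ :=
  S.length.factorial / (S.map (hk O m)).prod

/-- the element of the list chosen by the number `y`, if the `i`-th one has the weight `c i` -/
def pick (c : ℕ → ℕ) : List ℕ → ℕ → ℕ × ℕ
  | [], y => (0, y)
  | i :: l, y => if y < c i then (i, y) else pick c l (y - c i)

/-- the arrangement with the number `y` -/
def unr (O : ℕ → ℕ → Bool) (m : ℕ) : ℕ → List ℕ → ℕ → List ℕ
  | 0, _, _ => []
  | n + 1, S, y =>
    (pick (fun i => cnt O m (del i S)) (avail O S) y).1 ::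
      unr O m n (del (pick (fun i => cnt O m (del i S)) (avail O S) y).1 S)
        (pick (fun i => cnt O m (del i S)) (avail O S) y).2

/-- the properties of the orbits that are used -/
structure Good (O : ℕ → ℕ → Bool) (m : ℕ) : Prop where
  refl : ∀ i < m, O i i = true
  le : ∀ i u, O i u = true → i ≤ u
  trans : ∀ j i u, O j i = true → O i u = true → O j u = true
  common : ∀ i j u, i ≤ j → O i u = true → O j u = true → O i j = true

/-- the set is a union of orbits -/
def Closed (O : ℕ → ℕ → Bool) (m : ℕ) (S : List ℕ) : Prop :=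
  S.Nodup ∧ (∀ i ∈ S, i < m) ∧ ∀ i ∈ S, ∀ u < m, O i u = true → u ∈ S

theorem mem_del {i j : ℕ} {S : List ℕ} : j ∈ del i S ↔ j ∈ S ∧ j ≠ i := by
  simp [del]

theorem mem_avail {O : ℕ → ℕ → Bool} {S : List ℕ} {i : ℕ} :
    i ∈ avail O S ↔ i ∈ S ∧ ∀ j ∈ S, j ≠ i → O j i = false := by
  unfold avail
  rw [List.mem_filter, List.all_eq_true]
  refine and_congr_right fun _ => forall_congr' fun j => forall_congr' fun _ => ?_
  simp only [Bool.or_eq_true, decide_eq_true_eq, Bool.not_eq_true']
  exact or_iff_not_imp_left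

theorem perm_del {i : ℕ} {S : List ℕ} (hS : S.Nodup) (hi : i ∈ S) :
    S.Perm (i :: del i S) := by
  rw [List.perm_ext_iff_of_nodup hS]
  · intro a
    rw [List.mem_cons, mem_del]
    by_cases h : a = i
    · subst h; simp [hi]
    · simp [h]
  · rw [List.nodup_cons]
    exact ⟨fun h => (mem_del.1 h).2 rfl, hS.filter _⟩

theorem del_length {i : ℕ} {S : List ℕ} (hS : S.Nodup) (hi : i ∈ S) :
    (del i S).length + 1 = S.length := by
  rw [(perm_del hS hi).length_eq, List.length_cons]

theorem prod_del {i : ℕ} {S : List ℕ} (hS : S.Nodup) (hi : i ∈ S) (f : ℕ → ℕ) :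
    (S.map f).prod = f i * ((del i S).map f).prod := by
  rw [((perm_del hS hi).map f).prod_eq, List.map_cons, List.prod_cons]

theorem del_closed {O : ℕ → ℕ → Bool} {m i : ℕ} {S : List ℕ} (h : Closed O m S)
    (hi : i ∈ avail O S) : Closed O m (del i S) := by
  rw [mem_avail] at hi
  refine ⟨h.1.filter _, fun j hj => h.2.1 j (mem_del.1 hj).1, fun j hj u hu hju => ?_⟩
  rw [mem_del] at hj ⊢
  refine ⟨h.2.2 j hj.1 u hu hju, ?_⟩
  rintro rfl
  rw [hi.2 j hj.1 hj.2] at hju
  exact absurd hju (by simp)

/-- the orbits of the elements that can come first are a partition -/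
theorem sum_hk {O : ℕ → ℕ → Bool} {m : ℕ} (hO : Good O m) {S : List ℕ} (h : Closed O m S) :
    ((avail O S).map (hk O m)).sum = S.length := by
  classical
  have hn : (avail O S).Nodup := h.1.filter _
  have h1 : ((avail O S).map (hk O m)).sum = ∑ i ∈ (avail O S).toFinset, hk O m i := by
    rw [List.sum_toFinset _ hn]
  have h2 : ∀ i ∈ (avail O S).toFinset, hk O m i =
      ∑ u ∈ S.toFinset, if O i u = true then 1 else 0 := by
    intro i hi
    rw [List.mem_toFinset, mem_avail] at hi
    rw [sum_boole]
    unfold hk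
    rw [← List.toFinset_card_of_nodup (List.nodup_range.filter _)]
    simp only [Nat.cast_id]
    congr 1
    ext u
    simp only [List.mem_toFinset, List.mem_filter, List.mem_range, mem_filter]
    exact ⟨fun h3 => ⟨h.2.2 i hi.1 u h3.1 h3.2, h3.2⟩, fun h3 => ⟨h.2.1 u h3.1, h3.2⟩⟩
  rw [h1, sum_congr rfl h2, sum_comm, ← List.toFinset_card_of_nodup h.1, card_eq_sum_ones]
  refine sum_congr rfl fun u hu => ?_
  rw [List.mem_toFinset] at hu
  rw [sum_boole]
  simp only [Nat.cast_id]
  rw [card_eq_one]
  -- the first element whose orbit contains `u`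
  have hex : ∃ i, i ∈ S ∧ O i u = true := ⟨u, hu, hO.refl u (h.2.1 u hu)⟩
  obtain ⟨hi1, hi2⟩ := Nat.find_spec hex
  have hmin := fun j (hj : j < Nat.find hex) => Nat.find_min hex hj
  refine ⟨Nat.find hex, ?_⟩
  ext j
  rw [mem_filter, List.mem_toFinset, mem_avail, mem_singleton]
  constructor
  · rintro ⟨⟨h3, h4⟩, h5⟩
    by_contra hne
    have h6 : Nat.find hex ≤ j := by
      by_contra h7
      exact hmin j (not_le.1 h7) ⟨h3, h5⟩
    have h7 := hO.common _ _ _ h6 hi2 h5
    rw [h4 _ hi1 (Ne.symm hne)] at h7
    exact absurd h7 (by simp)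
  · rintro rfl
    refine ⟨⟨hi1, fun j hj hne => ?_⟩, hi2⟩
    by_contra h3
    rw [Bool.not_eq_false] at h3
    have h4 := hO.le _ _ h3
    exact hmin j (lt_of_le_of_ne h4 hne) ⟨hj, hO.trans _ _ _ h3 hi2⟩

theorem hk_pos {O : ℕ → ℕ → Bool} {m i : ℕ} (hO : Good O m) (hi : i < m) : 0 < hk O m i := by
  unfold hk
  apply List.length_pos_of_mem (a := i)
  simp [hi, hO.refl i hi]

theorem prod_pos {O : ℕ → ℕ → Bool} {m : ℕ} (hO : Good O m) {S : List ℕ}
    (h : ∀ i ∈ S, i < m) : 0 < (S.map (hk O m)).prod := by
  apply List.prod_pos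
  intro a ha
  rw [List.mem_map] at ha
  obtain ⟨i, hi, rfl⟩ := ha
  exact hk_pos hO (h i hi)

/-- the recursion for the number of arrangements -/
theorem cnt_spec {O : ℕ → ℕ → Bool} {m : ℕ} (hO : Good O m) : ∀ (n : ℕ) (S : List ℕ),
    S.length = n → Closed O m S → (S.map (hk O m)).prod * cnt O m S = S.length.factorial ∧
      (0 < n → ((avail O S).map fun i => cnt O m (del i S)).sum = cnt O m S) := by
  intro n
  induction n with
  | zero =>
    intro S hS _
    rw [List.length_eq_zero_iff] at hS
    subst hS
    simp [cnt]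
  | succ n ih =>
    intro S hS h
    have hP := prod_pos hO h.2.1
    have key : (S.map (hk O m)).prod * ((avail O S).map fun i => cnt O m (del i S)).sum =
        S.length.factorial := by
      have h1 : (S.map (hk O m)).prod * ((avail O S).map fun i => cnt O m (del i S)).sum =
          ((avail O S).map fun i => n.factorial * hk O m i).sum := by
        rw [← List.sum_map_mul_left]
        congr 1
        apply List.map_congr_left
        intro i hi
        have hiS := (mem_avail.1 hi).1
        have h2 := del_length h.1 hiS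
        have h3 := (ih (del i S) (by omega) (del_closed h hi)).1
        rw [prod_del h.1 hiS]
        have h4 : (del i S).length = n := by omega
        rw [h4] at h3
        rw [mul_assoc, h3, mul_comm]
      rw [h1, List.sum_map_mul_left, sum_hk hO h, hS, Nat.factorial_succ, mul_comm]
    have hc : cnt O m S = ((avail O S).map fun i => cnt O m (del i S)).sum := by
      unfold cnt at key ⊢
      rw [← key]
      exact Nat.mul_div_cancel_left _ hP
    exact ⟨by rw [hc]; exact key, fun _ => hc.symm⟩

theorem pick_surj (c : ℕ → ℕ) : ∀ (l : List ℕ), l.Nodup → ∀ i ∈ l, ∀ y' < c i,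
    ∃ y < (l.map c).sum, pick c l y = (i, y') := by
  intro l
  induction l with
  | nil => intro _ i hi; simp at hi
  | cons a l ih =>
    intro hn i hi y' hy'
    rw [List.nodup_cons] at hn
    rw [List.mem_cons] at hi
    rcases hi with rfl | hi
    · refine ⟨y', ?_, ?_⟩
      · rw [List.map_cons, List.sum_cons]; omega
      · rw [pick, if_pos hy']
    · obtain ⟨y, h1, h2⟩ := ih hn.2 i hi y' hy'
      refine ⟨y + c a, ?_, ?_⟩
      · rw [List.map_cons, List.sum_cons]; omega
      · rw [pick, if_neg (by omega), Nat.add_sub_cancel, h2]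

/-- every arrangement in which the elements come first in their orbits has a number -/
theorem unr_surj {O : ℕ → ℕ → Bool} {m : ℕ} (hO : Good O m) : ∀ (L S : List ℕ),
    Closed O m S → L.Perm S → L.Pairwise (fun i j => O j i = false) →
    ∃ y < cnt O m S, unr O m L.length S y = L := by
  intro L
  induction L with
  | nil =>
    intro S _ hL _
    rw [List.nil_perm] at hL
    subst hL
    exact ⟨0, by simp [cnt], rfl⟩
  | cons i L ih =>
    intro S h hL hp
    rw [List.pairwise_cons] at hp
    have hiS : i ∈ S := hL.mem_iff.1 (by simp)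
    have hav : i ∈ avail O S := by
      rw [mem_avail]
      refine ⟨hiS, fun j hj hne => hp.1 j ?_⟩
      have := hL.mem_iff.2 hj
      rw [List.mem_cons] at this
      exact this.resolve_left hne
    have hL' : L.Perm (del i S) := (hL.trans (perm_del h.1 hiS)).cons_inv
    obtain ⟨y', h1, h2⟩ := ih (del i S) (del_closed h hav) hL' hp.2
    obtain ⟨y, h3, h4⟩ := pick_surj (fun i => cnt O m (del i S)) (avail O S) (h.1.filter _) i hav
      y' h1
    refine ⟨y, ?_, ?_⟩
    · rw [(cnt_spec hO S.length S rfl h).2 (List.length_pos_of_mem hiS)] at h3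
      exact h3
    · rw [List.length_cons, unr, h4]
      simp only
      rw [h2]

theorem closed_range (O : ℕ → ℕ → Bool) (m : ℕ) : Closed O m (List.range m) :=
  ⟨List.nodup_range, fun i hi => List.mem_range.1 hi, fun _ _ u hu _ => List.mem_range.2 hu⟩

end Pool.Agent.TH677.GI
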