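import Pool.Agent.TH677.GI.Chain

/-!
# Two graphs as one structure; the decision
-/

set_option autoImplicit false
set_option linter.unusedVariables false

namespace Pool.Agent.TH677.GI

open Finset Pool.Agent.TH677.GA

/-- two graphs with `n` vertices as a structure on the numbers below `2 n` -/
def twoG (A₀ A₁ : ℕ → ℕ → Bool) (n s t : ℕ) : List Bool :=
  [decide (n ≤ s ↔ n ≤ t), decide (n ≤ s ↔ n ≤ t) &&
    bif decide (n ≤ s) then A₁ (s - n) (t - n) else A₀ s t]

theorem twoG_length (A₀ A₁ : ℕ → ℕ → Bool) (n s t : ℕ) : (twoG A₀ A₁ n s t).length = 2 := rfl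

/-- the graphs are isomorphic -/
def Iso (A₀ A₁ : ℕ → ℕ → Bool) (n : ℕ) : Prop :=
  ∃ τ : Equiv.Perm (Fin n), ∀ x y : Fin n, A₁ (τ x) (τ y) = A₀ x y

theorem twoG_eq_iff {A₀ A₁ : ℕ → ℕ → Bool} {n s t s' t' : ℕ} :
    twoG A₀ A₁ n s t = twoG A₀ A₁ n s' t' ↔ ((n ≤ s ↔ n ≤ t) ↔ (n ≤ s' ↔ n ≤ t')) ∧
      ((n ≤ s ↔ n ≤ t) → (bif decide (n ≤ s) then A₁ (s - n) (t - n) else A₀ s t) =
        (bif decide (n ≤ s') then A₁ (s' - n) (t' - n) else A₀ s' t')) := by
  unfold twoG
  rw [List.cons.injEq, decide_eq_decide, List.cons.injEq]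
  simp only [and_true]
  refine and_congr_right fun h => ?_
  by_cases h1 : n ≤ s ↔ n ≤ t
  · have h2 := h.1 h1
    simp only [h1, h2, decide_true, Bool.true_and, true_implies]
  · have h2 : ¬ (n ≤ s' ↔ n ≤ t') := fun h3 => h1 (h.2 h3)
    simp only [h1, h2, decide_false, Bool.false_and, false_implies]

/-- the automorphisms respect the two sides -/
theorem side_iff {A₀ A₁ : ℕ → ℕ → Bool} {n : ℕ} {σ : Equiv.Perm (Fin (2 * n))}
    (h : AutE (twoG A₀ A₁ n) (2 * n) σ) (s t : Fin (2 * n)) :
    (n ≤ (σ s : ℕ) ↔ n ≤ (σ t : ℕ)) ↔ (n ≤ (s : ℕ) ↔ n ≤ (t : ℕ)) :=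
  (twoG_eq_iff.1 (h s t)).1

/-- an automorphism that moves `0` to the other side gives an isomorphism -/
theorem iso_of_orb {A₀ A₁ : ℕ → ℕ → Bool} {n v : ℕ} (hn : 0 < n)
    (h : Orb (twoG A₀ A₁ n) (2 * n) 0 v) (hv : n ≤ v) : Iso A₀ A₁ n := by
  obtain ⟨h0, σ, h1, _, h3⟩ := h
  have hs : ∀ (x : ℕ) (hx : x < n), n ≤ (σ ⟨x, by omega⟩ : ℕ) := by
    intro x hx
    have h4 := side_iff h1 ⟨x, by omega⟩ ⟨0, h0⟩
    rw [h3] at h4
    simp only at h4
    have h5 : (n ≤ x ↔ n ≤ 0) := by omega
    have h6 := h4.2 h5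
    exact h6.2 hv
  obtain ⟨τ, hτ⟩ := exists_perm (m := n) (p := fun x => act σ x - n) (by
      intro x hx
      rw [act_lt σ (by omega)]
      have := (σ ⟨x, by omega⟩).2
      omega) (by
      intro x hx y hy hxy
      rw [act_lt σ (by omega), act_lt σ (by omega)] at hxy
      have e1 := hs x hx
      have e2 := hs y hy
      have e3 : σ ⟨x, by omega⟩ = σ ⟨y, by omega⟩ := Fin.ext (by omega)
      have e4 := congrArg Fin.val (σ.injective e3)
      exact e4)
  refine ⟨τ, fun x y => ?_⟩
  have hx := x.2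
  have hy := y.2
  rw [hτ, hτ, act_lt σ (by omega), act_lt σ (by omega)]
  have h4 := (twoG_eq_iff.1 (h1 ⟨x, by omega⟩ ⟨y, by omega⟩)).2
    (by have := hs x hx; have := hs y hy; exact ⟨fun _ => this, fun _ => hs x hx⟩)
  have e1 : decide (n ≤ (σ ⟨x, by omega⟩ : ℕ)) = true := decide_eq_true (hs x hx)
  have e2 : decide (n ≤ (x : ℕ)) = false := decide_eq_false (by omega)
  simp only at h4
  rw [e1, e2] at h4
  exact h4

/-- isomorphic graphs give an automorphism that exchanges the two sides -/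
theorem exists_swap {A₀ A₁ : ℕ → ℕ → Bool} {n : ℕ} (h : Iso A₀ A₁ n) :
    ∃ σ : Equiv.Perm (Fin (2 * n)), AutE (twoG A₀ A₁ n) (2 * n) σ ∧
      ∀ s : Fin (2 * n), (n ≤ (σ s : ℕ) ↔ ¬ n ≤ (s : ℕ)) := by
  obtain ⟨τ, hτ⟩ := h
  obtain ⟨σ, hσ⟩ := exists_perm (m := 2 * n)
    (p := fun s => if s < n then act τ s + n else act τ⁻¹ (s - n)) (by
      intro s hs
      by_cases h1 : s < n
      · have := act_le (σ := τ) h1
        simp only [if_pos h1]
        omega
      · have := act_le (σ := τ⁻¹) (show s - n < n by omega)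
        simp only [if_neg h1]
        omega) (by
      intro s hs t ht hst
      by_cases h1 : s < n <;> by_cases h2 : t < n
      · simp only [if_pos h1, if_pos h2] at hst
        rw [act_lt _ h1, act_lt _ h2] at hst
        have h3 : τ ⟨s, h1⟩ = τ ⟨t, h2⟩ := Fin.ext (by omega)
        exact congrArg Fin.val (τ.injective h3)
      · have := act_le (σ := τ⁻¹) (show t - n < n by omega)
        simp only [if_pos h1, if_neg h2] at hst
        omega
      · have := act_le (σ := τ⁻¹) (show s - n < n by omega)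
        simp only [if_pos h2, if_neg h1] at hst
        omega
      · have h3 : s - n < n := by omega
        have h4 : t - n < n := by omega
        simp only [if_neg h1, if_neg h2] at hst
        rw [act_lt _ h3, act_lt _ h4] at hst
        have h5 := congrArg Fin.val (τ⁻¹.injective (Fin.ext hst))
        simp only at h5
        omega)
  have hside : ∀ s : Fin (2 * n), (n ≤ (σ s : ℕ) ↔ ¬ n ≤ (s : ℕ)) := by
    intro s
    rw [hσ]
    have := s.2
    by_cases h1 : (s : ℕ) < n
    · simp only [if_pos h1]; omega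
    · have := act_le (σ := τ⁻¹) (show (s : ℕ) - n < n by omega)
      simp only [if_neg h1]; omega
  refine ⟨σ, fun s t => ?_, hside⟩
  rw [twoG_eq_iff]
  refine ⟨by rw [hside, hside]; exact not_iff_not, fun h1 => ?_⟩
  rw [hside, hside, not_iff_not] at h1
  have hs := s.2
  have ht := t.2
  by_cases h2 : n ≤ (s : ℕ)
  · have h3 := h1.1 h2
    have e1 : decide (n ≤ (σ s : ℕ)) = false := decide_eq_false (by rw [hside]; exact not_not.2 h2)
    have e2 : decide (n ≤ (s : ℕ)) = true := decide_eq_true h2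
    rw [e1, e2, hσ, hσ]
    simp only [cond_false, cond_true, if_neg (not_lt.2 h2), if_neg (not_lt.2 h3)]
    have h4 : (s : ℕ) - n < n := by omega
    have h5 : (t : ℕ) - n < n := by omega
    rw [act_lt _ h4, act_lt _ h5, ← hτ]
    simp
  · have h3 : ¬ n ≤ (t : ℕ) := fun h4 => h2 (h1.2 h4)
    have e1 : decide (n ≤ (σ s : ℕ)) = true := decide_eq_true ((hside s).2 h2)
    have e2 : decide (n ≤ (s : ℕ)) = false := decide_eq_false h2
    rw [e1, e2, hσ, hσ]
    have h4 : (s : ℕ) < n := by omega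
    have h5 : (t : ℕ) < n := by omega
    simp only [cond_false, cond_true, if_pos h4, if_pos h5, Nat.add_sub_cancel]
    rw [act_lt _ h4, act_lt _ h5]
    exact hτ ⟨s, h4⟩ ⟨t, h5⟩

/-- the structure with distinguished sides -/
def sideE (g : ℕ → ℕ → List Bool) (n s t : ℕ) : List Bool := decide (n ≤ s) :: g s t

theorem autE_sideE {g : ℕ → ℕ → List Bool} {n N : ℕ} (hN : 0 < N) {σ : Equiv.Perm (Fin N)} :
    AutE (sideE g n) N σ ↔ AutE g N σ ∧ ∀ s : Fin N, (n ≤ (σ s : ℕ) ↔ n ≤ (s : ℕ)) := by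
  unfold AutE sideE
  simp only [List.cons.injEq, decide_eq_decide]
  exact ⟨fun h => ⟨fun s t => (h s t).2, fun s => (h s ⟨0, hN⟩).1⟩,
    fun h s t => ⟨h.2 s, h.1 s t⟩⟩

/-- the orbits found are orbits of the structure with distinguished sides -/
theorem orb_sideE {A₀ A₁ : ℕ → ℕ → Bool} {n i u : ℕ} (hn : 0 < n)
    (h : Orb (twoG A₀ A₁ n) (2 * n) i u) (hu : i = 0 → u < n) :
    Orb (sideE (twoG A₀ A₁ n) n) (2 * n) i u := by
  obtain ⟨hi, σ, h1, h2, h3⟩ := h
  refine ⟨hi, σ, (autE_sideE (by omega)).2 ⟨h1, fun s => ?_⟩, h2, h3⟩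
  have h0 : (σ ⟨0, by omega⟩ : ℕ) < n := by
    rcases Nat.eq_zero_or_pos i with h4 | h4
    · subst h4
      have h5 : (σ ⟨0, by omega⟩ : ℕ) = u := h3
      rw [h5]
      exact hu rfl
    · rw [h2 ⟨0, by omega⟩ h4]
      exact hn
  have h4 := side_iff h1 s ⟨0, by omega⟩
  have h5 : ¬ n ≤ (σ ⟨0, by omega⟩ : ℕ) := by omega
  have h6 : ¬ n ≤ ((⟨0, by omega⟩ : Fin (2 * n)) : ℕ) := by simp only; omega
  tauto

/-- if the graphs are isomorphic, at most half of the automorphisms respect the sides -/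
theorem two_mul_le {A₀ A₁ : ℕ → ℕ → Bool} {n : ℕ} (hn : 0 < n) (h : Iso A₀ A₁ n) :
    2 * autC (sideE (twoG A₀ A₁ n) n) (2 * n) ≤ autC (twoG A₀ A₁ n) (2 * n) := by
  classical
  obtain ⟨ρ, h1, h2⟩ := exists_swap h
  unfold autC
  have h3 : 2 * (autF (sideE (twoG A₀ A₁ n) n) (2 * n) 0).card =
      ((univ : Finset Bool) ×ˢ autF (sideE (twoG A₀ A₁ n) n) (2 * n) 0).card := by
    rw [card_product]; rfl
  rw [h3]
  apply card_le_card_of_injOn (fun p => if p.1 = true then ρ * p.2 else p.2)
  · rintro ⟨β, σ⟩ hp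
    rw [mem_coe, mem_product, mem_autF, autE_sideE (by omega)] at hp
    rw [mem_coe, mem_autF]
    refine ⟨?_, fun c hc => absurd hc (Nat.not_lt_zero _)⟩
    cases β
    · exact hp.2.1.1
    · exact h1.mul hp.2.1.1
  · rintro ⟨β, σ⟩ hp ⟨β', σ'⟩ hp' heq
    rw [mem_coe, mem_product, mem_autF, autE_sideE (by omega)] at hp hp'
    have hs : ∀ s : Fin (2 * n), (n ≤ (σ s : ℕ) ↔ n ≤ (s : ℕ)) := hp.2.1.2
    have hs' : ∀ s : Fin (2 * n), (n ≤ (σ' s : ℕ) ↔ n ≤ (s : ℕ)) := hp'.2.1.2
    have key : ∀ (τ τ' : Equiv.Perm (Fin (2 * n))),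
        (∀ s : Fin (2 * n), (n ≤ (τ s : ℕ) ↔ n ≤ (s : ℕ))) →
        (∀ s : Fin (2 * n), (n ≤ (τ' s : ℕ) ↔ n ≤ (s : ℕ))) → ρ * τ ≠ τ' := by
      intro τ τ' g1 g2 g3
      have g4 := g2 ⟨0, by omega⟩
      rw [← g3, Equiv.Perm.mul_apply, h2, g1] at g4
      tauto
    cases β <;> cases β'
    · simp only [Bool.false_eq_true, if_false] at heq
      rw [heq]
    · simp only [Bool.false_eq_true, if_false, if_true] at heq
      exact absurd heq.symm (key _ _ hs' hs)
    · simp only [Bool.false_eq_true, if_false, if_true] at heq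
      exact absurd heq (key _ _ hs hs')
    · simp only [if_true] at heq
      rw [mul_left_cancel heq]

/-- the decision -/
def dec (acc : List ℕ → List ℕ → ℕ → Bool) (g : ℕ → ℕ → List Bool) (n N : ℕ)
    (bs : List ℕ) : List Bool :=
  if (orbs acc g N bs).any (fun v => decide (n ≤ v)) = true then [true]
  else if acc [] [] (3 * nxt acc g N bs ^ 2) = true then [false] else []

theorem Hs_nil {g : ℕ → ℕ → List Bool} {N : ℕ} : (Hs g N [] []).card = autC g N := by
  unfold autC
  congr 1
  ext σ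
  rw [mem_Hs, mem_autF]
  exact ⟨fun h => ⟨h.1, fun c hc => absurd hc (Nat.not_lt_zero _)⟩, fun h => ⟨h.1, rfl⟩⟩

theorem dec_correct {A₀ A₁ : ℕ → ℕ → Bool} {n : ℕ} {acc : List ℕ → List ℕ → ℕ → Bool}
    (hn : 0 < n) (hnev : Never (twoG A₀ A₁ n) 2 (2 * n) acc) :
    (dec acc (twoG A₀ A₁ n) n (2 * n)
        ((stp acc (twoG A₀ A₁ n) (2 * n))^[2 * n - 1] [1]) = [true] → Iso A₀ A₁ n) ∧
      (dec acc (twoG A₀ A₁ n) n (2 * n)
        ((stp acc (twoG A₀ A₁ n) (2 * n))^[2 * n - 1] [1]) = [false] → ¬ Iso A₀ A₁ n) ∧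
      (Found (twoG A₀ A₁ n) 2 (2 * n) acc →
        dec acc (twoG A₀ A₁ n) n (2 * n)
          ((stp acc (twoG A₀ A₁ n) (2 * n))^[2 * n - 1] [1]) = [true] ∨
        dec acc (twoG A₀ A₁ n) n (2 * n)
          ((stp acc (twoG A₀ A₁ n) (2 * n))^[2 * n - 1] [1]) = [false]) := by
  set g := twoG A₀ A₁ n with hg
  set N := 2 * n with hN
  set bs := (stp acc g N)^[N - 1] [1] with hbs
  have hgw : ∀ s t, (g s t).length = 2 := fun s t => rfl
  have hbl : bs.length = N := by rw [hbs, stp_length]; omega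
  have horb : ∀ v ∈ orbs acc g N bs, Orb g N 0 v := by
    intro v hv
    have h1 := orb_of_orbs (by omega) (by omega) hv
    rwa [hbl, Nat.sub_self] at h1
  -- the final number as a product
  have hprod : nxt acc g N bs =
      ∏ j ∈ range N, (orbs acc g N ((stp acc g N)^[j] [1])).length := by
    unfold nxt
    have h1 : range N = range ((N - 1) + 1) := by congr 1; omega
    rw [hbl, hbs, stp_prod, h1, prod_range_succ, mul_comm]
  have hpd := autC_pairE hgw (L₁ := []) (L₂ := []) rfl (Nat.zero_le N) (by omega) (by simp)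
    (by simp)
  rw [Hs_nil] at hpd
  refine ⟨fun h => ?_, fun h hiso => ?_, fun hf => ?_⟩
  · unfold dec at h
    by_cases h1 : (orbs acc g N bs).any (fun v => decide (n ≤ v)) = true
    · rw [List.any_eq_true] at h1
      obtain ⟨v, hv, hv'⟩ := h1
      exact iso_of_orb hn (horb v hv) (of_decide_eq_true hv')
    · rw [if_neg h1] at h
      split_ifs at h <;> simp at h
  · unfold dec at h
    by_cases h1 : (orbs acc g N bs).any (fun v => decide (n ≤ v)) = true
    · rw [if_pos h1] at h
      simp at h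
    · rw [if_neg h1] at h
      by_cases h2 : acc [] [] (3 * nxt acc g N bs ^ 2) = true
      · -- the order of the group of the automorphisms that respect the sides
        have h3 : nxt acc g N bs ≤ autC (sideE g n) N := by
          rw [hprod]
          have h4 := prod_le_autC (e := sideE g n) (m := N)
            (O := fun i => (orbs acc g N ((stp acc g N)^[N - 1 - i] [1])).toFinset) (by
              intro i hi u hu
              rw [List.mem_toFinset] at hu
              have h5 := orb_of_orbs (by omega) (by rw [stp_length]; omega) hu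
              rw [stp_length, show N - (N - 1 - i + 1) = i by omega] at h5
              refine orb_sideE hn h5 fun hi0 => ?_
              subst hi0
              rw [Nat.sub_zero, ← hbs] at hu
              by_contra h6
              apply h1
              rw [List.any_eq_true]
              exact ⟨u, hu, decide_eq_true (not_lt.1 h6)⟩)
          refine le_trans (le_of_eq ?_) h4
          rw [← prod_range_reflect]
          refine prod_congr rfl fun i hi => ?_
          rw [List.toFinset_card_of_nodup (orbs_nodup _)]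
        have h4 := two_mul_le hn hiso
        rw [← hg, ← hN] at h4
        have h5 := hnev [] [] rfl (Nat.zero_le _) (by simp) (by simp) _ h2
        rw [hpd] at h5
        have h6 : 2 * nxt acc g N bs ≤ autC g N := by omega
        nlinarith
      · rw [if_neg h2] at h
        simp at h
  · unfold dec
    by_cases h1 : (orbs acc g N bs).any (fun v => decide (n ≤ v)) = true
    · left
      rw [if_pos h1]
    · right
      rw [if_neg h1]
      have hspec := stp_spec hgw (by omega) hnev hf (N - 1) (by omega)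
      rw [← hbs] at hspec
      have hA : nxt acc g N bs = autC g N := by
        rw [nxt_eq hgw (by omega) hnev hf (by omega) (by omega)
          (fun j hj => hspec j (by omega)), hbl, Nat.sub_self]
        rfl
      rw [hA]
      have h2 : acc [] [] (3 * autC g N ^ 2) = true := by
        refine hf [] [] rfl (Nat.zero_le _) (by simp) (by simp) _ ?_ ?_
        · have h3 : autC g N ≤ N.factorial := autF_anti
          exact (Nat.mul_le_mul_left 3 (Nat.pow_le_pow_left h3 2)).trans (three_le (by omega))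
        · rw [hpd]
          nlinarith
      rw [if_pos h2]

end Pool.Agent.TH677.GI
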