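import Pool.Agent.TH677.GA.Mat

/-!
# The automorphism group of a structure and the chain of its stabilizers
-/

set_option autoImplicit false

namespace Pool.Agent.TH677.GI

open Finset Pool.Agent.TH677.GA

/-- the permutation `σ` is an automorphism of the structure `e` on the numbers below `m` -/
def AutE (e : ℕ → ℕ → List Bool) (m : ℕ) (σ : Equiv.Perm (Fin m)) : Prop :=
  ∀ s t : Fin m, e (σ s) (σ t) = e s t

theorem AutE.one (e : ℕ → ℕ → List Bool) (m : ℕ) : AutE e m 1 := fun _ _ => rfl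

theorem AutE.mul {e : ℕ → ℕ → List Bool} {m : ℕ} {σ τ : Equiv.Perm (Fin m)} (h : AutE e m σ)
    (h' : AutE e m τ) : AutE e m (σ * τ) := fun s t => by
  rw [Equiv.Perm.mul_apply, Equiv.Perm.mul_apply, h, h']

theorem AutE.inv {e : ℕ → ℕ → List Bool} {m : ℕ} {σ : Equiv.Perm (Fin m)} (h : AutE e m σ) :
    AutE e m σ⁻¹ := fun s t => by
  rw [← h (σ⁻¹ s) (σ⁻¹ t)]
  simp

/-- the permutation fixes the numbers below `i` -/
def Fix (m i : ℕ) (σ : Equiv.Perm (Fin m)) : Prop := ∀ c : Fin m, (c : ℕ) < i → σ c = c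

theorem Fix.mul {m i : ℕ} {σ τ : Equiv.Perm (Fin m)} (h : Fix m i σ) (h' : Fix m i τ) :
    Fix m i (σ * τ) := fun c hc => by
  rw [Equiv.Perm.mul_apply, h' c hc, h c hc]

theorem Fix.inv {m i : ℕ} {σ : Equiv.Perm (Fin m)} (h : Fix m i σ) : Fix m i σ⁻¹ := fun c hc => by
  rw [Equiv.Perm.inv_eq_iff_eq]
  exact (h c hc).symm

theorem Fix.mono {m i j : ℕ} {σ : Equiv.Perm (Fin m)} (h : Fix m j σ) (hij : i ≤ j) :
    Fix m i σ := fun c hc => h c (hc.trans_le hij)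

open Classical in
/-- the automorphisms that fix the numbers below `i` -/
noncomputable def autF (e : ℕ → ℕ → List Bool) (m i : ℕ) : Finset (Equiv.Perm (Fin m)) :=
  univ.filter fun σ => AutE e m σ ∧ Fix m i σ

theorem mem_autF {e : ℕ → ℕ → List Bool} {m i : ℕ} {σ : Equiv.Perm (Fin m)} :
    σ ∈ autF e m i ↔ AutE e m σ ∧ Fix m i σ := by
  simp [autF]

/-- the number of automorphisms -/
noncomputable def autC (e : ℕ → ℕ → List Bool) (m : ℕ) : ℕ := (autF e m 0).card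

theorem one_mem_autF (e : ℕ → ℕ → List Bool) (m i : ℕ) : 1 ∈ autF e m i :=
  mem_autF.2 ⟨AutE.one e m, fun _ _ => rfl⟩

theorem autF_card_pos (e : ℕ → ℕ → List Bool) (m i : ℕ) : 0 < (autF e m i).card :=
  card_pos.2 ⟨1, one_mem_autF e m i⟩

theorem autF_top (e : ℕ → ℕ → List Bool) (m : ℕ) : (autF e m m).card = 1 := by
  rw [card_eq_one]
  refine ⟨1, ?_⟩
  ext σ
  rw [mem_autF, mem_singleton]
  constructor
  · rintro ⟨_, h⟩
    ext c
    rw [h c c.2]
    rfl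
  · rintro rfl
    exact ⟨AutE.one e m, fun _ _ => rfl⟩

/-- the orbit of `i` under the automorphisms that fix the numbers below `i` -/
def Orb (e : ℕ → ℕ → List Bool) (m i u : ℕ) : Prop :=
  ∃ hi : i < m, ∃ σ, AutE e m σ ∧ Fix m i σ ∧ (σ ⟨i, hi⟩ : ℕ) = u

theorem Orb.refl {e : ℕ → ℕ → List Bool} {m i : ℕ} (hi : i < m) : Orb e m i i :=
  ⟨hi, 1, AutE.one e m, fun _ _ => rfl, rfl⟩

theorem Orb.lt {e : ℕ → ℕ → List Bool} {m i u : ℕ} (h : Orb e m i u) : u < m := by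
  obtain ⟨hi, σ, _, _, rfl⟩ := h
  exact Fin.is_lt _

theorem Orb.le {e : ℕ → ℕ → List Bool} {m i u : ℕ} (h : Orb e m i u) : i ≤ u := by
  obtain ⟨hi, σ, _, h2, rfl⟩ := h
  by_contra h3
  rw [not_le] at h3
  have h4 := h2 _ h3
  have h5 := σ.injective h4
  have h6 := congrArg Fin.val h5
  simp only at h6
  omega

theorem Orb.trans {e : ℕ → ℕ → List Bool} {m i j u : ℕ} (hij : Orb e m j i)
    (h : Orb e m i u) : Orb e m j u := by
  have hle := hij.le
  obtain ⟨hj, σ, h1, h2, h3⟩ := hij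
  obtain ⟨hi, τ, h4, h5, h6⟩ := h
  refine ⟨hj, τ * σ, h4.mul h1, (h5.mono hle).mul h2, ?_⟩
  rw [Equiv.Perm.mul_apply, ← h6]
  congr 2
  exact Fin.ext h3

theorem Orb.of_common {e : ℕ → ℕ → List Bool} {m i j u : ℕ} (hij : i ≤ j)
    (h : Orb e m i u) (h' : Orb e m j u) : Orb e m i j := by
  obtain ⟨hi, σ, h1, h2, h3⟩ := h
  obtain ⟨hj, τ, h4, h5, h6⟩ := h'
  refine ⟨hi, τ⁻¹ * σ, h4.inv.mul h1, (h5.mono hij).inv.mul h2, ?_⟩
  rw [Equiv.Perm.mul_apply]
  have h7 : σ ⟨i, hi⟩ = τ ⟨j, hj⟩ := Fin.ext (h3.trans h6.symm)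
  rw [h7]
  simp

open Classical in
/-- the orbit as a finite set -/
noncomputable def orb (e : ℕ → ℕ → List Bool) (m i : ℕ) : Finset ℕ :=
  (range m).filter fun u => Orb e m i u

theorem mem_orb {e : ℕ → ℕ → List Bool} {m i u : ℕ} : u ∈ orb e m i ↔ Orb e m i u := by
  simp only [orb, mem_filter, mem_range]
  exact ⟨fun h => h.2, fun h => ⟨h.lt, h⟩⟩

/-- orbit and stabilizer -/
theorem card_autF (e : ℕ → ℕ → List Bool) {m i : ℕ} (hi : i < m) :
    (autF e m i).card = (orb e m i).card * (autF e m (i + 1)).card := by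
  classical
  have h1 : (autF e m i).card = ∑ u ∈ orb e m i,
      ((autF e m i).filter fun σ => (σ ⟨i, hi⟩ : ℕ) = u).card := by
    apply card_eq_sum_card_fiberwise
    intro σ hσ
    rw [mem_coe, mem_autF] at hσ
    rw [mem_coe, mem_orb]
    exact ⟨hi, σ, hσ.1, hσ.2, rfl⟩
  rw [h1]
  apply sum_const_nat
  intro u hu
  rw [mem_orb] at hu
  obtain ⟨_, τ, h2, h3, h4⟩ := hu
  apply card_bij' (fun σ _ => τ⁻¹ * σ) (fun σ _ => τ * σ)
  · intro σ hσ
    rw [mem_filter, mem_autF] at hσ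
    rw [mem_autF]
    refine ⟨h2.inv.mul hσ.1.1, fun c hc => ?_⟩
    rcases Nat.lt_succ_iff_lt_or_eq.1 hc with h5 | h5
    · exact (h3.inv.mul hσ.1.2) c h5
    · rw [Equiv.Perm.mul_apply]
      have h6 : c = ⟨i, hi⟩ := Fin.ext h5
      subst h6
      have h7 : σ ⟨i, hi⟩ = τ ⟨i, hi⟩ := Fin.ext (hσ.2.trans h4.symm)
      rw [h7]
      simp
  · intro σ hσ
    rw [mem_autF] at hσ
    rw [mem_filter, mem_autF]
    refine ⟨⟨h2.mul hσ.1, h3.mul (hσ.2.mono (Nat.le_succ i))⟩, ?_⟩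
    rw [Equiv.Perm.mul_apply, hσ.2 ⟨i, hi⟩ (Nat.lt_succ_self i), h4]
  · intro σ _
    simp
  · intro σ _
    simp

theorem card_autF_eq_prod (e : ℕ → ℕ → List Bool) {m : ℕ} : ∀ i ≤ m,
    (autF e m (m - i)).card = ∏ j ∈ Ico (m - i) m, (orb e m j).card := by
  intro i
  induction i with
  | zero => intro _; simp [autF_top]
  | succ i ih =>
    intro hi
    have h1 := ih (by omega)
    have h2 : m - i = m - (i + 1) + 1 := by omega
    rw [card_autF e (by omega : m - (i + 1) < m), ← h2, h1,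
      prod_eq_prod_Ico_succ_bot (by omega : m - (i + 1) < m), ← h2]

theorem autC_eq_prod (e : ℕ → ℕ → List Bool) (m : ℕ) :
    autC e m = ∏ j ∈ range m, (orb e m j).card := by
  have h := card_autF_eq_prod e (m := m) m le_rfl
  rw [Nat.sub_self, ← range_eq_Ico] at h
  exact h

/-- a lower bound for the number of automorphisms -/
theorem prod_le_autC {e : ℕ → ℕ → List Bool} {m : ℕ} {O : ℕ → Finset ℕ}
    (h : ∀ i < m, ∀ u ∈ O i, Orb e m i u) : ∏ j ∈ range m, (O j).card ≤ autC e m := by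
  rw [autC_eq_prod]
  refine prod_le_prod' fun i hi => card_le_card fun u hu => ?_
  rw [mem_orb]
  exact h i (mem_range.1 hi) u hu

/-- the permutation as a function on the natural numbers -/
def act {m : ℕ} (σ : Equiv.Perm (Fin m)) (s : ℕ) : ℕ := if h : s < m then (σ ⟨s, h⟩ : ℕ) else s

theorem act_lt {m : ℕ} (σ : Equiv.Perm (Fin m)) {s : ℕ} (h : s < m) :
    act σ s = (σ ⟨s, h⟩ : ℕ) := dif_pos h

theorem act_fin {m : ℕ} (σ : Equiv.Perm (Fin m)) (s : Fin m) : act σ s = σ s := by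
  rw [act_lt σ s.2]

theorem act_isAut {e : ℕ → ℕ → List Bool} {m : ℕ} {σ : Equiv.Perm (Fin m)} (h : AutE e m σ) :
    IsAut e m (act σ) := by
  refine ⟨fun s hs => ?_, fun s hs t ht hst => ?_, fun s hs t ht => ?_⟩
  · rw [act_lt σ hs]; exact Fin.is_lt _
  · rw [act_lt σ hs, act_lt σ ht] at hst
    have h1 := σ.injective (Fin.ext hst)
    exact congrArg Fin.val h1
  · rw [act_lt σ hs, act_lt σ ht]
    exact h ⟨s, hs⟩ ⟨t, ht⟩

/-- a permutation from a function on the natural numbers -/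
theorem exists_perm {m : ℕ} {p : ℕ → ℕ} (h1 : ∀ s < m, p s < m)
    (h2 : ∀ s < m, ∀ t < m, p s = p t → s = t) :
    ∃ σ : Equiv.Perm (Fin m), ∀ s : Fin m, (σ s : ℕ) = p s := by
  have hinj : Function.Injective (fun s : Fin m => (⟨p s, h1 s s.2⟩ : Fin m)) := by
    intro s t h
    rw [Fin.mk.injEq] at h
    exact Fin.ext (h2 s s.2 t t.2 h)
  exact ⟨Equiv.ofBijective _ (Finite.injective_iff_bijective.1 hinj), fun s => rfl⟩

theorem exists_autE {e : ℕ → ℕ → List Bool} {m : ℕ} {p : ℕ → ℕ} (h : IsAut e m p) :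
    ∃ σ : Equiv.Perm (Fin m), AutE e m σ ∧ ∀ s : Fin m, (σ s : ℕ) = p s := by
  obtain ⟨σ, hσ⟩ := exists_perm h.1 h.2.1
  refine ⟨σ, fun s t => ?_, hσ⟩
  rw [hσ, hσ]
  exact h.2.2 s s.2 t t.2

end Pool.Agent.TH677.GI
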