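import Pool.Agent.TH677.GI.Trial
import Pool.Agent.TH677.GI.Gr
import Pool.Agent.TH677.GA.App

/-!
# Polynomial-time computability of the functions used
-/

set_option autoImplicit false
set_option linter.unusedVariables false

namespace Pool.Agent.TH677.GI

open Pool.Agent.NPC Pool.Agent.H622R2 Pool.Agent.TH677.GA

variable {α β γ : Type} [TEnc α] [TEnc β] [TEnc γ]

theorem size_mul_le (a b : ℕ) : (a * b).size ≤ a.size + b.size := by
  rw [Nat.size_le, pow_add]
  exact Nat.mul_lt_mul'' (Nat.lt_size_self a) (Nat.lt_size_self b)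

theorem prod_size_le (l : List ℕ) : l.prod.size ≤ sz l := by
  induction l with
  | nil => simp
  | cons a l ih =>
    rw [List.prod_cons, sz_list_cons]
    have h1 := size_mul_le a l.prod
    have h2 := size_le_sz a
    omega

theorem pprod {l : α → List ℕ} (hl : Poly l) : Poly (fun a => (l a).prod) := by
  obtain ⟨r, hr⟩ := hl.sz_le
  refine (Poly.foldl (s := fun _ => 1) (F := fun _ s x => s * x) hl (NPC.Poly.const 1)
    (Poly.mul (Poly.fst (Poly.snd Poly.id)) (Poly.snd (Poly.snd Poly.id)))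
    (4 * r + 1) ?_).congr fun a => ?_
  · intro a k _
    rw [← List.prod_eq_foldl]
    have h1 := sz_nat_le ((l a).take k).prod
    have h2 := prod_size_le ((l a).take k)
    have h3 := Poly.sz_take_le (l a) k
    have h4 := hr a
    simp only [Polynomial.eval_add, Polynomial.eval_mul, Polynomial.eval_ofNat,
      Polynomial.eval_one]
    omega
  · rw [← List.prod_eq_foldl]

/-- functions of the first argument -/
theorem g1 {δ : Type} [TEnc δ] {f : α → δ} (hf : Poly f) : Poly (fun y : α × β => f y.1) :=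
  hf.comp (Poly.fst Poly.id)

theorem gu1 {f : α → ℕ} (hf : UPoly f) : UPoly (fun y : α × β => f y.1) :=
  UPoly.comp hf (Poly.fst Poly.id)

theorem psnd : Poly (fun y : α × β => y.2) := Poly.snd Poly.id

theorem phk {Om : α → List (List Bool)} {m i : α → ℕ} (hO : Poly Om) (hm : UPoly m)
    (hi : Poly i) : Poly (fun a => hk (entry (Om a)) (m a) (i a)) := by
  unfold hk
  exact Poly.length (Poly.filter (p := fun a u => entry (Om a) (i a) u) hm.range
    (pentry (g1 hO) (g1 hi) psnd))

theorem pdel {i : α → ℕ} {S : α → List ℕ} (hi : Poly i) (hS : Poly S) :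
    Poly (fun a => del (i a) (S a)) := by
  unfold del
  exact Poly.filter (p := fun a j => decide (j ≠ i a)) hS
    (Poly.decide_not (Poly.decide_eq psnd (g1 hi)))

theorem pavail {Om : α → List (List Bool)} {S : α → List ℕ} (hO : Poly Om) (hS : Poly S) :
    Poly (fun a => avail (entry (Om a)) (S a)) := by
  unfold avail
  refine Poly.filter (p := fun a i => (S a).all fun j => decide (j = i) || !(entry (Om a) j i))
    hS ?_
  refine Poly.all (p := fun (y : α × ℕ) j => decide (j = y.2) || !(entry (Om y.1) j y.2))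
    (g1 hS) ?_
  exact Poly.or (Poly.decide_eq psnd (g1 psnd)) (Poly.not (pentry (g1 (g1 hO)) psnd (g1 psnd)))

theorem pcnt {Om : α → List (List Bool)} {m : α → ℕ} {S : α → List ℕ} (hO : Poly Om)
    (hm : UPoly m) (hS : Poly S) : Poly (fun a => cnt (entry (Om a)) (m a) (S a)) := by
  unfold cnt
  refine Poly.div (pfact (UPoly.length hS)) (pprod ?_)
  exact NPC.Poly.map (F := fun a i => hk (entry (Om a)) (m a) i) hS
    (phk (g1 hO) (gu1 hm) psnd)

/-- one step of `pick` -/
def pkStep (c : ℕ → ℕ) (s : Bool × ℕ × ℕ) (i : ℕ) : Bool × ℕ × ℕ :=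
  if s.1 = true then s else if s.2.2 < c i then (true, i, s.2.2) else (false, 0, s.2.2 - c i)

theorem pkStep_true (c : ℕ → ℕ) (l : List ℕ) (s : ℕ × ℕ) :
    l.foldl (pkStep c) (true, s) = (true, s) := by
  induction l with
  | nil => rfl
  | cons a l ih => rw [List.foldl_cons, pkStep, if_pos rfl, ih]

theorem pick_eq_foldl (c : ℕ → ℕ) : ∀ (l : List ℕ) (y : ℕ),
    (l.foldl (pkStep c) (false, 0, y)).2 = pick c l y := by
  intro l
  induction l with
  | nil => intro y; rfl
  | cons a l ih =>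
    intro y
    rw [List.foldl_cons, pick, pkStep, if_neg (by simp)]
    simp only
    by_cases h : y < c a
    · rw [if_pos h, if_pos h, pkStep_true]
    · rw [if_neg h, if_neg h, ih]

theorem pick_mem (c : ℕ → ℕ) : ∀ (l : List ℕ) (y : ℕ),
    ((pick c l y).1 = 0 ∨ (pick c l y).1 ∈ l) ∧ (pick c l y).2 ≤ y := by
  intro l
  induction l with
  | nil => intro y; exact ⟨Or.inl rfl, le_rfl⟩
  | cons a l ih =>
    intro y
    rw [pick]
    by_cases h : y < c a
    · rw [if_pos h]
      exact ⟨Or.inr (by simp), le_rfl⟩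
    · rw [if_neg h]
      obtain ⟨h1, h2⟩ := ih (y - c a)
      refine ⟨?_, h2.trans (Nat.sub_le _ _)⟩
      rcases h1 with h1 | h1
      · exact Or.inl h1
      · exact Or.inr (List.mem_cons_of_mem _ h1)

theorem sz_pick (c : ℕ → ℕ) (l : List ℕ) (y : ℕ) :
    sz (pick c l y).1 ≤ sz l ∧ sz (pick c l y).2 ≤ 2 * sz y := by
  obtain ⟨h1, h2⟩ := pick_mem c l y
  refine ⟨?_, sz_nat_mono_le h2⟩
  rcases h1 with h1 | h1
  · rw [h1]
    have := sz_pos l
    have h3 : sz 0 = 1 := rfl
    omega
  · exact (sz_le_of_mem h1).le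

theorem ppick {c : α → ℕ → ℕ} {l : α → List ℕ} {y : α → ℕ}
    (hc : Poly (fun p : α × ℕ => c p.1 p.2)) (hl : Poly l) (hy : Poly y) :
    Poly (fun a => pick (c a) (l a) (y a)) := by
  obtain ⟨r, hr⟩ := hl.sz_le
  obtain ⟨u, hu⟩ := hy.sz_le
  have hstep : Poly (fun p : α × (Bool × ℕ × ℕ) × ℕ => pkStep (c p.1) p.2.1 p.2.2) := by
    have s1 : Poly (fun p : α × (Bool × ℕ × ℕ) × ℕ => p.2.1) := Poly.fst (Poly.snd Poly.id)
    have i1 : Poly (fun p : α × (Bool × ℕ × ℕ) × ℕ => p.2.2) := Poly.snd (Poly.snd Poly.id)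
    have y1 : Poly (fun p : α × (Bool × ℕ × ℕ) × ℕ => p.2.1.2.2) :=
      Poly.snd (Poly.snd s1)
    have c1 : Poly (fun p : α × (Bool × ℕ × ℕ) × ℕ => c p.1 p.2.2) :=
      hc.comp (Poly.pair (Poly.fst Poly.id) i1)
    unfold pkStep
    exact Poly.ite (Poly.decide_bool (Poly.fst s1)) s1
      (Poly.ite (Poly.decide_lt y1 c1) (Poly.pair (NPC.Poly.const true) (Poly.pair i1 y1))
        (Poly.pair (NPC.Poly.const false) (Poly.pair (NPC.Poly.const 0) (Poly.sub y1 c1))))
  refine (Poly.snd (Poly.foldl (l := l) (s := fun a => (false, 0, y a))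
    (F := fun a s i => pkStep (c a) s i) hl
    (Poly.pair (NPC.Poly.const false) (Poly.pair (NPC.Poly.const 0) hy)) hstep
    (r + 2 * u + 5) ?_)).congr fun a => pick_eq_foldl _ _ _
  intro a k _
  change sz (((l a).take k).foldl (pkStep (c a)) (false, 0, y a)) ≤ _
  have h1 : ((l a).take k).foldl (pkStep (c a)) (false, 0, y a) =
      ((((l a).take k).foldl (pkStep (c a)) (false, 0, y a)).1,
        (pick (c a) ((l a).take k) (y a)).1, (pick (c a) ((l a).take k) (y a)).2) := by
    rw [← pick_eq_foldl]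
  rw [h1, sz_pair, sz_pair]
  obtain ⟨h2, h3⟩ := sz_pick (c a) ((l a).take k) (y a)
  have h4 := sz_bool_le (((l a).take k).foldl (pkStep (c a)) (false, 0, y a)).1
  have h5 := Poly.sz_take_le (l a) k
  have h6 := hr a
  have h7 := hu a
  simp only [Polynomial.eval_add, Polynomial.eval_mul, Polynomial.eval_ofNat]
  omega

/-- one step of `unr`, as an iteration -/
def unStep (O : ℕ → ℕ → Bool) (m : ℕ) (s : List ℕ × ℕ × List ℕ) : List ℕ × ℕ × List ℕ :=
  (del (pick (fun i => cnt O m (del i s.1)) (avail O s.1) s.2.1).1 s.1,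
    (pick (fun i => cnt O m (del i s.1)) (avail O s.1) s.2.1).2,
    (pick (fun i => cnt O m (del i s.1)) (avail O s.1) s.2.1).1 :: s.2.2)

theorem unStep_iterate (O : ℕ → ℕ → Bool) (m : ℕ) : ∀ (n : ℕ) (S : List ℕ) (y : ℕ)
    (acc : List ℕ), ((unStep O m)^[n] (S, y, acc)).2.2 = (unr O m n S y).reverse ++ acc := by
  intro n
  induction n with
  | zero => intro S y acc; simp [unr]
  | succ n ih =>
    intro S y acc
    rw [Function.iterate_succ_apply, unStep, ih, unr]
    simp

theorem sz_filter_le (p : β → Bool) (l : List β) : sz (l.filter p) ≤ sz l := by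
  induction l with
  | nil => simp
  | cons a l ih =>
    rw [List.filter_cons]
    split_ifs
    · simp; omega
    · simp; omega

theorem unStep_bound (O : ℕ → ℕ → Bool) (m : ℕ) (S : List ℕ) (y : ℕ) : ∀ n : ℕ,
    sz ((unStep O m)^[n] (S, y, [])).1 ≤ sz S ∧
    ((unStep O m)^[n] (S, y, [])).2.1 ≤ y ∧
    sz ((unStep O m)^[n] (S, y, [])).2.2 ≤ n * (sz S + 1) + 1 := by
  intro n
  induction n with
  | zero => simp
  | succ n ih =>
    obtain ⟨h1, h2, h3⟩ := ih
    rw [Function.iterate_succ_apply']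
    generalize (unStep O m)^[n] (S, y, []) = s at *
    obtain ⟨S', y', o⟩ := s
    simp only at h1 h2 h3
    unfold unStep
    simp only
    obtain ⟨h4, _⟩ := sz_pick (fun i => cnt O m (del i S')) (avail O S') y'
    have h5 := (pick_mem (fun i => cnt O m (del i S')) (avail O S') y').2
    refine ⟨(sz_filter_le _ _).trans h1, h5.trans h2, ?_⟩
    rw [sz_list_cons]
    have h6 : sz (avail O S') ≤ sz S' := sz_filter_le _ _
    have h7 : (n + 1) * (sz S + 1) = n * (sz S + 1) + (sz S + 1) := by ring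
    omega

theorem punr {Om : α → List (List Bool)} {m n y : α → ℕ} {S : α → List ℕ} (hO : Poly Om)
    (hm : UPoly m) (hn : UPoly n) (hS : Poly S) (hy : Poly y) :
    Poly (fun a => unr (entry (Om a)) (m a) (n a) (S a) (y a)) := by
  obtain ⟨r, hr⟩ := hS.sz_le
  obtain ⟨u, hu⟩ := hy.sz_le
  obtain ⟨v, hv⟩ := UPoly.bound hn
  have hstep : Poly (fun p : α × (List ℕ × ℕ × List ℕ) =>
      unStep (entry (Om p.1)) (m p.1) p.2) := by
    have O1 : Poly (fun p : α × (List ℕ × ℕ × List ℕ) => Om p.1) := g1 hO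
    have m1 : UPoly (fun p : α × (List ℕ × ℕ × List ℕ) => m p.1) := gu1 hm
    have S1 : Poly (fun p : α × (List ℕ × ℕ × List ℕ) => p.2.1) := Poly.fst psnd
    have y1 : Poly (fun p : α × (List ℕ × ℕ × List ℕ) => p.2.2.1) :=
      Poly.fst (Poly.snd psnd)
    have o1 : Poly (fun p : α × (List ℕ × ℕ × List ℕ) => p.2.2.2) :=
      Poly.snd (Poly.snd psnd)
    have pk : Poly (fun p : α × (List ℕ × ℕ × List ℕ) =>
        pick (fun i => cnt (entry (Om p.1)) (m p.1) (del i p.2.1))
          (avail (entry (Om p.1)) p.2.1) p.2.2.1) :=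
      ppick (c := fun (p : α × (List ℕ × ℕ × List ℕ)) i =>
        cnt (entry (Om p.1)) (m p.1) (del i p.2.1))
        (pcnt (g1 O1) (gu1 m1) (pdel psnd (g1 S1))) (pavail O1 S1) y1
    unfold unStep
    exact Poly.pair (pdel (Poly.fst pk) S1) (Poly.pair (Poly.snd pk) (Poly.cons (Poly.fst pk) o1))
  refine (Poly.reverse (Poly.snd (Poly.snd (Poly.iterLen (l := fun a => List.range (n a))
    (s := fun a => (S a, y a, ([] : List ℕ)))
    (F := fun a s => unStep (entry (Om a)) (m a) s) hn.range
    (Poly.pair hS (Poly.pair hy (NPC.Poly.const []))) hstep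
    (r + 2 * u + v * (r + 1) + 3) ?_)))).congr fun a => ?_
  · intro a k hk
    rw [List.length_range] at hk
    obtain ⟨h1, h2, h3⟩ := unStep_bound (entry (Om a)) (m a) (S a) (y a) k
    change sz ((unStep (entry (Om a)) (m a))^[k] (S a, y a, [])) ≤ _
    generalize (unStep (entry (Om a)) (m a))^[k] (S a, y a, []) = s at *
    obtain ⟨S', y', o⟩ := s
    simp only at h1 h2 h3
    rw [sz_pair, sz_pair]
    have h4 := sz_nat_mono_le h2
    have h5 := hr a
    have h6 := hu a
    have h7 : k * (sz (S a) + 1) ≤ v.eval (sz a) * (r.eval (sz a) + 1) :=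
      Nat.mul_le_mul (hk.trans (hv a)) (Nat.add_le_add_right h5 1)
    simp only [Polynomial.eval_add, Polynomial.eval_mul, Polynomial.eval_ofNat,
      Polynomial.eval_one]
    omega
  · change ((unStep (entry (Om a)) (m a))^[(List.range (n a)).length]
      (S a, y a, [])).2.2.reverse = _
    rw [List.length_range, unStep_iterate, List.append_nil, List.reverse_reverse]

theorem blkU_eq (O : ℕ → ℕ → Bool) (m C : ℕ) : ∀ (b Y : ℕ), blkU O m C b Y =
    (List.range b).map (fun i => unr O m m (List.range m) (Y / C ^ (min i b) % C)) := by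
  have key : ∀ (b Y : ℕ), blkU O m C b Y =
      (List.range b).map (fun i => unr O m m (List.range m) (Y / C ^ i % C)) := by
    intro b
    induction b with
    | zero => intro Y; rfl
    | succ b ih =>
      intro Y
      rw [blkU, ih, List.range_succ_eq_map, List.map_cons, List.map_map]
      simp only [pow_zero, Nat.div_one]
      congr 1
      apply List.map_congr_left
      intro i _
      simp only [Function.comp, pow_succ]
      rw [Nat.div_div_eq_div_mul, mul_comm]
  intro b Y
  rw [key]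
  apply List.map_congr_left
  intro i hi
  rw [List.mem_range] at hi
  rw [min_eq_left hi.le]

theorem pblkU {Om : α → List (List Bool)} {m b C Y : α → ℕ} (hO : Poly Om) (hm : UPoly m)
    (hC : Poly C) (hb : UPoly b) (hY : Poly Y) :
    Poly (fun a => blkU (entry (Om a)) (m a) (C a) (b a) (Y a)) := by
  refine (NPC.Poly.map (F := fun a i => unr (entry (Om a)) (m a) (m a) (List.range (m a))
    (Y a / C a ^ (min i (b a)) % C a)) hb.range ?_).congr fun a => (blkU_eq _ _ _ _ _).symm
  have hi : UPoly (fun y : α × ℕ => min y.2 (b y.1)) :=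
    UPoly.of_le (Poly.min psnd (g1 hb.toPoly)) (gu1 hb) (fun y => min_le_right _ _)
  exact punr (g1 hO) (gu1 hm) (gu1 hm) (g1 hm.range)
    (Poly.mod (Poly.div (g1 hY) (ppow (g1 hC) hi)) (g1 hC))

theorem pbeta {m b hi : α → ℕ} (hm : UPoly m) (hb : UPoly b) (hh : Poly hi) :
    UPoly (fun a => beta (m a) (b a) (hi a)) :=
  UPoly.length (Poly.natBits (Poly.div (ppow (pfact hm) hb) (ppow hh hb)))

theorem prnd {m b : α → ℕ} (hm : UPoly m) (hb : UPoly b) : UPoly (fun a => rnd (m a) (b a)) :=
  UPoly.length (Poly.natBits (ppow (pfact hm) hb))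

theorem phlen {m k b hi : α → ℕ} (hm : UPoly m) (hk : UPoly k) (hb : UPoly b) (hh : Poly hi) :
    UPoly (fun a => hlen (m a) (k a) (b a) (hi a)) :=
  (UPoly.add (pbeta hm hb hh) (UPoly.const 1)).mul (pblen hm hk hb)

theorem ptlen {m k b q hi : α → ℕ} (hm : UPoly m) (hk : UPoly k) (hb : UPoly b) (hq : UPoly q)
    (hh : Poly hi) : UPoly (fun a => tlen (m a) (k a) (b a) (q a) (hi a)) :=
  UPoly.add (phlen hm hk hb hh) (hq.mul (prnd hm hb))

/-! ### the structure -/

theorem ptwoG {A₀ A₁ : α → List (List Bool)} {n s t : α → ℕ} (h0 : Poly A₀) (h1 : Poly A₁)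
    (hn : Poly n) (hs : Poly s) (ht : Poly t) :
    Poly (fun a => twoG (entry (A₀ a)) (entry (A₁ a)) (n a) (s a) (t a)) := by
  have hd := Poly.decide_le hn hs
  have he := piff (Poly.decide_le hn hs) (Poly.decide_le hn ht)
  unfold twoG
  exact Poly.cons he (Poly.cons (Poly.and he (Poly.cond hd
    (pentry h1 (Poly.sub hs hn) (Poly.sub ht hn)) (pentry h0 hs ht))) (NPC.Poly.const []))

/-- the arguments of the structure: the matrices of two graphs and two lists of elements -/
abbrev SArg : Type := (List (List Bool) × List (List Bool)) × (List ℕ × List ℕ)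

/-- the two graphs as a structure -/
def gOf (p : SArg) : ℕ → ℕ → List Bool :=
  twoG (entry p.1.1) (entry p.1.2) p.1.1.length

/-- the structure with the given arguments -/
def entB (p : SArg) : ℕ → ℕ → List Bool :=
  pairE (gOf p) 2 (2 * p.1.1.length) p.2.1 p.2.2

theorem entB_length (p : SArg) (s t : ℕ) : (entB p s t).length = 2 * p.1.1.length + 3 := by
  unfold entB
  rw [pairE_length (g := gOf p) (w := 2) (fun _ _ => rfl)]
  ring

theorem p2 {n : α → ℕ} (hn : UPoly n) : UPoly (fun a => 2 * n a) := by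
  have h := hn.eval (Polynomial.C 2 * Polynomial.X)
  simpa using h

theorem psel {κ : α → Bool} {L₁ L₂ : α → List ℕ} (hκ : Poly κ) (h1 : Poly L₁) (h2 : Poly L₂) :
    Poly (fun a => sel (κ a) (L₁ a) (L₂ a)) := by
  refine (Poly.cond hκ h2 h1).congr fun a => ?_
  cases κ a <;> rfl

theorem pmarks {N x : α → ℕ} {κ : α → Bool} {L₁ L₂ : α → List ℕ} (hN : UPoly N) (h1 : Poly L₁)
    (h2 : Poly L₂) (hκ : Poly κ) (hx : Poly x) :
    Poly (fun a => marks (N a) (L₁ a) (L₂ a) (κ a) (x a)) := by
  unfold marks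
  refine NPC.Poly.map (F := fun a c =>
    decide (c < (L₁ a).length ∧ (sel (κ a) (L₁ a) (L₂ a)).getD c 0 = x a)) hN.range ?_
  exact Poly.decide_and (Poly.decide_lt psnd (g1 (Poly.length h1)))
    (Poly.decide_eq (Poly.getD (g1 (psel hκ h1 h2)) psnd (NPC.Poly.const 0)) (g1 hx))

theorem pentB {p : α → SArg} {s t : α → ℕ} (hp : Poly p) (hs : Poly s) (ht : Poly t) :
    Poly (fun a => entB (p a) (s a) (t a)) := by
  have hA₀ : Poly (fun a => (p a).1.1) := Poly.fst (Poly.fst hp)
  have hA₁ : Poly (fun a => (p a).1.2) := Poly.snd (Poly.fst hp)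
  have hL₁ : Poly (fun a => (p a).2.1) := Poly.fst (Poly.snd hp)
  have hL₂ : Poly (fun a => (p a).2.2) := Poly.snd (Poly.snd hp)
  have hn : UPoly (fun a => (p a).1.1.length) := UPoly.length hA₀
  have hN := p2 hn
  have ds := Poly.decide_le hN.toPoly hs
  have dt := Poly.decide_le hN.toPoly ht
  have xs := pix hN.toPoly hs
  have xt := pix hN.toPoly ht
  unfold entB pairE PE gOf
  simp only
  exact Poly.cons (Poly.decide_eq ds dt) (Poly.append
    (Poly.ite (Poly.decide_eq ds dt) (ptwoG hA₀ hA₁ hn.toPoly xs xt) (NPC.Poly.const _))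
    (pmarks hN hL₁ hL₂ ds xs))

theorem pmat {p : α → SArg} {L : α → List ℕ} (hp : Poly p) (hL : Poly L) :
    Poly (fun a => mat (entB (p a)) (L a)) := by
  unfold mat
  refine Poly.flatMap (F := fun a s => (L a).flatMap fun t => entB (p a) s t) hL ?_
  refine Poly.flatMap (F := fun (y : α × ℕ) t => entB (p y.1) y.2 t) (g1 hL) ?_
  exact pentB (g1 (g1 hp)) (g1 psnd) psnd

theorem pblkCode {p : α → SArg} {Om : α → List (List Bool)} {m b Y : α → ℕ} (hp : Poly p)
    (hO : Poly Om) (hm : UPoly m) (hb : UPoly b) (hY : Poly Y) :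
    Poly (fun a => blkCode (entB (p a)) (entry (Om a)) (m a) (b a) (Y a)) := by
  unfold blkCode
  refine Poly.flatMap (F := fun a L => mat (entB (p a)) L) ?_ (pmat (g1 hp) psnd)
  exact pblkU hO hm (pcnt hO hm hm.range) hb hY

theorem pblkAll {p : α → SArg} {m b N : α → ℕ} (hp : Poly p) (hm : UPoly m)
    (hb : UPoly b) (hN : Poly N) :
    Poly (fun a => blkAll (entB (p a)) (m a) (b a) (N a)) := by
  unfold blkAll
  refine Poly.flatMap (F := fun a L => mat (entB (p a)) L) ?_ (pmat (g1 hp) psnd)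
  exact pblk hm.range (NPC.Poly.const []) hb hN

theorem ptrial {p : α → SArg} {m k b q hi : α → ℕ} {u : α → List Bool} (hp : Poly p)
    (hm : UPoly m) (hk : UPoly k) (hb : UPoly b) (hq : UPoly q) (hh : Poly hi) (hu : Poly u) :
    Poly (fun a => trial (entB (p a)) (m a) (k a) (b a) (q a) (hi a) (u a)) := by
  have h0 := (phlen hm hk hb hh).toPoly
  have h1 : Poly (fun a => (u a).take (hlen (m a) (k a) (b a) (hi a))) := ptake hu h0
  have h2 : Poly (fun a => (u a).drop (hlen (m a) (k a) (b a) (hi a))) := pdrop hu h0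
  refine (Poly.append h1 (Poly.flatMap (l := fun a => List.range (q a))
    (F := fun a j => hash (blen (m a) (k a) (b a)) (beta (m a) (b a) (hi a) + 1)
      ((u a).take (hlen (m a) (k a) (b a) (hi a))) (blkAll (entB (p a)) (m a) (b a)
        (valB ((((u a).drop (hlen (m a) (k a) (b a) (hi a))).drop
          (j * rnd (m a) (b a))).take (rnd (m a) (b a))) % (m a).factorial ^ b a)))
          hq.range ?_)).congr fun a => ?_
  · have c1 : Poly (fun y : α × ℕ => y.2) := psnd
    have hr : Poly (fun y : α × ℕ => rnd (m y.1) (b y.1)) := g1 (prnd hm hb).toPoly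
    refine phash (g1 (pblen hm hk hb).toPoly) (UPoly.add (gu1 (pbeta hm hb hh)) (UPoly.const 1))
      (g1 h1) (pblkAll (g1 hp) (gu1 hm) (gu1 hb) ?_)
    exact Poly.mod (Poly.valBits (ptake (pdrop (g1 h2) (Poly.mul c1 hr)) hr))
      (g1 (ppow (pfact hm) hb))
  · unfold trial
    rw [blocks_eq_flatMap]

end Pool.Agent.TH677.GI
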