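import Pool.Agent.TH677.GI.Grp
import Pool.Agent.TH677.GI.Forest

/-!
# Every arrangement is equivalent to one in which every element comes first in its orbit
-/

set_option autoImplicit false

namespace Pool.Agent.TH677.GI

open Finset Pool.Agent.TH677.GA

open Classical in
/-- the orbits as a matrix -/
noncomputable def orbB (e : ℕ → ℕ → List Bool) (m i u : ℕ) : Bool := decide (Orb e m i u)

theorem orbB_iff {e : ℕ → ℕ → List Bool} {m i u : ℕ} : orbB e m i u = true ↔ Orb e m i u := by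
  simp [orbB]

theorem good_orbB (e : ℕ → ℕ → List Bool) (m : ℕ) : Good (orbB e m) m where
  refl i hi := orbB_iff.2 (Orb.refl hi)
  le i u h := (orbB_iff.1 h).le
  trans j i u h h' := orbB_iff.2 ((orbB_iff.1 h).trans (orbB_iff.1 h'))
  common i j u hij h h' := orbB_iff.2 (Orb.of_common hij (orbB_iff.1 h) (orbB_iff.1 h'))

theorem hk_orbB (e : ℕ → ℕ → List Bool) (m i : ℕ) : hk (orbB e m) m i = (orb e m i).card := by
  unfold hk
  rw [← List.toFinset_card_of_nodup (List.nodup_range.filter _)]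
  congr 1
  ext u
  rw [List.mem_toFinset, List.mem_filter, List.mem_range, orbB_iff, mem_orb]
  exact ⟨fun h => h.2, fun h => ⟨h.lt, h⟩⟩

theorem prod_hk_orbB (e : ℕ → ℕ → List Bool) (m : ℕ) :
    ((List.range m).map (hk (orbB e m) m)).prod = autC e m := by
  have h1 : ∀ (f : ℕ → ℕ) (k : ℕ), ((List.range k).map f).prod = ∏ j ∈ range k, f j := by
    intro f k
    induction k with
    | zero => rfl
    | succ k ih => rw [List.range_succ, List.map_append, List.prod_append, ih,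
        prod_range_succ]; simp
  rw [autC_eq_prod, h1]
  exact prod_congr rfl fun i _ => hk_orbB e m i

theorem autC_mul_cnt (e : ℕ → ℕ → List Bool) (m : ℕ) :
    autC e m * cnt (orbB e m) m (List.range m) = m.factorial := by
  have h := (cnt_spec (good_orbB e m) m (List.range m) List.length_range
    (closed_range (orbB e m) m)).1
  rwa [prod_hk_orbB, List.length_range] at h

theorem exists_norm {e : ℕ → ℕ → List Bool} {m : ℕ} {L : List ℕ} (hL : Arrg m L) :
    ∃ σ : Equiv.Perm (Fin m), AutE e m σ ∧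
      (L.map (act σ)).Pairwise (fun i j => orbB e m j i = false) := by
  classical
  obtain ⟨τ, hτ, hmin⟩ := exists_min_image (autF e m 0)
    (fun τ => toLex (fun c : Fin m => L.idxOf (τ c : ℕ))) ⟨1, one_mem_autF e m 0⟩
  rw [mem_autF] at hτ
  refine ⟨τ⁻¹, hτ.1.inv, ?_⟩
  rw [List.pairwise_iff_getElem]
  intro p q hp hq hpq
  rw [List.length_map] at hp hq
  rw [← Bool.not_eq_true, orbB_iff]
  have hlt : ∀ (k : ℕ) (hk : k < L.length), L[k] < m := fun k hk => (hL.2 _).1 (L.getElem_mem hk)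
  simp only [List.getElem_map]
  rintro ⟨hj, ρ, h1, h2, h3⟩
  have hpm := hlt p hp
  have hqm := hlt q hq
  have hle : toLex (fun c : Fin m => L.idxOf (τ c : ℕ)) ≤
      toLex (fun c : Fin m => L.idxOf ((τ * ρ) c : ℕ)) :=
    hmin (τ * ρ) (mem_autF.2 ⟨hτ.1.mul h1, fun c hc => absurd hc (Nat.not_lt_zero _)⟩)
  refine absurd hle (not_le.2 ?_)
  refine ⟨⟨act τ⁻¹ L[q], hj⟩, fun c hc => ?_, ?_⟩
  · change L.idxOf ((τ * ρ) c : ℕ) = L.idxOf (τ c : ℕ)
    rw [Equiv.Perm.mul_apply, h2 c hc]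
  · change L.idxOf ((τ * ρ) ⟨act τ⁻¹ L[q], hj⟩ : ℕ) < L.idxOf (τ ⟨act τ⁻¹ L[q], hj⟩ : ℕ)
    have e1 : ((τ * ρ) ⟨act τ⁻¹ L[q], hj⟩ : ℕ) = L[p] := by
      rw [Equiv.Perm.mul_apply]
      have e2 : ρ ⟨act τ⁻¹ L[q], hj⟩ = τ⁻¹ ⟨L[p], hpm⟩ := by
        apply Fin.ext
        rw [h3, act_lt _ hpm]
      rw [e2]
      simp
    have e3 : (τ ⟨act τ⁻¹ L[q], hj⟩ : ℕ) = L[q] := by
      have e2 : (⟨act τ⁻¹ L[q], hj⟩ : Fin m) = τ⁻¹ ⟨L[q], hqm⟩ := by
        apply Fin.ext
        change act τ⁻¹ L[q] = _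
        rw [act_lt _ hqm]
      rw [e2]
      simp
    rw [e1, e3, hL.1.idxOf_getElem, hL.1.idxOf_getElem]
    exact hpq

/-- every arrangement has the same code as one with a number -/
theorem exists_unr {e : ℕ → ℕ → List Bool} {m : ℕ} {L : List ℕ} (hL : Arrg m L) :
    ∃ y < cnt (orbB e m) m (List.range m),
      mat e (unr (orbB e m) m m (List.range m) y) = mat e L := by
  obtain ⟨σ, h1, h2⟩ := exists_norm (e := e) hL
  have h3 := hL.map (act_isAut h1)
  have h4 : (L.map (act σ)).Perm (List.range m) := by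
    rw [List.perm_ext_iff_of_nodup h3.1 List.nodup_range]
    intro a
    rw [h3.2, List.mem_range]
  obtain ⟨y, h5, h6⟩ := unr_surj (good_orbB e m) (L.map (act σ)) (List.range m)
    (closed_range (orbB e m) m) h4 h2
  rw [h3.length] at h6
  exact ⟨y, h5, by rw [h6, mat_map hL (act_isAut h1)]⟩

end Pool.Agent.TH677.GI
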