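import Pool.Agent.H620R2.GaugeR.R1
import Pool.Agent.TH677.GA.Lib

/-!
# Typed functions that are computable in polynomial time relative to an oracle
-/

set_option autoImplicit false
set_option linter.unusedSectionVars false

namespace Pool.Agent.TH677.GI

open Pool.Agent.NPC Pool.Agent.H622R2 Pool.Agent.TH677.GA
open Pool.Agent.H620R2.Gauge (Oracle IsFP IsFP.tt IsFP.seq IsFP.comp IsFP.of_poly IsFP.loop
  IsFP.pair A2.out_bound)

variable {A : Oracle} {α β γ δ σ : Type} [TEnc α] [TDec α] [TEnc β] [TDec β] [TEnc γ] [TDec γ]
  [TEnc δ] [TDec δ] [TEnc σ] [TDec σ]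

/-- the code of an element, as a list of booleans -/
theorem poly_bits : Poly (fun b : β => (bits b : List Bool)) := by
  obtain ⟨c, q, h⟩ := PC.rawIn
  exact ⟨c, q, fun b => h (bits b)⟩

theorem poly_sz : Poly (fun b : β => sz b) :=
  (Poly.length (poly_bits (β := β))).congr fun b => bits_length b

/-- typed functions that are computable in polynomial time relative to an oracle -/
def OP (A : Oracle) (f : α → β) : Prop :=
  ∃ F : List Bool → List Bool, IsFP A F ∧ ∀ a, F (bits a) = bits (f a)

namespace OP

theorem congr {f g : α → β} (hf : OP A f) (h : ∀ a, f a = g a) : OP A g := by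
  obtain ⟨F, h1, h2⟩ := hf
  exact ⟨F, h1, fun a => by rw [h2, h]⟩

/-- apply a function to the result of another one for an argument that may not exist -/
theorem via {h : β → γ} (hh : OP A h) {φ : α → Option β} (hφ : Poly φ) {g : α → δ}
    (hg : Poly g) {k : α → γ → δ} (hk : Poly (fun p : α × γ => k p.1 p.2)) :
    OP A (fun a => match φ a with | none => g a | some b => k a (h b)) := by
  obtain ⟨H, h1, h2⟩ := hh
  -- the argument
  set φ' : List Bool × List Bool → List Bool := fun y =>
    match unbits α y.1 with
    | none => []
    | some a => (match φ a with | none => [] | some b => bits b) with hφ'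
  set ψ' : List Bool × List Bool × List Bool → List Bool := fun y =>
    match unbits α y.1 with
    | none => []
    | some a => (match φ a with
      | none => bits (g a)
      | some _ => (match unbits γ y.2.2 with | none => [] | some c => bits (k a c))) with hψ'
  have p1 : Poly φ' := by
    refine Poly.optCases (o := fun y : List Bool × List Bool => unbits α y.1)
      (g := fun _ => ([] : List Bool))
      (h := fun _ a => (match φ a with | none => [] | some b => bits b))
      (poly_unbits.comp (Poly.fst Poly.id)) (NPC.Poly.const _) ?_
    exact Poly.optCases (o := fun p : (List Bool × List Bool) × α => φ p.2)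
      (g := fun _ => ([] : List Bool)) (h := fun _ b => bits b)
      (hφ.comp (Poly.snd Poly.id)) (NPC.Poly.const _) (poly_bits.comp (Poly.snd Poly.id))
  have p2 : Poly ψ' := by
    refine Poly.optCases (o := fun y : List Bool × List Bool × List Bool => unbits α y.1)
      (g := fun _ => ([] : List Bool))
      (h := fun y a => (match φ a with
      | none => bits (g a)
      | some _ => (match unbits γ y.2.2 with | none => [] | some c => bits (k a c))))
      (poly_unbits.comp (Poly.fst Poly.id)) (NPC.Poly.const _) ?_
    refine Poly.optCases (o := fun p : (List Bool × List Bool × List Bool) × α => φ p.2)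
      (g := fun p => (bits (g p.2) : List Bool))
      (h := fun p _ => (match unbits γ p.1.2.2 with | none => [] | some c => bits (k p.2 c)))
      (hφ.comp (Poly.snd Poly.id)) (poly_bits.comp (hg.comp (Poly.snd Poly.id))) ?_
    refine Poly.optCases
      (o := fun p : ((List Bool × List Bool × List Bool) × α) × β => unbits γ p.1.1.2.2)
      (g := fun _ => ([] : List Bool)) (h := fun p c => (bits (k p.1.2 c) : List Bool))
      (poly_unbits.comp (Poly.snd (Poly.snd (Poly.fst (Poly.fst Poly.id)))))
      (NPC.Poly.const _) ?_
    exact poly_bits.comp (hk.comp (Poly.pair (Poly.snd (Poly.fst (Poly.fst Poly.id)))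
      (Poly.snd Poly.id)))
  refine ⟨_, IsFP.seq (IsFP.of_poly (A := A) (F := fun x : List Bool => x) Poly.id) h1 p1 p2,
    fun a => ?_⟩
  rw [hψ', hφ']
  simp only
  rw [unbits_bits]
  simp only
  cases hφa : φ a with
  | none => rfl
  | some b =>
    simp only
    rw [h2, unbits_bits]

theorem of_poly {f : α → β} (hf : Poly f) : OP A f := by
  refine ⟨fun x => match unbits α x with | none => [] | some a => bits (f a),
    IsFP.of_poly ?_, fun a => by simp only [unbits_bits]⟩
  exact Poly.optCases (o := fun x : List Bool => unbits α x)
    (g := fun _ => ([] : List Bool)) (h := fun _ a => (bits (f a) : List Bool))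
    poly_unbits (NPC.Poly.const _) (poly_bits.comp (hf.comp (Poly.snd Poly.id)))

theorem comp {g : β → γ} {f : α → β} (hg : OP A g) (hf : OP A f) : OP A (fun a => g (f a)) := by
  obtain ⟨G, h1, h2⟩ := hg
  obtain ⟨F, h3, h4⟩ := hf
  exact ⟨_, IsFP.comp h1 h3, fun a => by rw [h4, h2]⟩

theorem pcomp {g : β → γ} {f : α → β} (hg : Poly g) (hf : OP A f) : OP A (fun a => g (f a)) :=
  comp (of_poly hg) hf

theorem compp {g : β → γ} {f : α → β} (hg : OP A g) (hf : Poly f) : OP A (fun a => g (f a)) :=
  comp hg (of_poly hf)

theorem id : OP A (fun a : α => a) := of_poly Poly.id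

theorem const (b : β) : OP A (fun _ : α => b) := of_poly (NPC.Poly.const b)

theorem unsome {f : α → β} (hf : OP A (fun a => some (f a))) : OP A f := by
  obtain ⟨F, h1, h2⟩ := hf
  have p1 : Poly (fun y : List Bool => match unbits (Option β) y with
      | none => ([] : List Bool)
      | some o => (match o with | none => [] | some b => bits b)) := by
    have q1 : Poly (fun p : List Bool × Option β => match p.2 with
        | none => ([] : List Bool) | some b => bits b) :=
      Poly.optCases (o := fun p : List Bool × Option β => p.2)
        (g := fun _ => ([] : List Bool)) (h := fun _ b => bits b)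
        (Poly.snd Poly.id) (NPC.Poly.const _) (poly_bits.comp (Poly.snd Poly.id))
    refine (Poly.optCases (o := fun y : List Bool => unbits (Option β) y)
      (g := fun _ => ([] : List Bool))
      (h := fun _ o => (match o with | none => [] | some b => bits b))
      poly_unbits (NPC.Poly.const _) q1).congr fun y => ?_
    rcases unbits (Option β) y with _ | _ | b <;> rfl
  refine ⟨_, IsFP.comp (IsFP.of_poly (A := A) p1) h1, fun a => ?_⟩
  simp only [h2, unbits_bits]

/-- the function together with its argument -/
theorem graph {f : α → β} (hf : OP A f) : OP A (fun a => (a, f a)) := by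
  have h1 := via (A := A) (φ := fun a : α => some a) (g := fun _ : α => (none : Option (α × β)))
    (k := fun a b => some (a, b)) hf (Poly.some Poly.id) (NPC.Poly.const none)
    (Poly.some Poly.id)
  exact unsome h1

theorem pair {f : α → β} {g : α → γ} (hf : OP A f) (hg : OP A g) :
    OP A (fun a => (f a, g a)) := by
  have h1 : OP A (fun p : α × β => (p, g p.1)) := graph (compp hg (Poly.fst Poly.id))
  exact pcomp (g := fun p : (α × β) × γ => (p.1.2, p.2))
    (Poly.pair (Poly.snd (Poly.fst Poly.id)) (Poly.snd Poly.id)) (comp h1 (graph hf))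

theorem fst {f : α → β × γ} (hf : OP A f) : OP A (fun a => (f a).1) :=
  pcomp (Poly.fst Poly.id) hf

theorem snd {f : α → β × γ} (hf : OP A f) : OP A (fun a => (f a).2) :=
  pcomp (Poly.snd Poly.id) hf

theorem cond {b : α → Bool} {f g : α → β} (hb : OP A b) (hf : OP A f) (hg : OP A g) :
    OP A (fun a => bif b a then f a else g a) :=
  pcomp (g := fun p : Bool × β × β => bif p.1 then p.2.1 else p.2.2)
    (Poly.cond (Poly.fst Poly.id) (Poly.fst (Poly.snd Poly.id)) (Poly.snd (Poly.snd Poly.id)))
    (pair hb (pair hf hg))

theorem ite {p : α → Prop} [DecidablePred p] {f g : α → β} (hp : OP A (fun a => decide (p a)))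
    (hf : OP A f) (hg : OP A g) : OP A (fun a => if p a then f a else g a) :=
  (cond hp hf hg).congr fun a => by by_cases h : p a <;> simp [h]

theorem not {b : α → Bool} (hb : OP A b) : OP A (fun a => !(b a)) :=
  pcomp (Poly.not Poly.id) hb

theorem and {b c : α → Bool} (hb : OP A b) (hc : OP A c) : OP A (fun a => b a && c a) :=
  pcomp (g := fun p : Bool × Bool => p.1 && p.2)
    (Poly.and (Poly.fst Poly.id) (Poly.snd Poly.id)) (pair hb hc)

/-- a question to the oracle -/
theorem ask : OP A (fun x : List Bool => A x) := by
  refine ⟨_, IsFP.tt (A := A)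
    (Q := fun x => [match unbits (List Bool) x with | none => [] | some y => y])
    (H := fun p => (bits ((p.2.head?).getD false) : List Bool)) ?_ ?_, fun a => ?_⟩
  · refine Poly.cons ((Poly.optCases (o := fun x : List Bool => unbits (List Bool) x)
      (g := fun _ => ([] : List Bool)) (h := fun _ y => y)
      poly_unbits (NPC.Poly.const _) (Poly.snd Poly.id)).congr fun x => ?_) (NPC.Poly.const _)
    cases unbits (List Bool) x <;> rfl
  · exact poly_bits.comp (Poly.head?_getD (Poly.snd Poly.id) false)
  · simp only [unbits_bits]
    rfl

theorem sz_le {f : α → β} (hf : OP A f) : ∃ p : Polynomial ℕ, ∀ a, sz (f a) ≤ p.eval (sz a) := by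
  obtain ⟨F, ⟨M, hM⟩, h2⟩ := hf
  obtain ⟨b, hb⟩ := A2.out_bound M
  refine ⟨b, fun a => ?_⟩
  have h3 := hb A (bits a) _ (hM (bits a))
  rwa [h2, bits_length, bits_length] at h3

/-- the function can be computed such that nothing else is computed for strings that are not
codes -/
theorem strict {f : α → β} (hf : OP A f) : ∃ F : List Bool → List Bool, IsFP A F ∧
    (∀ a, F (bits a) = bits (f a)) ∧ ∀ x, unbits α x = none → F x = [] := by
  obtain ⟨F, h1, h2⟩ := hf
  have p1 : Poly (fun p : List Bool × List Bool × List Bool => match unbits α p.1 with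
      | none => ([] : List Bool)
      | some _ => p.2.2) := by
    exact Poly.optCases (o := fun p : List Bool × List Bool × List Bool => unbits α p.1)
      (g := fun _ => ([] : List Bool)) (h := fun p _ => p.2.2)
      (poly_unbits.comp (Poly.fst Poly.id)) (NPC.Poly.const _)
      (Poly.snd (Poly.snd (Poly.fst Poly.id)))
  refine ⟨_, IsFP.seq (φ := fun p => p.1)
    (IsFP.of_poly (A := A) (F := fun x : List Bool => x) Poly.id) h1 (Poly.fst Poly.id) p1,
    fun a => ?_, fun x hx => ?_⟩
  · simp only [unbits_bits, h2]
  · simp only [hx]

end OP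

end Pool.Agent.TH677.GI
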