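import Pool.Agent.TH677.GI.Grp
import Pool.Agent.TH677.GA.Union

/-!
# Two copies of a structure with distinguished elements
-/

set_option autoImplicit false
set_option linter.unusedVariables false

namespace Pool.Agent.TH677.GI

open Finset Pool.Agent.TH677.GA

/-- the list of the copy `κ` -/
def sel (κ : Bool) (L₁ L₂ : List ℕ) : List ℕ :=
  match κ with
  | false => L₁
  | true => L₂

@[simp] theorem sel_false (L₁ L₂ : List ℕ) : sel false L₁ L₂ = L₁ := rfl
@[simp] theorem sel_true (L₁ L₂ : List ℕ) : sel true L₁ L₂ = L₂ := rfl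

/-- the marks of the element `x` in the copy `κ` -/
def marks (N : ℕ) (L₁ L₂ : List ℕ) (κ : Bool) (x : ℕ) : List Bool :=
  (List.range N).map fun c =>
    decide (c < L₁.length ∧ (sel κ L₁ L₂).getD c 0 = x)

/-- two copies of the structure `g` with entries of length `w`, as a structure on pairs -/
def PE (g : ℕ → ℕ → List Bool) (w N : ℕ) (L₁ L₂ : List ℕ) (a b : Bool × ℕ) : List Bool :=
  decide (a.1 = b.1) :: ((if a.1 = b.1 then g a.2 b.2 else List.replicate w false) ++
    marks N L₁ L₂ a.1 a.2)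

/-- two copies of the structure `g` on the numbers below `N`, as a structure on the numbers below
`2 N`; the elements of the list `L₁` are marked in the first copy and those of `L₂` in the second
one -/
def pairE (g : ℕ → ℕ → List Bool) (w N : ℕ) (L₁ L₂ : List ℕ) (s t : ℕ) : List Bool :=
  PE g w N L₁ L₂ (decide (N ≤ s), ix N s) (decide (N ≤ t), ix N t)

theorem pairE_length {g : ℕ → ℕ → List Bool} {w : ℕ} (hg : ∀ s t, (g s t).length = w)
    (N : ℕ) (L₁ L₂ : List ℕ) (s t : ℕ) : (pairE g w N L₁ L₂ s t).length = w + 1 + N := by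
  unfold pairE PE marks
  rw [List.length_cons, List.length_append, List.length_map, List.length_range]
  split_ifs
  · rw [hg]; ring
  · rw [List.length_replicate]; ring

theorem PE_eq_iff {g : ℕ → ℕ → List Bool} {w : ℕ} (hg : ∀ s t, (g s t).length = w)
    {N : ℕ} {L₁ L₂ : List ℕ} {a b a' b' : Bool × ℕ} :
    PE g w N L₁ L₂ a b = PE g w N L₁ L₂ a' b' ↔
      (a.1 = b.1 ↔ a'.1 = b'.1) ∧ (a.1 = b.1 → a'.1 = b'.1 → g a.2 b.2 = g a'.2 b'.2) ∧
      ∀ c < N, (c < L₁.length ∧ (sel a.1 L₁ L₂).getD c 0 = a.2) ↔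
        (c < L₁.length ∧ (sel a'.1 L₁ L₂).getD c 0 = a'.2) := by
  unfold PE marks
  have hlen : (if a.1 = b.1 then g a.2 b.2 else List.replicate w false).length =
      (if a'.1 = b'.1 then g a'.2 b'.2 else List.replicate w false).length := by
    split_ifs <;> simp [hg]
  have happ : ∀ {A A' B B' : List Bool}, A.length = A'.length →
      (A ++ B = A' ++ B' ↔ A = A' ∧ B = B') := fun h1 =>
    ⟨fun h => List.append_inj h h1, fun h => by rw [h.1, h.2]⟩
  rw [List.cons.injEq, decide_eq_decide, happ hlen, List.map_inj_left]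
  simp only [decide_eq_decide, List.mem_range]
  refine and_congr_right fun h => and_congr_left fun _ => ?_
  by_cases h1 : a.1 = b.1
  · have h2 := h.1 h1
    simp [h1, h2]
  · have h2 : ¬ a'.1 = b'.1 := fun h3 => h1 (h.2 h3)
    simp [h1, h2]

open Classical in
/-- the automorphisms of `g` that map `L₁` to `L₂` -/
noncomputable def Hs (g : ℕ → ℕ → List Bool) (N : ℕ) (L₁ L₂ : List ℕ) :
    Finset (Equiv.Perm (Fin N)) :=
  univ.filter fun σ => AutE g N σ ∧ L₁.map (act σ) = L₂

theorem mem_Hs {g : ℕ → ℕ → List Bool} {N : ℕ} {L₁ L₂ : List ℕ} {σ : Equiv.Perm (Fin N)} :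
    σ ∈ Hs g N L₁ L₂ ↔ AutE g N σ ∧ L₁.map (act σ) = L₂ := by
  simp [Hs]

/-- the permutation of the pairs -/
def mk {N : ℕ} (β : Bool) (σ : Bool → Equiv.Perm (Fin N)) : Equiv.Perm (Bool × Fin N) where
  toFun a := (a.1 ^^ β, σ a.1 a.2)
  invFun a := (a.1 ^^ β, (σ (a.1 ^^ β))⁻¹ a.2)
  left_inv a := by
    obtain ⟨κ, x⟩ := a
    simp
  right_inv a := by
    obtain ⟨κ, x⟩ := a
    simp

/-- the automorphisms of the structure on pairs -/
def AutP' (g : ℕ → ℕ → List Bool) (w N : ℕ) (L₁ L₂ : List ℕ)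
    (π : Equiv.Perm (Bool × Fin N)) : Prop :=
  ∀ a b, PE g w N L₁ L₂ ((π a).1, ((π a).2 : ℕ)) ((π b).1, ((π b).2 : ℕ)) =
    PE g w N L₁ L₂ (a.1, (a.2 : ℕ)) (b.1, (b.2 : ℕ))

theorem map_act_eq_iff {N : ℕ} {L L' : List ℕ} (σ : Equiv.Perm (Fin N))
    (hl : L.length = L'.length) :
    L.map (act σ) = L' ↔ ∀ c < L.length, act σ (L.getD c 0) = L'.getD c 0 := by
  constructor
  · rintro rfl c hc
    rw [List.getD_eq_getElem _ _ hc, List.getD_eq_getElem _ _ (by simpa using hc),
      List.getElem_map]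
  · intro h
    apply List.ext_getElem (by simpa using hl)
    intro c hc hc'
    rw [List.length_map] at hc
    have := h c hc
    rw [List.getD_eq_getElem _ _ hc, List.getD_eq_getElem _ _ hc'] at this
    rw [List.getElem_map]
    exact this

theorem autP'_mk_iff {g : ℕ → ℕ → List Bool} {w N : ℕ} (hg : ∀ s t, (g s t).length = w)
    {L₁ L₂ : List ℕ} (hl : L₁.length = L₂.length) (hN : L₁.length ≤ N)
    (h1 : ∀ x ∈ L₁, x < N) (h2 : ∀ x ∈ L₂, x < N) (β : Bool)
    (σ : Bool → Equiv.Perm (Fin N)) :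
    AutP' g w N L₁ L₂ (mk β σ) ↔
      (AutE g N (σ false) ∧ L₁.map (act (σ false)) = sel β L₁ L₂) ∧
      (AutE g N (σ true) ∧ L₂.map (act (σ true)) = sel β L₂ L₁) := by
  have hsel : ∀ κ : Bool, (sel κ L₁ L₂).length = L₁.length := by
    intro κ; cases κ <;> simp [hl]
  have hm : ∀ κ : Bool, ∀ x ∈ sel κ L₁ L₂, x < N := by
    intro κ; cases κ <;> simpa
  have hgd : ∀ (κ : Bool) (c : ℕ), c < L₁.length →
      (sel κ L₁ L₂).getD c 0 < N := by
    intro κ c hc
    rw [List.getD_eq_getElem _ _ (by rw [hsel]; exact hc)]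
    exact hm κ _ (List.getElem_mem _)
  have key : AutP' g w N L₁ L₂ (mk β σ) ↔ ∀ κ : Bool, AutE g N (σ κ) ∧
      (sel κ L₁ L₂).map (act (σ κ)) = sel (κ ^^ β) L₁ L₂ := by
    constructor
    · intro h κ
      refine ⟨fun x y => ?_, ?_⟩
      · have h3 := (PE_eq_iff hg).1 (h (κ, x) (κ, y))
        exact h3.2.1 rfl rfl
      · rw [map_act_eq_iff _ (by rw [hsel, hsel]), hsel]
        intro c hc
        have hx := hgd κ c hc
        have h3 := ((PE_eq_iff hg).1 (h (κ, ⟨_, hx⟩) (κ, ⟨_, hx⟩))).2.2 c (by omega)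
        rw [act_lt _ hx]
        exact (h3.2 ⟨hc, rfl⟩).2.symm
    · rintro h ⟨κ, x⟩ ⟨κ', y⟩
      rw [PE_eq_iff hg]
      refine ⟨by simp [mk], ?_, fun c hc => ?_⟩
      · intro _ hκ
        change κ = κ' at hκ
        subst hκ
        exact (h κ).1 x y
      · refine and_congr_right fun hcl => ?_
        change (sel (κ ^^ β) L₁ L₂).getD c 0 = ((σ κ x : Fin N) : ℕ) ↔ _
        have h3 := (map_act_eq_iff _ (by rw [hsel, hsel])).1 (h κ).2 c (by rw [hsel]; exact hcl)
        rw [← h3, act_lt _ (hgd κ c hcl), Fin.val_inj]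
        constructor
        · intro h4
          have h5 := (σ κ).injective h4
          exact congrArg Fin.val h5
        · intro h4
          congr 1
          exact Fin.ext h4
  rw [key, Bool.forall_bool]
  cases β <;> simp

theorem exists_mk {g : ℕ → ℕ → List Bool} {w N : ℕ} (hg : ∀ s t, (g s t).length = w)
    {L₁ L₂ : List ℕ} (hN0 : 0 < N) {π : Equiv.Perm (Bool × Fin N)}
    (h : AutP' g w N L₁ L₂ π) : ∃ β σ, mk β σ = π := by
  have h1 : ∀ a b, ((π a).1 = (π b).1 ↔ a.1 = b.1) := fun a b => ((PE_eq_iff hg).1 (h a b)).1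
  set β := (π (false, ⟨0, hN0⟩)).1 with hβ
  have h2 : ∀ a : Bool × Fin N, (π a).1 = (a.1 ^^ β) := by
    intro a
    have h3 := h1 a (false, ⟨0, hN0⟩)
    rw [← hβ] at h3
    simp only at h3
    revert h3
    cases (π a).1 <;> cases a.1 <;> cases β <;> simp
  have h3 : ∀ κ : Bool, Function.Bijective (fun x : Fin N => (π (κ, x)).2) := by
    intro κ
    apply Finite.injective_iff_bijective.1
    intro x y hxy
    have h4 : π (κ, x) = π (κ, y) := Prod.ext (by rw [h2, h2]) hxy
    have h5 := π.injective h4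
    exact (Prod.mk.inj h5).2
  refine ⟨β, fun κ => Equiv.ofBijective _ (h3 κ), ?_⟩
  ext a
  · change (a.1 ^^ β) = _
    rw [h2]
  · rfl

/-- the number of the automorphisms of the two copies -/
theorem autC_pairE {g : ℕ → ℕ → List Bool} {w N : ℕ} (hg : ∀ s t, (g s t).length = w)
    {L₁ L₂ : List ℕ} (hl : L₁.length = L₂.length) (hN : L₁.length ≤ N) (hN0 : 0 < N)
    (h1 : ∀ x ∈ L₁, x < N) (h2 : ∀ x ∈ L₂, x < N) :
    autC (pairE g w N L₁ L₂) (2 * N) =
      (Hs g N L₁ L₁).card * (Hs g N L₂ L₂).card + (Hs g N L₁ L₂).card * (Hs g N L₂ L₁).card := by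
  classical
  -- the numbers below `2 N` as pairs
  have hix : ∀ s < 2 * N, ix N s < N := by
    intro s hs
    unfold ix
    split_ifs <;> omega
  set φ : Bool × Fin N ≃ Fin (2 * N) :=
    { toFun := fun a => ⟨(if a.1 = true then N else 0) + a.2, by
        have := a.2.2
        split_ifs <;> omega⟩
      invFun := fun s => (decide (N ≤ (s : ℕ)), ⟨ix N s, hix s s.2⟩)
      left_inv := by
        rintro ⟨κ, x⟩
        have := x.2
        cases κ
        · simp only [Bool.false_eq_true, if_false, Nat.zero_add]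
          refine Prod.ext ?_ (Fin.ext ?_)
          · simp only [decide_eq_false_iff_not]; omega
          · change ix N x = x
            unfold ix
            rw [if_neg (by omega)]
        · simp only [if_true]
          refine Prod.ext ?_ (Fin.ext ?_)
          · simp only [decide_eq_true_eq]; omega
          · change ix N (N + x) = x
            unfold ix
            rw [if_pos (by omega)]
            omega
      right_inv := by
        intro s
        apply Fin.ext
        have := s.2
        by_cases h : N ≤ (s : ℕ)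
        · simp [h, ix]
        · simp [h, ix] } with hφ
  have hval : ∀ a : Bool × Fin N, decide (N ≤ (φ a : ℕ)) = a.1 ∧ ix N (φ a) = a.2 := by
    intro a
    have h3 : φ.symm (φ a) = a := φ.symm_apply_apply a
    have h4 : φ.symm (φ a) = (decide (N ≤ (φ a : ℕ)), ⟨ix N (φ a), hix _ (φ a).2⟩) := rfl
    rw [h3] at h4
    exact ⟨congrArg Prod.fst h4.symm, congrArg (fun p => (p.2 : ℕ)) h4.symm⟩
  have hPE : ∀ a b : Bool × Fin N, pairE g w N L₁ L₂ (φ a) (φ b) =
      PE g w N L₁ L₂ (a.1, (a.2 : ℕ)) (b.1, (b.2 : ℕ)) := by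
    intro a b
    unfold pairE
    rw [(hval a).1, (hval a).2, (hval b).1, (hval b).2]
  have e1 : autC (pairE g w N L₁ L₂) (2 * N) =
      ((univ : Finset (Equiv.Perm (Bool × Fin N))).filter
        (fun π => AutP' g w N L₁ L₂ π)).card := by
    unfold autC
    symm
    apply card_bij (fun π _ => φ.permCongr π)
    · intro π hπ
      rw [mem_filter] at hπ
      rw [mem_autF]
      refine ⟨fun s t => ?_, fun c hc => absurd hc (Nat.not_lt_zero _)⟩
      obtain ⟨a, rfl⟩ := φ.surjective s
      obtain ⟨b, rfl⟩ := φ.surjective t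
      rw [Equiv.permCongr_apply, Equiv.permCongr_apply, φ.symm_apply_apply,
        φ.symm_apply_apply, hPE, hPE]
      exact hπ.2 a b
    · intro π _ π' _ h
      exact φ.permCongr.injective h
    · intro σ hσ
      rw [mem_autF] at hσ
      refine ⟨φ.permCongr.symm σ, ?_, φ.permCongr.apply_symm_apply σ⟩
      rw [mem_filter]
      refine ⟨mem_univ _, fun a b => ?_⟩
      have h3 := hσ.1 (φ a) (φ b)
      have h4 : ∀ a, φ (φ.permCongr.symm σ a) = σ (φ a) := by
        intro a
        simp [Equiv.permCongr_symm]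
      rw [← h4, ← h4, hPE, hPE] at h3
      exact h3
  have e2 : ((univ : Finset (Equiv.Perm (Bool × Fin N))).filter
        (fun π => AutP' g w N L₁ L₂ π)).card =
      ((univ : Finset (Bool × (Equiv.Perm (Fin N) × Equiv.Perm (Fin N)))).filter (fun p =>
        (AutE g N p.2.1 ∧ L₁.map (act p.2.1) = sel p.1 L₁ L₂) ∧
        (AutE g N p.2.2 ∧ L₂.map (act p.2.2) = sel p.1 L₂ L₁))).card := by
    symm
    apply card_bij (fun p _ => mk p.1 (fun κ => if κ = true then p.2.2 else p.2.1))
    · intro p hp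
      rw [mem_filter] at hp ⊢
      refine ⟨mem_univ _, ?_⟩
      rw [autP'_mk_iff hg hl hN h1 h2]
      simpa using hp.2
    · intro p _ p' _ h
      obtain ⟨β, σ, τ⟩ := p
      obtain ⟨β', σ', τ'⟩ := p'
      simp only at h
      have h3 : ∀ a, mk β (fun κ => if κ = true then τ else σ) a =
          mk β' (fun κ => if κ = true then τ' else σ') a := fun a => by rw [h]
      have h4 : β = β' := by
        have := congrArg Prod.fst (h3 (false, ⟨0, hN0⟩))
        simpa [mk] using this
      have h5 : σ = σ' := by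
        ext x
        have := congrArg (fun q => (q.2 : ℕ)) (h3 (false, x))
        simpa [mk] using this
      have h6 : τ = τ' := by
        ext x
        have := congrArg (fun q => (q.2 : ℕ)) (h3 (true, x))
        simpa [mk] using this
      rw [h4, h5, h6]
    · intro π hπ
      rw [mem_filter] at hπ
      obtain ⟨β, σ, rfl⟩ := exists_mk hg hN0 hπ.2
      refine ⟨(β, (σ false, σ true)), ?_, ?_⟩
      · rw [mem_filter]
        exact ⟨mem_univ _, (autP'_mk_iff hg hl hN h1 h2 β σ).1 hπ.2⟩
      · simp only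
        congr 1
        funext κ
        cases κ <;> simp
  have e3 : ((univ : Finset (Bool × (Equiv.Perm (Fin N) × Equiv.Perm (Fin N)))).filter (fun p =>
        (AutE g N p.2.1 ∧ L₁.map (act p.2.1) = sel p.1 L₁ L₂) ∧
        (AutE g N p.2.2 ∧ L₂.map (act p.2.2) = sel p.1 L₂ L₁))) =
      (({false} : Finset Bool) ×ˢ (Hs g N L₁ L₁ ×ˢ Hs g N L₂ L₂)) ∪
      (({true} : Finset Bool) ×ˢ (Hs g N L₁ L₂ ×ˢ Hs g N L₂ L₁)) := by
    ext ⟨β, σ, τ⟩
    simp only [mem_filter, mem_univ, true_and, mem_union, mem_product, mem_singleton, mem_Hs]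
    cases β <;> simp
  rw [e1, e2, e3, card_union_of_disjoint, card_product, card_product, card_product,
    card_product, card_singleton, card_singleton, one_mul, one_mul]
  rw [disjoint_left]
  rintro ⟨β, p⟩ h3 h4
  rw [mem_product, mem_singleton] at h3 h4
  have := h3.1.symm.trans h4.1
  exact absurd this (by simp)

end Pool.Agent.TH677.GI
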