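import Pool.Agent.TH677.GI.Blk
import Pool.Agent.TH677.GA.Trial

/-!
# The random strings asked about
-/

set_option autoImplicit false

namespace Pool.Agent.TH677.GI

open Finset Pool.Agent.TH677.GA Pool.Agent.NPC

/-- the number of bits of a number that is at most `m! ^ b / hi ^ b` -/
def beta (m b hi : ℕ) : ℕ := (m.factorial ^ b / hi ^ b).bits.length

/-- the number of bits of a hash function -/
def hlen (m k b hi : ℕ) : ℕ := (beta m b hi + 1) * blen m k b

/-- the number of random bits of a trial -/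
def tlen (m k b q hi : ℕ) : ℕ := hlen m k b hi + q * rnd m b

/-- the string made of a hash function and of hash values of codes of random arrangements -/
def trial (e : ℕ → ℕ → List Bool) (m k b q hi : ℕ) (u : List Bool) : List Bool :=
  u.take (hlen m k b hi) ++ blocks (rnd m b) (fun v => hash (blen m k b) (beta m b hi + 1)
    (u.take (hlen m k b hi)) (blkAll e m b (valB v % m.factorial ^ b))) q
      (u.drop (hlen m k b hi))

/-- the length of this string -/
def xlen (m k b q hi : ℕ) : ℕ := hlen m k b hi + q * (beta m b hi + 1)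

theorem trial_length (e : ℕ → ℕ → List Bool) (m k b q hi : ℕ) (u : List Bool)
    (hu : tlen m k b q hi ≤ u.length) : (trial e m k b q hi u).length = xlen m k b q hi := by
  unfold trial xlen
  rw [List.length_append, blocks_length (fun v => hash_length _ _ _ _), List.length_take]
  congr 1
  unfold tlen at hu
  omega

theorem blocks_append {s : ℕ} {g : List Bool → List Bool} (w' : List Bool) (q : ℕ) :
    ∀ w : List Bool, q * s ≤ w.length → blocks s g q (w ++ w') = blocks s g q w := by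
  induction q with
  | zero => intro w _; rfl
  | succ q ih =>
    intro w hw
    have h1 : (q + 1) * s = q * s + s := by ring
    rw [h1] at hw
    rw [blocks, blocks, List.take_append_of_le_length (by omega),
      List.drop_append_of_le_length (by omega), ih]
    rw [List.length_drop]
    omega

theorem trial_append (e : ℕ → ℕ → List Bool) (m k b q hi : ℕ) (u u' : List Bool)
    (hu : tlen m k b q hi ≤ u.length) : trial e m k b q hi (u ++ u') = trial e m k b q hi u := by
  unfold tlen at hu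
  unfold trial
  rw [List.take_append_of_le_length (by omega), List.drop_append_of_le_length (by omega),
    blocks_append]
  rw [List.length_drop]
  omega

theorem sum_not_le' {N : ℕ} {D : ℝ} (hD : 0 < D) {R : List Bool → Prop} [DecidablePred R]
    (hR : (2 : ℝ) ^ N / D ≤ ∑ x ∈ Bits N, if R x then (1 : ℝ) else 0) :
    ∑ x ∈ Bits N, (if ¬ R x then (1 : ℝ) else 0) ≤ 2 ^ N * (1 - 1 / D) := by
  have h1 : ∑ x ∈ Bits N, (if R x then (1 : ℝ) else 0) +
      ∑ x ∈ Bits N, (if ¬ R x then (1 : ℝ) else 0) = 2 ^ N := by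
    rw [← Finset.sum_add_distrib, ← mul_one ((2 : ℝ) ^ N), ← sum_Bits_const]
    refine Finset.sum_congr rfl fun x _ => ?_
    by_cases h : R x <;> simp [h]
  have h2 : (2 : ℝ) ^ N * (1 - 1 / D) = 2 ^ N - 2 ^ N / D := by ring
  rw [h2]
  linarith

/-- for a structure with few automorphisms the string belongs with positive probability to every
dense set of strings of its length -/
theorem trial_few {e : ℕ → ℕ → List Bool} {m k b q hi D : ℕ} (he : ∀ s t, (e s t).length = k)
    (hfew : 5 * autC e m ≤ 4 * hi) (hhi : hi ≤ m.factorial) (hq : 0 < q) (hD : 0 < D)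
    (hb : 256 * (q * D) ^ 2 * 4 ^ b ≤ 5 ^ b) {R : List Bool → Prop}
    [DecidablePred R]
    (hR : (2 : ℝ) ^ xlen m k b q hi / D ≤
      ∑ x ∈ Bits (xlen m k b q hi), if R x then (1 : ℝ) else 0) :
    ∑ u ∈ Bits (tlen m k b q hi), (if ¬ R (trial e m k b q hi u) then (1 : ℝ) else 0) ≤
      (1 - 1 / (2 * D)) * 2 ^ tlen m k b q hi := by
  set H := hlen m k b hi with hH
  set s := rnd m b with hs
  set l := beta m b hi + 1 with hl
  set B := blen m k b with hB
  set M := m.factorial ^ b with hM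
  have hM0 : 0 < M := pow_pos (Nat.factorial_pos m) b
  have hMr : (0 : ℝ) < M := by exact_mod_cast hM0
  have hDr : (0 : ℝ) < D := by exact_mod_cast hD
  have hhi0 : 0 < hi := by
    have := autC_pos e m
    omega
  have hl4 : (2 : ℝ) ^ l * hi ^ b ≤ 4 * M := by
    have h1 : 0 < M / hi ^ b :=
      Nat.div_pos (Nat.pow_le_pow_left hhi b) (pow_pos hhi0 b)
    have h2 := two_pow_bits_le h1
    have h4 : 2 ^ l * hi ^ b ≤ 4 * M := by
      calc 2 ^ l * hi ^ b = 2 * 2 ^ beta m b hi * hi ^ b := by rw [hl, pow_succ]; ring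
        _ ≤ 2 * (2 * (M / hi ^ b)) * hi ^ b :=
          Nat.mul_le_mul_right _ (Nat.mul_le_mul_left _ h2)
        _ = 4 * (M / hi ^ b * hi ^ b) := by ring
        _ ≤ 4 * M := Nat.mul_le_mul_left _ (Nat.div_mul_le_self _ _)
    exact_mod_cast h4
  set Y : List Bool → List Bool := fun v => blkAll e m b (valB v % M) with hY
  have hYB : ∀ v ∈ Bits s, Y v ∈ Bits B := fun v _ => mem_Bits.2 (blkAll_length he m b _)
  have hcol : (∑ v ∈ Bits s, ∑ v' ∈ Bits s, (if Y v = Y v' then (1 : ℝ) else 0)) /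
      (2 ^ s * 2 ^ s) ≤ 2 * (autC e m : ℝ) ^ b / M := collision_le' he (lt_two_pow_bits _).le
  have hqr : (0 : ℝ) < q := by exact_mod_cast hq
  set c : ℝ := 2 ^ l * (4 * (q * D)) with hc
  have hc0 : 0 < c := by positivity
  have hLHL := sum_dist_le (l := l) (s := s) hYB hc0
  have hH' : l * B = H := rfl
  rw [hH'] at hLHL
  -- the sum over the hash functions and the blocks
  have e1 : ∑ u ∈ Bits (tlen m k b q hi), (if ¬ R (trial e m k b q hi u) then (1 : ℝ) else 0) =
      ∑ h ∈ Bits H, ∑ w ∈ Bits (q * s), (if ¬ R (h ++ blocks s (fun v => hash B l h (Y v)) q w)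
        then (1 : ℝ) else 0) := by
    rw [show tlen m k b q hi = H + q * s from rfl, sum_Bits_add]
    refine Finset.sum_congr rfl fun h hh => Finset.sum_congr rfl fun w _ => ?_
    rw [mem_Bits] at hh
    have h1 : trial e m k b q hi (h ++ w) = h ++ blocks s (fun v => hash B l h (Y v)) q w := by
      unfold trial
      rw [← hH, List.take_left' hh, List.drop_left' hh]
    rw [h1]
  have e2 : ∀ h ∈ Bits H, ∑ w ∈ Bits (q * s),
      (if ¬ R (h ++ blocks s (fun v => hash B l h (Y v)) q w) then (1 : ℝ) else 0) ≤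
      2 ^ (q * s) * ((∑ z ∈ Bits (q * l), (if ¬ R (h ++ z) then (1 : ℝ) else 0)) / 2 ^ (q * l) +
        q * dist l s (fun v => hash B l h (Y v))) := by
    intro h _
    have h1 := hybrid (l := l) (s := s) (g := fun v => hash B l h (Y v))
      (fun v _ => mem_Bits.2 (hash_length _ _ _ _)) q
      (fun z => if ¬ R (h ++ z) then (1 : ℝ) else 0)
      (fun z => by split_ifs <;> norm_num) (fun z => by split_ifs <;> norm_num)
    have h2 := (abs_le.1 h1).2
    have h3 : (∑ w ∈ Bits (q * s), (if ¬ R (h ++ blocks s (fun v => hash B l h (Y v)) q w)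
        then (1 : ℝ) else 0)) / 2 ^ (q * s) ≤
        (∑ z ∈ Bits (q * l), (if ¬ R (h ++ z) then (1 : ℝ) else 0)) / 2 ^ (q * l) +
        q * dist l s (fun v => hash B l h (Y v)) := by linarith
    rw [div_le_iff₀ (by positivity)] at h3
    linarith
  rw [e1]
  refine (Finset.sum_le_sum e2).trans ?_
  rw [← Finset.mul_sum, Finset.sum_add_distrib, ← Finset.sum_div, ← Finset.mul_sum]
  have e3 : ∑ h ∈ Bits H, ∑ z ∈ Bits (q * l), (if ¬ R (h ++ z) then (1 : ℝ) else 0) ≤
      2 ^ (H + q * l) * (1 - 1 / D) := by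
    rw [← sum_Bits_add H (q * l) (fun x => if ¬ R x then (1 : ℝ) else 0)]
    exact sum_not_le' hDr hR
  have e4 : c / 2 * ((∑ v ∈ Bits s, ∑ v' ∈ Bits s, (if Y v = Y v' then (1 : ℝ) else 0)) /
      (2 ^ s * 2 ^ s)) + 2 ^ l / (2 * c) ≤ 1 / (16 * (q * D)) + 1 / (8 * (q * D)) := by
    have h1 : c / 2 * ((∑ v ∈ Bits s, ∑ v' ∈ Bits s, (if Y v = Y v' then (1 : ℝ) else 0)) /
      (2 ^ s * 2 ^ s)) ≤ c / 2 * (2 * (autC e m : ℝ) ^ b / M) :=
      mul_le_mul_of_nonneg_left hcol (by positivity)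
    have h2 : c / 2 * (2 * (autC e m : ℝ) ^ b / M) ≤ 1 / (16 * (q * D)) := by
      have h3 : c / 2 * (2 * (autC e m : ℝ) ^ b / M) =
          2 ^ l * (4 * (q * D)) * (autC e m : ℝ) ^ b / M := by rw [hc]; field_simp
      rw [h3, div_le_div_iff₀ hMr (by positivity)]
      have h4 : (256 : ℝ) * (q * D) ^ 2 * 4 ^ b ≤ 5 ^ b := by exact_mod_cast hb
      have h5 : (5 : ℝ) ^ b * (autC e m : ℝ) ^ b ≤ 4 ^ b * (hi : ℝ) ^ b := by
        rw [← mul_pow, ← mul_pow]
        exact pow_le_pow_left₀ (by positivity) (by exact_mod_cast hfew) b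
      have h6 : (256 : ℝ) * (q * D) ^ 2 * (autC e m : ℝ) ^ b ≤ (hi : ℝ) ^ b := by
        have h7 : (256 : ℝ) * (q * D) ^ 2 * (autC e m : ℝ) ^ b * 4 ^ b ≤ (hi : ℝ) ^ b * 4 ^ b := by
          calc (256 : ℝ) * (q * D) ^ 2 * (autC e m : ℝ) ^ b * 4 ^ b
              = 256 * (q * D) ^ 2 * 4 ^ b * (autC e m : ℝ) ^ b := by ring
            _ ≤ 5 ^ b * (autC e m : ℝ) ^ b := mul_le_mul_of_nonneg_right h4 (by positivity)
            _ ≤ 4 ^ b * (hi : ℝ) ^ b := h5
            _ = (hi : ℝ) ^ b * 4 ^ b := by ring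
        exact le_of_mul_le_mul_right h7 (by positivity)
      have h8 : (2 : ℝ) ^ l * (256 * (q * D) ^ 2 * (autC e m : ℝ) ^ b) ≤ 4 * M :=
        (mul_le_mul_of_nonneg_left h6 (by positivity)).trans hl4
      nlinarith
    have h3 : (2 : ℝ) ^ l / (2 * c) = 1 / (8 * (q * D)) := by
      rw [hc]
      field_simp
      ring
    linarith
  have e5 : ∑ h ∈ Bits H, dist l s (fun v => hash B l h (Y v)) ≤
      2 ^ H * (1 / (16 * (q * D)) + 1 / (8 * (q * D))) :=
    hLHL.trans (mul_le_mul_of_nonneg_left e4 (by positivity))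
  have e6 : (∑ h ∈ Bits H, ∑ z ∈ Bits (q * l), (if ¬ R (h ++ z) then (1 : ℝ) else 0)) /
      2 ^ (q * l) ≤ 2 ^ H * (1 - 1 / D) := by
    rw [div_le_iff₀ (by positivity)]
    refine e3.trans (le_of_eq ?_)
    rw [pow_add]
    ring
  have e7 : (q : ℝ) * ∑ h ∈ Bits H, dist l s (fun v => hash B l h (Y v)) ≤
      2 ^ H * (3 / (16 * D)) := by
    refine (mul_le_mul_of_nonneg_left e5 hqr.le).trans (le_of_eq ?_)
    field_simp
    ring
  have e8 : (1 : ℝ) - 1 / D + 3 / (16 * D) ≤ 1 - 1 / (2 * D) := by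
    have h1 : (1 : ℝ) / D = 16 / (16 * D) := by field_simp
    have h2 : (1 : ℝ) / (2 * D) = 8 / (16 * D) := by field_simp; norm_num
    have h3 : (0 : ℝ) < 1 / (16 * D) := by positivity
    rw [h1, h2]
    have h4 : (16 : ℝ) / (16 * D) = 16 * (1 / (16 * D)) := by ring
    have h5 : (8 : ℝ) / (16 * D) = 8 * (1 / (16 * D)) := by ring
    have h6 : (3 : ℝ) / (16 * D) = 3 * (1 / (16 * D)) := by ring
    rw [h4, h5, h6]
    linarith
  calc (2 : ℝ) ^ (q * s) * ((∑ h ∈ Bits H, ∑ z ∈ Bits (q * l),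
        (if ¬ R (h ++ z) then (1 : ℝ) else 0)) / 2 ^ (q * l) +
        q * ∑ h ∈ Bits H, dist l s (fun v => hash B l h (Y v)))
      ≤ 2 ^ (q * s) * (2 ^ H * (1 - 1 / D) + 2 ^ H * (3 / (16 * D))) :=
        mul_le_mul_of_nonneg_left (add_le_add e6 e7) (by positivity)
    _ = (1 - 1 / D + 3 / (16 * D)) * 2 ^ (H + q * s) := by rw [pow_add]; ring
    _ ≤ (1 - 1 / (2 * D)) * 2 ^ (H + q * s) := mul_le_mul_of_nonneg_right e8 (by positivity)

/-- the same with more random bits than needed -/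
theorem trial_few_long {e : ℕ → ℕ → List Bool} {m k b q hi r D : ℕ}
    (he : ∀ s t, (e s t).length = k)
    (hfew : 5 * autC e m ≤ 4 * hi) (hhi : hi ≤ m.factorial) (hq : 0 < q) (hD : 0 < D)
    (hb : 256 * (q * D) ^ 2 * 4 ^ b ≤ 5 ^ b) (hr : tlen m k b q hi ≤ r) {R : List Bool → Prop}
    [DecidablePred R]
    (hR : (2 : ℝ) ^ xlen m k b q hi / D ≤
      ∑ x ∈ Bits (xlen m k b q hi), if R x then (1 : ℝ) else 0) :
    ∑ u ∈ Bits r, (if ¬ R (trial e m k b q hi u) then (1 : ℝ) else 0) ≤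
      (1 - 1 / (2 * D)) * 2 ^ r := by
  obtain ⟨j, rfl⟩ := Nat.exists_eq_add_of_le hr
  rw [sum_Bits_add]
  have h1 : ∀ u ∈ Bits (tlen m k b q hi), ∑ v ∈ Bits j,
      (if ¬ R (trial e m k b q hi (u ++ v)) then (1 : ℝ) else 0) =
      2 ^ j * (if ¬ R (trial e m k b q hi u) then (1 : ℝ) else 0) := by
    intro u hu
    rw [mem_Bits] at hu
    rw [← sum_Bits_const]
    refine Finset.sum_congr rfl fun v _ => ?_
    rw [trial_append _ _ _ _ _ _ _ _ hu.ge]
  rw [Finset.sum_congr rfl h1, ← Finset.mul_sum, pow_add]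
  have h2 := trial_few he hfew hhi hq hD hb hR
  have h3 := mul_le_mul_of_nonneg_left h2 (by positivity : (0 : ℝ) ≤ 2 ^ j)
  refine h3.trans (le_of_eq ?_)
  ring

end Pool.Agent.TH677.GI
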